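import Pool.Agent.H96.Z.Alg

/-!
# The second order expansion of a product: exponents which may vanish
-/

set_option autoImplicit false
set_option linter.unusedSectionVars false

namespace Pool.Agent.H96.ZN

open MvPolynomial
open Pool.Agent.H96.Z (exD ya sum_sig prod_sig toNat_sub)

section Circuit

variable {υ : Type} {p R : ℕ} [Fact p.Prime]

/-- The polynomial of the second order, and the denominator. -/
theorem exists_circuit (lam : Fin R → ℤ) (hlam : ∀ i, lam i = 0 ∨ ¬ (p : ℤ) ∣ lam i) (a : υ)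
    (b : Fin R → υ) (hb : Function.Injective b) (hab : ∀ i, b i ≠ a) :
    ∃ Q P : MvPolynomial υ (ZMod p),
      (∀ (B : Type) [Field B] [Algebra (ZMod p) B] (Y : υ → B),
        ∏ i, (1 + Y a * Y (b i) * (lam i : B)⁻¹) ^ (lam i).toNat -
          ∏ i, (1 + Y a * Y (b i) * (lam i : B)⁻¹) ^ (-lam i).toNat =
          Y a * (∑ i, if lam i = 0 then 0 else Y (b i)) + Y a ^ 2 * aeval Y Q ∧
        aeval Y P = ∏ i, (1 + Y a * Y (b i) * (lam i : B)⁻¹) ^ (-lam i).toNat) ∧
      ∀ (B : Type) [Field B] [Algebra (ZMod p) B] (Y : υ → B), Y a = 0 →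
        ((∑ i, if lam i = 0 then 0 else Y (b i)) = 0 →
          2 * aeval Y Q = - ∑ i, Y (b i) ^ 2 * (lam i : B)⁻¹ ∧
          (∃ E : B, ∀ i, aeval Y (pderiv (b i) Q) =
            if lam i = 0 then 0 else E - Y (b i) * (lam i : B)⁻¹)) ∧
        aeval Y P = 1 ∧ ∀ l, l ≠ a → aeval Y (pderiv l P) = 0 := by
  classical
  have hp0 : ∀ (B : Type) [Field B] [Algebra (ZMod p) B] (i : Fin R), lam i ≠ 0 →
      (lam i : B) ≠ 0 := by
    intro B _ _ i hi
    have : CharP B p := charP_of_injective_algebraMap (algebraMap (ZMod p) B).injective p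
    rw [Ne, CharP.intCast_eq_zero_iff B p]
    exact (hlam i).resolve_left hi
  have hcast : ∀ (B : Type) [Field B] [Algebra (ZMod p) B] (i : Fin R),
      algebraMap (ZMod p) B ((lam i : ZMod p)⁻¹) = (lam i : B)⁻¹ := by
    intro B _ _ i
    rw [map_inv₀, map_intCast]
  have hev : ∀ (B : Type) [Field B] [Algebra (ZMod p) B] (Y : υ → B) (i : Fin R),
      aeval Y (ya (p := p) lam b i) = Y (b i) * (lam i : B)⁻¹ := by
    intro B _ _ Y i
    rw [ya, map_mul, aeval_X, aeval_C, hcast]
  obtain ⟨D₁, h1, h1'⟩ := exD (Finset.univ : Finset (Σ i, Fin ((lam i).toNat)))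
    (X a : MvPolynomial υ (ZMod p)) (fun x => ya lam b x.1)
  obtain ⟨D₂, h2, h2'⟩ := exD (Finset.univ : Finset (Σ i, Fin ((-lam i).toNat)))
    (X a : MvPolynomial υ (ZMod p)) (fun x => ya lam b x.1)
  rw [prod_sig (fun i => (lam i).toNat) (fun i => 1 + X a * ya lam b i),
    sum_sig (fun i => (lam i).toNat) (fun i => ya lam b i)] at h1
  rw [prod_sig (fun i => (-lam i).toNat) (fun i => 1 + X a * ya lam b i),
    sum_sig (fun i => (-lam i).toNat) (fun i => ya lam b i)] at h2
  have hlin : ∀ (B : Type) [Field B] [Algebra (ZMod p) B] (g : Fin R → B),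
      ∑ i, (((lam i).toNat : ℕ) : B) * (g i * (lam i : B)⁻¹) -
        ∑ i, (((-lam i).toNat : ℕ) : B) * (g i * (lam i : B)⁻¹) =
          ∑ i, if lam i = 0 then 0 else g i := by
    intro B _ _ g
    rw [← Finset.sum_sub_distrib]
    refine Finset.sum_congr rfl fun i _ => ?_
    rw [← sub_mul, toNat_sub]
    by_cases hi : lam i = 0
    · rw [if_pos hi, hi, Int.cast_zero, zero_mul]
    · rw [if_neg hi, mul_comm (g i), ← mul_assoc, mul_inv_cancel₀ (hp0 B i hi), one_mul]
  have hprod : ∀ (B : Type) [Field B] [Algebra (ZMod p) B] (Y : υ → B) (n : Fin R → ℕ),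
      aeval Y (∏ i, (1 + X a * ya (p := p) lam b i) ^ n i) =
        ∏ i, (1 + Y a * Y (b i) * (lam i : B)⁻¹) ^ n i := by
    intro B _ _ Y n
    rw [map_prod]
    refine Finset.prod_congr rfl fun i _ => ?_
    rw [map_pow, map_add, map_one, map_mul, aeval_X, hev, mul_assoc]
  refine ⟨D₁ - D₂, ∏ i, (1 + X a * ya lam b i) ^ (-lam i).toNat,
    fun B _ _ Y => ⟨?_, hprod B Y _⟩, fun B _ _ Y ha => ⟨fun hY => ⟨?_, ?_⟩, ?_, ?_⟩⟩
  · have h3 := congrArg (aeval Y) h1
    have h4 := congrArg (aeval Y) h2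
    rw [hprod, map_add, map_add, map_one, map_mul, map_mul, map_pow, aeval_X, map_sum] at h3 h4
    simp only [map_mul, hev, map_natCast] at h3 h4
    have h5 := hlin B fun i => Y (b i)
    rw [h3, h4, map_sub]
    linear_combination (Y a) * h5
  · have h3 := (h1' B (aeval Y).toRingHom (by
      show aeval Y (X a) = 0
      rw [aeval_X, ha])).1
    have h4 := (h2' B (aeval Y).toRingHom (by
      show aeval Y (X a) = 0
      rw [aeval_X, ha])).1
    have h6 : ∀ i, (aeval Y).toRingHom (ya (p := p) lam b i) = Y (b i) * (lam i : B)⁻¹ :=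
      fun i => hev B Y i
    simp only [h6] at h3 h4
    rw [sum_sig (fun i => (lam i).toNat) (fun i => Y (b i) * (lam i : B)⁻¹),
      sum_sig (fun i => (lam i).toNat) (fun i => (Y (b i) * (lam i : B)⁻¹) ^ 2)] at h3
    rw [sum_sig (fun i => (-lam i).toNat) (fun i => Y (b i) * (lam i : B)⁻¹),
      sum_sig (fun i => (-lam i).toNat) (fun i => (Y (b i) * (lam i : B)⁻¹) ^ 2)] at h4
    have h5 := hlin B fun i => Y (b i)
    have h7 := hlin B fun i => Y (b i) ^ 2 * (lam i : B)⁻¹
    have h7' : (∑ i, if lam i = 0 then 0 else Y (b i) ^ 2 * (lam i : B)⁻¹) =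
        ∑ i, Y (b i) ^ 2 * (lam i : B)⁻¹ := by
      refine Finset.sum_congr rfl fun i _ => ?_
      by_cases hi : lam i = 0
      · rw [if_pos hi, hi, Int.cast_zero, inv_zero, mul_zero]
      · rw [if_neg hi]
    rw [h7'] at h7
    rw [hY] at h5
    have h8 : ∀ i, (Y (b i) * (lam i : B)⁻¹) ^ 2 = Y (b i) ^ 2 * (lam i : B)⁻¹ * (lam i : B)⁻¹ :=
      fun i => by ring
    simp only [h8] at h3 h4
    have h9 : ∀ q : MvPolynomial υ (ZMod p), (aeval Y).toRingHom q = aeval Y q := fun q => rfl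
    rw [h9] at h3 h4
    rw [map_sub, mul_sub, h3, h4, ← h7]
    linear_combination (∑ i, (((lam i).toNat : ℕ) : B) * (Y (b i) * (lam i : B)⁻¹) +
        ∑ i, (((-lam i).toNat : ℕ) : B) * (Y (b i) * (lam i : B)⁻¹)) * h5
  · refine ⟨∑ i, (((lam i).toNat : ℕ) : B) * (Y (b i) * (lam i : B)⁻¹), fun i => ?_⟩
    have hX : pderiv (b i) (X a : MvPolynomial υ (ZMod p)) = 0 := by
      rw [pderiv_X, Pi.single_eq_of_ne (Ne.symm (hab i))]
    have h3 := (h1' B (aeval Y).toRingHom (by
      show aeval Y (X a) = 0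
      rw [aeval_X, ha])).2 (b i) hX
    have h4 := (h2' B (aeval Y).toRingHom (by
      show aeval Y (X a) = 0
      rw [aeval_X, ha])).2 (b i) hX
    have h9 : ∀ q : MvPolynomial υ (ZMod p), (aeval Y).toRingHom q = aeval Y q := fun q => rfl
    simp only [h9] at h3 h4
    have hd : ∀ j, aeval Y (pderiv (b i) (ya (p := p) lam b j)) =
        (if j = i then (1 : B) else 0) * (lam j : B)⁻¹ := by
      intro j
      rw [ya, Derivation.leibniz, pderiv_C, smul_zero, zero_add, pderiv_X, smul_eq_mul, map_mul,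
        aeval_C, hcast, mul_comm]
      congr 1
      by_cases hj : j = i
      · rw [if_pos hj, hj, Pi.single_eq_same, map_one]
      · rw [if_neg hj, Pi.single_eq_of_ne (fun h => hj (hb h)), map_zero]
    simp only [hd, hev] at h3 h4
    have hs : ∀ n : Fin R → ℕ, ∑ x : (Σ i, Fin (n i)), (if x.1 = i then (1 : B) else 0) *
        (lam x.1 : B)⁻¹ = ∑ j, (n j : B) * ((if j = i then (1 : B) else 0) * (lam j : B)⁻¹) :=
      fun n => sum_sig n fun j => (if j = i then (1 : B) else 0) * (lam j : B)⁻¹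
    have hs' : ∀ n : Fin R → ℕ, ∑ x : (Σ i, Fin (n i)), Y (b x.1) * (lam x.1 : B)⁻¹ *
        ((if x.1 = i then (1 : B) else 0) * (lam x.1 : B)⁻¹) = ∑ j, (n j : B) *
          (Y (b j) * (lam j : B)⁻¹ * ((if j = i then (1 : B) else 0) * (lam j : B)⁻¹)) :=
      fun n => sum_sig n fun j => Y (b j) * (lam j : B)⁻¹ *
        ((if j = i then (1 : B) else 0) * (lam j : B)⁻¹)
    have hs'' : ∀ n : Fin R → ℕ, ∑ x : (Σ i, Fin (n i)), Y (b x.1) * (lam x.1 : B)⁻¹ =
        ∑ j, (n j : B) * (Y (b j) * (lam j : B)⁻¹) :=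
      fun n => sum_sig n fun j => Y (b j) * (lam j : B)⁻¹
    rw [hs, hs', hs''] at h3 h4
    have h5 := hlin B fun j => Y (b j)
    have h6 := hlin B fun j => if j = i then (1 : B) else 0
    have h7 := hlin B fun j => Y (b j) * (lam j : B)⁻¹ * (if j = i then (1 : B) else 0)
    rw [hY] at h5
    have h6' : (∑ j, if lam j = 0 then 0 else if j = i then (1 : B) else 0) =
        if lam i = 0 then 0 else 1 := by
      rw [Finset.sum_eq_single i]
      · rw [if_pos rfl]
      · intro j _ hj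
        rw [if_neg hj, ite_self]
      · intro h; exact absurd (Finset.mem_univ _) h
    have h8 : (∑ j, if lam j = 0 then 0 else
        Y (b j) * (lam j : B)⁻¹ * (if j = i then (1 : B) else 0)) =
        if lam i = 0 then 0 else Y (b i) * (lam i : B)⁻¹ := by
      rw [Finset.sum_eq_single i]
      · rw [if_pos rfl, mul_one]
      · intro j _ hj
        rw [if_neg hj, mul_zero, ite_self]
      · intro h; exact absurd (Finset.mem_univ _) h
    rw [h6'] at h6
    rw [h8] at h7
    simp only [mul_assoc] at h3 h4 h5 h6 h7 ⊢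
    rw [map_sub, map_sub, h3, h4]
    by_cases hi : lam i = 0
    · rw [if_pos hi] at h6 h7 ⊢
      linear_combination (∑ i, (((lam i).toNat : ℕ) : B) * (Y (b i) * (lam i : B)⁻¹)) * h6 +
        (∑ j, (((-lam j).toNat : ℕ) : B) *
          ((if j = i then (1 : B) else 0) * (lam j : B)⁻¹)) * h5 - h7
    · rw [if_neg hi] at h6 h7 ⊢
      linear_combination (∑ i, (((lam i).toNat : ℕ) : B) * (Y (b i) * (lam i : B)⁻¹)) * h6 +
        (∑ j, (((-lam j).toNat : ℕ) : B) *
          ((if j = i then (1 : B) else 0) * (lam j : B)⁻¹)) * h5 - h7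
  · rw [hprod]
    refine Finset.prod_eq_one fun i _ => ?_
    rw [ha, zero_mul, zero_mul, add_zero, one_pow]
  · intro l hl
    have h3 : ∀ s : Finset (Fin R), ∃ q, ∏ i ∈ s, (1 + X a * ya (p := p) lam b i) ^ (-lam i).toNat =
        1 + X a * q := by
      intro s
      refine Finset.induction_on s ⟨0, by simp⟩ fun i s hi ih => ?_
      obtain ⟨q, hq⟩ := ih
      rw [Finset.prod_insert hi, hq]
      have h4 : ∀ n : ℕ, ∃ q', (1 + X a * ya (p := p) lam b i) ^ n = 1 + X a * q' := by
        intro n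
        induction n with
        | zero => exact ⟨0, by simp⟩
        | succ n ih' =>
          obtain ⟨q', hq'⟩ := ih'
          exact ⟨q' + ya lam b i + X a * q' * ya lam b i, by rw [pow_succ, hq']; ring⟩
      obtain ⟨q', hq'⟩ := h4 (-lam i).toNat
      exact ⟨q + q' + X a * q' * q, by rw [hq']; ring⟩
    obtain ⟨q, hq⟩ := h3 Finset.univ
    rw [hq, map_add, Derivation.leibniz, pderiv_X, Pi.single_eq_of_ne (Ne.symm hl), smul_zero,
      add_zero, smul_eq_mul, ← MvPolynomial.C_1, pderiv_C, zero_add, map_mul, aeval_X, ha, zero_mul]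

end Circuit

section Field

variable {B : Type} [Field B] {R : ℕ}

theorem prod_zpow_const (x : B) (hx : x ≠ 0) (e : Fin R → ℤ) : ∏ i, x ^ e i = x ^ ∑ i, e i := by
  classical
  refine Finset.induction_on (Finset.univ : Finset (Fin R)) (by simp) fun μ s hμ ih => ?_
  rw [Finset.prod_insert hμ, Finset.sum_insert hμ, ih, zpow_add₀ hx]

/-- The value of the circuit monomial. -/
theorem mon_circuit (lam : Fin (R + 1) → ℤ) (ζ : Fin (R + 1) → B) (u : Fin R → B)
    (hl0 : (lam 0 : B) ≠ 0) (h0 : ζ 0 ≠ 0)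
    (hu : ∀ i, lam (Fin.succ i) ≠ 0 → u i ≠ 0) (hs : ∑ i, lam i = 0)
    (h : ∀ i, lam (Fin.succ i) ≠ 0 → (lam 0 : B) * ζ i.succ = ζ 0 * (lam i.succ * u i)) :
    (∏ i, ζ i ^ lam i) * ∏ i, u i ^ (-lam i.succ).toNat = (∏ i, (lam i : B) ^ lam i) *
      ∏ i, u i ^ (lam i.succ).toNat := by
  have h1 : ∀ i : Fin R, ζ i.succ ^ lam i.succ = (ζ 0 ^ lam i.succ / (lam 0 : B) ^ lam i.succ) *
      ((lam i.succ : B) ^ lam i.succ * u i ^ lam i.succ) := by
    intro i
    by_cases hi : lam i.succ = 0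
    · rw [hi, zpow_zero, zpow_zero, zpow_zero, zpow_zero, zpow_zero, div_one, mul_one, mul_one]
    have h2 : ζ i.succ = ζ 0 / lam 0 * (lam i.succ * u i) := by
      have h3 := h i hi
      field_simp
      linear_combination h3
    rw [h2, mul_zpow, mul_zpow, div_zpow]
  have h2 : ∀ i : Fin R, u i ^ lam i.succ * u i ^ (-lam i.succ).toNat =
      u i ^ (lam i.succ).toNat := by
    intro i
    by_cases hi : lam i.succ = 0
    · rw [hi, zpow_zero, neg_zero]
      show 1 * u i ^ 0 = u i ^ 0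
      rw [one_mul]
    rw [← zpow_natCast, ← zpow_natCast, ← zpow_add₀ (hu i hi)]
    congr 1
    omega
  have hs' : ∑ i : Fin R, lam i.succ = -lam 0 := by
    have := hs
    rw [Fin.sum_univ_succ] at this
    linarith
  rw [Fin.prod_univ_succ, Fin.prod_univ_succ, Finset.prod_congr rfl fun i _ => h1 i,
    Finset.prod_mul_distrib, Finset.prod_mul_distrib, Finset.prod_div_distrib,
    prod_zpow_const _ h0, prod_zpow_const _ hl0, hs']
  rw [← Finset.prod_congr rfl fun i _ => h2 i, Finset.prod_mul_distrib]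
  rw [zpow_neg, zpow_neg]
  have h3 := zpow_ne_zero (lam 0) h0
  have h4 := zpow_ne_zero (lam 0) hl0
  field_simp

/-- The criterion for the last block, in the first case. -/
theorem crit (lam : Fin (R + 1) → B) (hl : lam 0 ≠ 0) (hs : ∑ i, lam i = 0)
    (i0 : Fin R) (y : Fin R → B) (hy : ∑ i, y i = 0) (hy0 : y i0 = 1) (a b c E : B)
    (h1 : c * ∑ i, y i ^ 2 * (lam (Fin.succ i))⁻¹ = 0)
    (h2 : ∀ i, (lam (Fin.succ i) = 0 ∧ y i = 0) ∨ (lam (Fin.succ i) ≠ 0 ∧
      a + b * (if i = i0 then 1 else 0) + c * (E - y i * (lam (Fin.succ i))⁻¹) = 0)) :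
    a = 0 ∧ b = 0 ∧ c = 0 := by
  classical
  have hs' : ∑ i : Fin R, lam i.succ = -lam 0 := by
    rw [Fin.sum_univ_succ] at hs
    linear_combination hs
  have hb : b = 0 := by
    have h3 : ∑ i, y i * (a + b * (if i = i0 then 1 else 0) +
        c * (E - y i * (lam (Fin.succ i))⁻¹)) = 0 := by
      refine Finset.sum_eq_zero fun i _ => ?_
      rcases h2 i with ⟨-, h⟩ | ⟨-, h⟩
      · rw [h, zero_mul]
      · rw [h, mul_zero]
    have h4 : ∀ i, y i * (a + b * (if i = i0 then 1 else 0) +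
        c * (E - y i * (lam (Fin.succ i))⁻¹)) = (a + c * E) * y i +
          (b * (if i = i0 then y i else 0) - c * (y i ^ 2 * (lam (Fin.succ i))⁻¹)) := by
      intro i
      split_ifs <;> ring
    rw [Finset.sum_congr rfl fun i _ => h4 i, Finset.sum_add_distrib, Finset.sum_sub_distrib,
      ← Finset.mul_sum, ← Finset.mul_sum, ← Finset.mul_sum, hy, h1,
      Finset.sum_ite_eq' Finset.univ i0, if_pos (Finset.mem_univ _), hy0] at h3
    linear_combination h3
  have h3 : ∀ i, lam (Fin.succ i) * (a + c * E) = c * y i := by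
    intro i
    rcases h2 i with ⟨h4, h5⟩ | ⟨h4, h5⟩
    · rw [h4, h5, zero_mul, mul_zero]
    rw [hb, zero_mul, add_zero] at h5
    field_simp at h5
    linear_combination h5
  have h4 : a + c * E = 0 := by
    have h5 : ∑ i : Fin R, lam (Fin.succ i) * (a + c * E) = ∑ i, c * y i :=
      Finset.sum_congr rfl fun i _ => h3 i
    rw [← Finset.sum_mul, hs', ← Finset.mul_sum, hy, mul_zero] at h5
    rcases mul_eq_zero.mp h5 with h6 | h6
    · exact absurd (neg_eq_zero.mp h6) hl
    · exact h6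
  have hc : c = 0 := by
    have h5 := h3 i0
    rw [h4, mul_zero, hy0, mul_one] at h5
    exact h5.symm
  refine ⟨?_, hb, hc⟩
  rw [hc, zero_mul, add_zero] at h4
  exact h4

/-- The criterion for the last block, in the second case. -/
theorem crit' (lam : Fin (R + 1) → B) (hl : lam 0 ≠ 0) (hs : ∑ i, lam i = 0)
    (i0 : Fin R) (y : Fin R → B) (hy : ∑ i, y i = 0) (hy0 : y i0 = 1) (a b : B)
    (g : Fin R → B) (h1 : ∑ i, g i = 0)
    (hg1 : ∀ i, lam (Fin.succ i) = 0 → g i = (a + b * (if i = i0 then 1 else 0)) * y i)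
    (hg2 : ∀ i, lam (Fin.succ i) ≠ 0 → g i = 0)
    (h2 : ∀ i, lam (Fin.succ i) ≠ 0 → a + b * (if i = i0 then 1 else 0) = 0) :
    a = 0 ∧ b = 0 := by
  classical
  have hb : b = 0 := by
    have h3 : ∑ i, (a + b * (if i = i0 then 1 else 0)) * y i = 0 := by
      refine Eq.trans (Finset.sum_congr rfl fun i _ => ?_) h1
      by_cases hi : lam (Fin.succ i) = 0
      · rw [hg1 i hi]
      · rw [hg2 i hi, h2 i hi, zero_mul]
    have h4 : ∀ i, (a + b * (if i = i0 then 1 else 0)) * y i = a * y i +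
        b * (if i = i0 then y i else 0) := by
      intro i
      split_ifs <;> ring
    rw [Finset.sum_congr rfl fun i _ => h4 i, Finset.sum_add_distrib, ← Finset.mul_sum,
      ← Finset.mul_sum, hy, Finset.sum_ite_eq' Finset.univ i0, if_pos (Finset.mem_univ _),
      hy0] at h3
    linear_combination h3
  refine ⟨?_, hb⟩
  by_contra ha
  have h3 : ∀ i : Fin R, lam i.succ = 0 := by
    intro i
    by_contra hi
    have h4 := h2 i hi
    rw [hb, zero_mul, add_zero] at h4
    exact ha h4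
  rw [Fin.sum_univ_succ, Finset.sum_eq_zero fun i _ => h3 i, add_zero] at hs
  exact hl hs

end Field

end Pool.Agent.H96.ZN
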