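import Pool.Agent.H96.T.Fin

/-!
# The data of a finite field
-/

set_option autoImplicit false
set_option linter.unusedSectionVars false

namespace Pool.Agent.H96.ZN

open MvPolynomial Pool.Agent.H96.VL Pool.Agent.H96.W
open Pool.Agent.H96.S (Va Ndg FL FD)

section Finite

variable {p : ℕ} [Fact p.Prime] {F : Type} [Field F] [Finite F] [CharP F p] [Algebra (ZMod p) F]

theorem val_finite (W : ValuationSubring F) {x : F} (hx : x ≠ 0) : W.valuation x = 1 := by
  have := Fintype.ofFinite F
  have h1 : x ^ (Fintype.card F - 1) = 1 := FiniteField.pow_card_sub_one_eq_one x hx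
  have h2 : W.valuation x ^ (Fintype.card F - 1) = 1 := by rw [← map_pow, h1, map_one]
  have h3 : Fintype.card F - 1 ≠ 0 := by
    have := Fintype.one_lt_card (α := F)
    omega
  exact (pow_eq_one_iff_of_nonneg zero_le h3).mp h2

/-- **The data of a finite field.** -/
theorem exists_fd0 {r : ℕ} (h : Fin r → F) (hh : ∀ c, h c ≠ 0) (M : ℕ) :
    Nonempty (FD p false false F Empty Unit 0 r M 0 h) := by
  classical
  have := Fintype.ofFinite F
  obtain ⟨g, hg⟩ := IsCyclic.exists_generator (α := Fˣ)
  have hgen : ∀ a : F, a ≠ 0 → ∃ e : ℕ, a = (g : F) ^ e := by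
    intro a ha
    obtain ⟨e, he⟩ := (Submonoid.mem_powers_iff _ _).mp
      ((mem_powers_iff_mem_zpowers (x := g)).mpr (hg (Units.mk0 a ha)))
    refine ⟨e, ?_⟩
    rw [← Units.val_pow_eq_pow_val, he, Units.val_mk0]
  set y : Va (r + 1) 0 → F := Sum.elim (Fin.cons (g : F) h) (fun c => c.elim0) with hy
  have hy0 : ∀ s, y s ≠ 0 := by
    rintro (s | s)
    · refine Fin.cases ?_ (fun c => ?_) s
      · exact g.ne_zero
      · exact hh c
    · exact s.elim0
  set q := Fintype.card F with hq
  have hq1 : 1 < q := Fintype.one_lt_card
  have hqc : ((q - 1 : ℕ) : ZMod p) = -1 := by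
    have h1 : ((q : ℕ) : F) = 0 := Nat.cast_card_eq_zero F
    have h2 : p ∣ q := (CharP.cast_eq_zero_iff F p _).mp h1
    have h3 : ((q : ℕ) : ZMod p) = 0 := (ZMod.natCast_eq_zero_iff _ _).mpr h2
    rw [Nat.cast_sub hq1.le, h3, Nat.cast_one, zero_sub]
  exact ⟨{
    c := fun _ => 1
    c0 := fun _ => one_ne_zero
    q := fun _ => 0
    T := fun a => a.elim
    S := ∅
    base := {{1, (g : F)}}
    base0 := fun s hs => by
      rw [Finset.mem_singleton.mp hs]
      exact ⟨1, Finset.mem_insert_self _ _, one_ne_zero⟩
    loc := fun W => ⟨{
      R := ⊤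
      loc := ⟨fun x _ => by
        by_cases hx : x = 0
        · rw [hx, map_zero]; exact zero_le
        · exact (val_finite W hx).le, fun x _ _ => trivial⟩
      fr := fun w => ⟨w, trivial, 1, trivial, one_ne_zero, by rw [div_one]⟩
      j := ()
      n := r + 1
      y := y
      G := fun c => X (Sum.inl c) ^ (q - 1) - 1
      D := ∏ c, X c
      yR := fun s => trivial
      gen := fun w _ => by
        by_cases hw : w = 0
        · exact ⟨0, 1, by rw [map_one, map_one], by rw [hw, map_zero, zero_div]⟩
        · obtain ⟨e, he⟩ := hgen w hw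
          exact ⟨X (Sum.inl 0) ^ e, 1, by rw [map_one, map_one], by
            rw [map_pow, aeval_X, map_one, div_one, he]; rfl⟩
      rel := fun c => by
        rw [map_sub, map_pow, aeval_X, map_one, FiniteField.pow_card_sub_one_eq_one _ (hy0 _),
          sub_self]
      vD := by
        rw [map_prod, map_prod]
        exact Finset.prod_eq_one fun c _ => by rw [aeval_X, val_finite W (hy0 c)]
      ndg := by
        intro κ _ _ x hx a ha k
        have h1 := ha k
        have hxk : x (Sum.inl k) ≠ 0 := by
          intro h2
          apply hx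
          rw [map_prod]
          exact Finset.prod_eq_zero (Finset.mem_univ (Sum.inl k)) (by rw [aeval_X, h2])
        rw [Finset.sum_eq_single k] at h1
        · refine (mul_eq_zero.mp h1).resolve_right ?_
          rw [map_sub, ← C_1, pderiv_C, sub_zero, Derivation.leibniz_pow, pderiv_X, Pi.single_eq_same,
            smul_eq_mul, mul_one, nsmul_eq_mul, map_mul, map_natCast, map_pow, aeval_X]
          refine mul_ne_zero ?_ (pow_ne_zero _ hxk)
          have h3 : ((q - 1 : ℕ) : κ) = algebraMap (ZMod p) κ ((q - 1 : ℕ) : ZMod p) := by
            rw [map_natCast]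
          rw [h3, hqc, map_neg, map_one]
          exact neg_ne_zero.mpr one_ne_zero
        · intro j _ hj
          rw [map_sub, ← C_1, pderiv_C, sub_zero, Derivation.leibniz_pow, pderiv_X,
            Pi.single_eq_of_ne (fun h => hj (Sum.inl_injective h)), smul_zero, smul_zero, map_zero,
            mul_zero]
        · intro h; exact absurd (Finset.mem_univ _) h
      l := fun a => a.elim
      t := fun a => a.elim
      tR := fun a => a.elim
      l0 := fun a => a.elim
      l1 := fun a => a.elim
      linj := fun a => a.elim
      e := fun a => a.elim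
      β := fun a => a.elim
      κ := fun _ a => a.elim
      u := Sum.inl 0
      qv := fun c => Sum.inl c.succ
      act := false
      typ := fun h => absurd h (by decide)
      actb := fun _ => rfl
      pole := fun h => absurd h (by decide)
      e0 := fun _ => funext fun a => a.elim
      cut := fun a => a.elim
      eM := fun a => a.elim
      βM := fun a => a.elim
      κM := fun _ a => a.elim
      eqf := by
        show (0 : F) - 0 ^ p + 0 = 0
        rw [zero_pow (Fact.out : p.Prime).ne_zero, sub_zero, add_zero]
      vq := fun i => val_finite W (hy0 _)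
      eqh := fun i => by
        have h1 : y (Sum.inl i.succ) = h i := rfl
        rw [h1, mon, Finset.univ_eq_empty, Finset.prod_empty, mul_one]
      crat := fun _ => trivial
      gT := fun a => a.elim
      gS := fun h => absurd h (by decide)
      qd := fun h => absurd h (by decide)
      qe := fun _ _ => rfl }, fun s hs => ⟨1, one_ne_zero, fun _ _ => trivial, 1, by
        rw [Finset.mem_singleton.mp hs]
        exact Finset.mem_insert_self _ _, trivial, one_ne_zero⟩, fun R' hR' hs x _ => by
        by_cases hx : x = 0
        · rw [hx]; exact R'.zero_mem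
        · obtain ⟨e, he⟩ := hgen x hx
          obtain ⟨T, hT⟩ := hs {1, (g : F)} (Finset.mem_singleton_self _)
          have h1 := hT.mem 1 (Finset.mem_insert_self _ _)
          have h2 := hT.mem g (Finset.mem_insert_of_mem (Finset.mem_singleton_self _))
          have h3 := hR'.inv _ h1 (val_finite W (div_ne_zero one_ne_zero hT.ne))
          have h4 := R'.mul_mem h2 h3
          have h5 : (g : F) / T * (1 / T)⁻¹ = g := by
            have := hT.ne
            field_simp
          rw [h5] at h4
          rw [he]
          exact R'.pow_mem h4 e⟩ }⟩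

end Finite

end Pool.Agent.H96.ZN
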