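import Pool.Agent.H96.ZN.Fin

/-!
# Hypersurfaces with few monomials over products of curves and surfaces: the general case
-/

set_option autoImplicit false
set_option linter.unusedSectionVars false

namespace Pool.Agent.H96.ZN

open Pool.Agent.H96.X (Fac)
open Pool.Agent.H19.OG (HasCharts)

/-- **Models of fibre products of hypersurfaces with few monomials.** -/
theorem hasCharts_few (p : ℕ) [Fact p.Prime] (k : Type) [Field k] [Finite k] [CharP k p]
    (K : Type) [Field K] [Algebra k K] {n : ℕ}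
    (F : Fin n → IntermediateField k K) (hF : ∀ i, F i = ⊥ ∨ Fac p (F i))
    {B : Type} [Fintype B] [DecidableEq B] (r : B → ℕ) (φ : B → Fin n)
    (z : ∀ b, Fin (r b + 1) → K) (lam : ∀ b, Fin (r b + 1) → ℤ) (hz0 : ∀ b i, z b i ≠ 0)
    (hzs : ∀ b, ∑ i, z b i = 0) (hc : ∀ b, ∏ i, z b i ^ lam b i ∈ F (φ b))
    (hls : ∀ b, ∑ i, lam b i = 0) (hlp : ∀ b i, lam b i = 0 ∨ ¬ (p : ℤ) ∣ lam b i)
    {N : ℕ} (w : Fin N → K) (e : Fin N → ℕ)
    (h : ∀ i, Fin N → F i) (a : Fin N → ∀ b, Fin (r b + 1) → ℤ) (he : ∀ j, ¬ p ∣ e j)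
    (hh : ∀ i j, h i j ≠ 0) (has : ∀ j b, ∑ i, a j b i = 0)
    (hw : ∀ j, w j ^ e j = (∏ i, (h i j : K)) * ∏ b, ∏ i, z b i ^ a j b i)
    (hgen : (⨆ i, F i) ⊔ IntermediateField.adjoin k
      ({x | ∃ b i j, x = z b i / z b j} ∪ Set.range w) = ⊤)
    (htr : ∑ i, Algebra.trdeg k (F i) +
      ((∑ b, (r b - if lam b = 0 then 1 else 2) : ℕ) : Cardinal.{0}) ≤ Algebra.trdeg k K) :
    HasCharts K := by
  classical
  -- the first exponent of every circuit is not zero, after a permutation
  have hσ : ∀ b, ∃ σ : Equiv.Perm (Fin (r b + 1)), lam b = 0 ∨ lam b (σ 0) ≠ 0 := by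
    intro b
    by_cases hb : lam b = 0
    · exact ⟨1, Or.inl hb⟩
    · obtain ⟨i, hi⟩ := Function.ne_iff.mp hb
      exact ⟨Equiv.swap 0 i, Or.inr (by rw [Equiv.swap_apply_left]; exact hi)⟩
  choose σ hσ using hσ
  have hl : ∀ b, (lam b ∘ σ b = 0) ↔ lam b = 0 := by
    intro b
    constructor
    · intro h1
      funext i
      have h2 := congrFun h1 ((σ b).symm i)
      rw [Function.comp_apply, Equiv.apply_symm_apply] at h2
      exact h2
    · intro h1
      rw [h1]
      rfl
  -- the ground field is added to the factors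
  let F' : Option (Fin n) → IntermediateField k K := fun i => i.elim ⊥ F
  let h' : ∀ i, Fin N → F' i := fun i => match i with
    | none => fun _ => 1
    | some i => h i
  refine hasCharts_aux p k K F' (fun i => ?_) r (fun b => some (φ b)) (fun b => z b ∘ σ b)
    (fun b => lam b ∘ σ b) (fun b i => hz0 b _) (fun b => ?_) (fun b => ?_) (fun b => ?_)
    (fun b i => hlp b _) (fun b => ?_) w e h' (fun j b => a j b ∘ σ b) he (fun i j => ?_)
    (fun j b => ?_) (fun j => ?_) ?_ ?_
  · rcases i with _ | i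
    · exact Or.inl rfl
    · exact hF i
  · rw [← hzs b]
    exact Equiv.sum_comp (σ b) (z b)
  · have h1 : ∏ i, (z b ∘ σ b) i ^ (lam b ∘ σ b) i = ∏ i, z b i ^ lam b i :=
      Equiv.prod_comp (σ b) fun i => z b i ^ lam b i
    rw [h1]
    exact hc b
  · rw [← hls b]
    exact Equiv.sum_comp (σ b) (lam b)
  · rcases hσ b with h1 | h1
    · exact Or.inl ((hl b).mpr h1)
    · exact Or.inr h1
  · rcases i with _ | i
    · exact one_ne_zero
    · exact hh i j
  · rw [← has j b]
    exact Equiv.sum_comp (σ b) (a j b)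
  · rw [hw j, Fintype.prod_option]
    have h1 : ((h' none j : F' none) : K) = 1 := rfl
    rw [h1, one_mul]
    congr 1
    refine Finset.prod_congr rfl fun b _ => ?_
    exact (Equiv.prod_comp (σ b) fun i => z b i ^ a j b i).symm
  · rw [← hgen, iSup_option]
    have h1 : F' none = ⊥ := rfl
    rw [h1, bot_sup_eq]
    congr 2
    congr 1
    ext x
    constructor
    · rintro ⟨b, i, j, rfl⟩
      exact ⟨b, σ b i, σ b j, rfl⟩
    · rintro ⟨b, i, j, rfl⟩
      refine ⟨b, (σ b).symm i, (σ b).symm j, ?_⟩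
      rw [Function.comp_apply, Function.comp_apply, Equiv.apply_symm_apply,
        Equiv.apply_symm_apply]
  · refine le_trans (le_of_eq ?_) htr
    rw [Fintype.sum_option]
    have halg : Algebra.IsAlgebraic k (⊥ : IntermediateField k K) :=
      (IntermediateField.botEquiv k K).symm.isAlgebraic
    have h1 : Algebra.trdeg k (F' none) = 0 := by
      show Algebra.trdeg k (⊥ : IntermediateField k K) = 0
      exact _root_.trdeg_eq_zero
    rw [h1, zero_add]
    congr 2
    refine Finset.sum_congr rfl fun b _ => ?_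
    congr 1
    by_cases hb : lam b = 0
    · rw [if_pos hb, if_pos ((hl b).mpr hb)]
    · rw [if_neg hb, if_neg fun h => hb ((hl b).mp h)]

end Pool.Agent.H96.ZN
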