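import Pool.Agent.H96.ZN.GC
import Pool.Agent.H96.ZN.Fd0
import Pool.Agent.H96.X.Fin

/-!
# Hypersurfaces with few monomials over products of curves and surfaces
-/

set_option autoImplicit false
set_option linter.unusedSectionVars false

namespace Pool.Agent.H96.ZN

open Pool.Agent.H96.W
open Pool.Agent.H96.S (FD trdeg_zmod')
open Pool.Agent.H96.T (SS)
open Pool.Agent.H96.X (Fac)
open Pool.Agent.H19.OG (HasCharts)

/-- The data of a factor. -/
theorem exists_fdd {p : ℕ} [Fact p.Prime] {k : Type} [Field k] [Finite k] [CharP k p] {K : Type}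
    [Field K] [Algebra k K] [Algebra (ZMod p) k] (F : IntermediateField k K)
    [Algebra (ZMod p) F] [IsScalarTower (ZMod p) k F] {r : ℕ} (h : Fin r → F)
    (hh : ∀ c, h c ≠ 0) (hF : F = ⊥ ∨ Fac p F) :
    ∃ (A : Type) (_ : Fintype A) (_ : DecidableEq A) (J : Type) (_ : Finite J) (d : ℕ) (on : Bool),
      (d : Cardinal.{0}) = Algebra.trdeg k F ∧
      ∃ M, ∀ M', M ≤ M' → Nonempty (FD p false on F A J d r M' 0 h) := by
  rcases hF with h1 | h1
  · subst h1
    have hcF : CharP (⊥ : IntermediateField k K) p :=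
      charP_of_injective_algebraMap (algebraMap k (⊥ : IntermediateField k K)).injective p
    have hfin : Finite (⊥ : IntermediateField k K) :=
      Finite.of_equiv k (IntermediateField.botEquiv k K).symm.toEquiv
    have halg : Algebra.IsAlgebraic k (⊥ : IntermediateField k K) :=
      (IntermediateField.botEquiv k K).symm.isAlgebraic
    exact ⟨Empty, inferInstance, inferInstance, Unit, inferInstance, 0, false,
      by rw [_root_.trdeg_eq_zero, Nat.cast_zero], 0, fun M' _ => exists_fd0 h hh M'⟩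
  · obtain ⟨A, i1, i2, J, i3, d, on, hd, -, hM⟩ := Pool.Agent.H96.T.exists_fd F false 0 h hh (by
      rcases h1 with h1 | ⟨h1, h2⟩
      · exact Or.inl h1
      · exact Or.inr ⟨h1, h2, fun h => absurd h (by decide)⟩)
    exact ⟨A, i1, i2, J, i3, d, on, hd, hM⟩

section Aux

variable {k K : Type} [Field k] [Field K] [Algebra k K] {I : Type} [DecidableEq I]
  {F : I → IntermediateField k K} {B : Type} {φ : B → I}

/-- The functions attached to the blocks and to the roots. -/
noncomputable def hx {N rh : ℕ} (e : (B ⊕ B) ⊕ Fin N ≃ Fin rh) (c δ : ∀ b, F (φ b))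
    (h : ∀ i, Fin N → F i) (i : I) (s : Fin rh) : F i :=
  match e.symm s with
  | Sum.inl (Sum.inl b) => if hb : φ b = i then hb ▸ c b else 1
  | Sum.inl (Sum.inr b) => if hb : φ b = i then hb ▸ δ b else 1
  | Sum.inr j => h i j

variable {N rh : ℕ} (e : (B ⊕ B) ⊕ Fin N ≃ Fin rh) (c δ : ∀ b, F (φ b)) (h : ∀ i, Fin N → F i)

theorem hx_c (b : B) : hx e c δ h (φ b) (e (Sum.inl (Sum.inl b))) = c b := by
  rw [hx, e.symm_apply_apply]
  exact dif_pos rfl

theorem hx_d (b : B) : hx e c δ h (φ b) (e (Sum.inl (Sum.inr b))) = δ b := by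
  rw [hx, e.symm_apply_apply]
  exact dif_pos rfl

theorem hx_h (i : I) (j : Fin N) : hx e c δ h i (e (Sum.inr j)) = h i j := by
  rw [hx, e.symm_apply_apply]

theorem hx_ne (hc : ∀ b, c b ≠ 0) (hδ : ∀ b, δ b ≠ 0) (hh : ∀ i j, h i j ≠ 0) (i : I)
    (s : Fin rh) : hx e c δ h i s ≠ 0 := by
  obtain ⟨t, rfl⟩ := e.surjective s
  rw [hx, e.symm_apply_apply]
  rcases t with (b | b) | j
  · show (if hb : φ b = i then hb ▸ c b else 1) ≠ 0
    split_ifs with hb
    · subst hb
      exact hc b
    · exact one_ne_zero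
  · show (if hb : φ b = i then hb ▸ δ b else 1) ≠ 0
    split_ifs with hb
    · subst hb
      exact hδ b
    · exact one_ne_zero
  · exact hh i j

end Aux

/-- **Models, if the first exponent of every circuit is not zero.** -/
theorem hasCharts_aux (p : ℕ) [Fact p.Prime] (k : Type) [Field k] [Finite k] [CharP k p]
    (K : Type) [Field K] [Algebra k K] {I : Type} [Fintype I] [DecidableEq I] [Nonempty I]
    (F : I → IntermediateField k K) (hF : ∀ i, F i = ⊥ ∨ Fac p (F i))
    {B : Type} [Fintype B] [DecidableEq B] (r : B → ℕ) (φ : B → I)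
    (z : ∀ b, Fin (r b + 1) → K) (lam : ∀ b, Fin (r b + 1) → ℤ) (hz0 : ∀ b i, z b i ≠ 0)
    (hzs : ∀ b, ∑ i, z b i = 0) (hc : ∀ b, ∏ i, z b i ^ lam b i ∈ F (φ b))
    (hls : ∀ b, ∑ i, lam b i = 0) (hlp : ∀ b i, lam b i = 0 ∨ ¬ (p : ℤ) ∣ lam b i)
    (hl0 : ∀ b, lam b = 0 ∨ lam b 0 ≠ 0) {N : ℕ} (w : Fin N → K) (e : Fin N → ℕ)
    (h : ∀ i, Fin N → F i) (a : Fin N → ∀ b, Fin (r b + 1) → ℤ) (he : ∀ j, ¬ p ∣ e j)
    (hh : ∀ i j, h i j ≠ 0) (has : ∀ j b, ∑ i, a j b i = 0)
    (hw : ∀ j, w j ^ e j = (∏ i, (h i j : K)) * ∏ b, ∏ i, z b i ^ a j b i)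
    (hgen : (⨆ i, F i) ⊔ IntermediateField.adjoin k
      ({x | ∃ b i j, x = z b i / z b j} ∪ Set.range w) = ⊤)
    (htr : ∑ i, Algebra.trdeg k (F i) +
      ((∑ b, (r b - if lam b = 0 then 1 else 2) : ℕ) : Cardinal.{0}) ≤ Algebra.trdeg k K) :
    HasCharts K := by
  classical
  let _ : Algebra (ZMod p) k := ZMod.algebra k p
  have hcF : ∀ i, CharP (F i) p := fun i =>
    charP_of_injective_algebraMap (algebraMap k (F i)).injective p
  have hcK : CharP K p := charP_of_injective_algebraMap (algebraMap k K).injective p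
  let i0 : ∀ i, Algebra (ZMod p) (F i) := fun i => ZMod.algebra (F i) p
  have hst : ∀ i, IsScalarTower (ZMod p) k (F i) := fun i =>
    IsScalarTower.of_algebraMap_eq' (Subsingleton.elim _ _)
  let _ : Algebra (ZMod p) K := ZMod.algebra K p
  have hstK : ∀ i, @IsScalarTower (ZMod p) (F i) K (i0 i).toSMul _ _ := fun i =>
    IsScalarTower.of_algebraMap_eq' (Subsingleton.elim _ _)
  have hstk : IsScalarTower (ZMod p) k K :=
    IsScalarTower.of_algebraMap_eq' (Subsingleton.elim _ _)
  -- the constants of the blocks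
  set c : ∀ b, F (φ b) := fun b => ⟨_, hc b⟩ with hcd
  have hc0 : ∀ b, c b ≠ 0 := by
    intro b hb
    have h1 : ∏ i, z b i ^ lam b i = 0 := congrArg Subtype.val hb
    exact Finset.prod_ne_zero_iff.mpr (fun i _ => zpow_ne_zero _ (hz0 b i)) h1
  have hlK : ∀ b i, lam b i ≠ 0 → (lam b i : K) ≠ 0 := by
    intro b i hi
    rw [Ne, CharP.intCast_eq_zero_iff K p]
    exact (hlp b i).resolve_left hi
  have hlp0 : ∀ b i, (lam b i : K) ^ lam b i ≠ 0 := by
    intro b i
    by_cases hi : lam b i = 0
    · rw [hi, zpow_zero]; exact one_ne_zero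
    · exact zpow_ne_zero _ (hlK b i hi)
  set c₀ : ∀ b, F (φ b) := fun b => ∏ i, (lam b i : F (φ b)) ^ lam b i with hc₀
  have hc₀K : ∀ b, (c₀ b : K) = ∏ i, (lam b i : K) ^ lam b i := by
    intro b
    show algebraMap (F (φ b)) K (∏ i, (lam b i : F (φ b)) ^ lam b i) = _
    rw [map_prod]
    exact Finset.prod_congr rfl fun i _ => by rw [map_zpow₀, map_intCast]
  have hc₀0 : ∀ b, (c₀ b : K) ≠ 0 := by
    intro b
    rw [hc₀K]
    exact Finset.prod_ne_zero_iff.mpr fun i _ => hlp0 b i
  set δ : ∀ b, F (φ b) := fun b => if c b / c₀ b - 1 = 0 then 1 else c b / c₀ b - 1 with hδ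
  have hδ0 : ∀ b, δ b ≠ 0 := by
    intro b
    show (if c b / c₀ b - 1 = 0 then 1 else c b / c₀ b - 1) ≠ 0
    split_ifs with h1
    · exact one_ne_zero
    · exact h1
  obtain ⟨rh, ⟨ee⟩⟩ := Finite.exists_equiv_fin ((B ⊕ B) ⊕ Fin N)
  choose A i1 i2 J i3 d on hd M₀ hM₀ using fun i =>
    exists_fdd (F i) (hx ee c δ h i) (hx_ne ee c δ h hc0 hδ0 hh i) (hF i)
  set M := max (Finset.univ.sup M₀) (∑ b, ∑ i, (lam b i).natAbs +
    ∑ j, ∑ b, ∑ i, (a j b i).natAbs) with hM
  have hfd : ∀ i, Nonempty (FD p false (on i) (F i) (A i) (J i) (d i) rh M 0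
      (hx ee c δ h i)) := fun i =>
    hM₀ i M ((Finset.le_sup (Finset.mem_univ i)).trans (le_max_left _ _))
  have hlM : ∀ b i, |lam b i| ≤ M := by
    intro b i
    rw [Int.abs_eq_natAbs]
    refine Int.ofNat_le.mpr (le_trans ?_ ((Nat.le_add_right _ _).trans (le_max_right _ _)))
    exact (Finset.single_le_sum (f := fun i => (lam b i).natAbs) (fun _ _ => Nat.zero_le _)
      (Finset.mem_univ i)).trans (Finset.single_le_sum (f := fun b => ∑ i, (lam b i).natAbs)
        (fun _ _ => Nat.zero_le _) (Finset.mem_univ b))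
  have haM : ∀ j b i, |a j b i| ≤ M := by
    intro j b i
    rw [Int.abs_eq_natAbs]
    refine Int.ofNat_le.mpr (le_trans ?_ ((Nat.le_add_left _ _).trans (le_max_right _ _)))
    exact ((Finset.single_le_sum (f := fun i => (a j b i).natAbs) (fun _ _ => Nat.zero_le _)
      (Finset.mem_univ i)).trans (Finset.single_le_sum (f := fun b => ∑ i, (a j b i).natAbs)
        (fun _ _ => Nat.zero_le _) (Finset.mem_univ b))).trans
          (Finset.single_le_sum (f := fun j => ∑ b, ∑ i, (a j b i).natAbs)
        (fun _ _ => Nat.zero_le _) (Finset.mem_univ j))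
  have he0 : ∀ j, e j ≠ 0 := fun j h4 => he j (by rw [h4]; exact dvd_zero p)
  have hw0 : ∀ j, w j ≠ 0 := by
    intro j hj
    have h1 := hw j
    have h2 : (∏ i, (h i j : K)) * ∏ b, ∏ i, z b i ^ a j b i ≠ 0 :=
      mul_ne_zero (Finset.prod_ne_zero_iff.mpr fun i _ h3 => hh i j (Subtype.ext h3))
        (Finset.prod_ne_zero_iff.mpr fun b _ => Finset.prod_ne_zero_iff.mpr fun i _ =>
          zpow_ne_zero _ (hz0 b i))
    rw [hj, zero_pow (he0 j)] at h1
    exact h2 h1.symm
  -- the kinds of the blocks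
  have hkd : ∀ b, ∃ kd : Kd p K (F (φ b)) rh (hx ee c δ h (φ b)) (z b) M,
      kd.dim ≤ r b - if lam b = 0 then 1 else 2 := by
    intro b
    by_cases hb : lam b = 0
    · refine ⟨Kd.lin, ?_⟩
      rw [if_pos hb]
      exact le_rfl
    rw [if_neg hb]
    have hb0 : lam b 0 ≠ 0 := (hl0 b).resolve_left hb
    by_cases hs : ∃ i, (lam b 0 : K) * z b i - lam b i * z b 0 ≠ 0
    · refine ⟨Kd.cir {
        lam := lam b
        lam0 := (hlp b 0).resolve_left hb0
        lamp := hlp b
        lams := hls b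
        lamM := hlM b
        ic := ee (Sum.inl (Sum.inl b))
        eqc := by rw [hx_c]; rfl
        dn := !decide (c b / c₀ b - 1 = 0)
        idl := ee (Sum.inl (Sum.inr b))
        eqd := ?_
        sne := hs }, le_rfl⟩
      rw [hx_d, ← hc₀K]
      have h1 : mon (z b) (lam b) = (c b : K) := rfl
      have h2 : (c₀ b : K) ≠ 0 := hc₀0 b
      have h3 : algebraMap (F (φ b)) K (c b / c₀ b - 1) = (c b : K) / c₀ b - 1 := by
        rw [map_sub, map_div₀, map_one]
        rfl
      rw [h1]
      by_cases h4 : c b / c₀ b - 1 = 0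
      · rw [decide_eq_true h4]
        rw [h4, map_zero] at h3
        show (c b : K) = c₀ b * (1 + 0)
        have h5 : (c b : K) / c₀ b = 1 := (sub_eq_zero.mp h3.symm)
        rw [div_eq_one_iff_eq h2] at h5
        rw [add_zero, mul_one]
        exact h5
      · rw [decide_eq_false h4]
        show (c b : K) = c₀ b * (1 + algebraMap (F (φ b)) K
          (if c b / c₀ b - 1 = 0 then 1 else c b / c₀ b - 1))
        rw [if_neg h4, h3, add_sub_cancel, mul_div_cancel₀ _ h2]
    · push Not at hs
      have hb0' : (lam b 0 : K) ≠ 0 := hlK b 0 hb0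
      have hbz : (lam b 0 : ZMod p) ≠ 0 := by
        rw [Ne, ZMod.intCast_zmod_eq_zero_iff_dvd]
        exact (hlp b 0).resolve_left hb0
      have h1 : ∀ i, z b i = algebraMap (ZMod p) K ((lam b i : ZMod p) / lam b 0) * z b 0 := by
        intro i
        have h2 := hs i
        rw [map_div₀, map_intCast, map_intCast]
        field_simp
        linear_combination h2
      refine ⟨Kd.deg (fun i => (lam b i : ZMod p) / lam b 0) (fun i h2 => ?_) h1, Nat.zero_le _⟩
      have h3 := h1 i
      rw [h2, map_zero, zero_mul] at h3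
      exact hz0 b i h3
  choose kd hkd using hkd
  have hmon : ∀ j, mon (fun s : Zx r => z s.1 s.2) (fun s => a j s.1 s.2) =
      ∏ b, ∏ i, z b i ^ a j b i := by
    intro j
    rw [mon, Fintype.prod_sigma]
  let G : GD p K I (fun i => F i) A J d rh B r e (fun j (s : Zx r) => a j s.1 s.2) M :=
    { on := on
      f := fun _ => 0
      h := hx ee c δ h
      fd := fun i => (hfd i).some
      φ := φ
      z := z
      z0 := hz0
      zs := hzs
      kd := kd
      w := w
      w0 := hw0
      Nw0 := he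
      iw := fun j => ee (Sum.inr j)
      KM := fun j => by
        rw [hw, hmon]
        congr 1
        refine Finset.prod_congr rfl fun i _ => ?_
        rw [hx_h]
        rfl
      eM := fun j s => haM j s.1 s.2
      eS := has
      gen := by
        intro R hinv hFR hzR hwR
        let R' : IntermediateField k K :=
          { carrier := R
            mul_mem' := fun ha hb => R.mul_mem ha hb
            one_mem' := R.one_mem
            add_mem' := fun ha hb => R.add_mem ha hb
            zero_mem' := R.zero_mem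
            algebraMap_mem' := fun x => hFR (Classical.arbitrary I)
              (algebraMap k (F (Classical.arbitrary I)) x)
            inv_mem' := by
              intro x hx
              by_cases hx0 : x = 0
              · rw [hx0, inv_zero]; exact R.zero_mem
              · exact hinv x hx hx0 }
        have h1 : (⊤ : IntermediateField k K) ≤ R' := by
          rw [← hgen]
          refine sup_le (iSup_le fun i w hw => hFR i ⟨w, hw⟩) ?_
          rw [IntermediateField.adjoin_le_iff]
          rintro _ (⟨b, i, j, rfl⟩ | ⟨j, rfl⟩)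
          · exact hzR b i j
          · exact hwR j
        rw [eq_top_iff]
        intro x _
        exact h1 (show x ∈ (⊤ : IntermediateField k K) from trivial) }
  refine G.hasCharts ?_
  rw [trdeg_zmod' p k K]
  refine le_trans ?_ htr
  have h1 : ∑ b, (G.kd b).dim ≤ ∑ b, (r b - if lam b = 0 then 1 else 2) :=
    Finset.sum_le_sum fun b _ => hkd b
  have h2 : ((∑ i, d i : ℕ) : Cardinal.{0}) = ∑ i, Algebra.trdeg k (F i) := by
    push_cast
    exact Finset.sum_congr rfl fun i _ => hd i
  rw [Nat.cast_add, h2]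
  gcongr

end Pool.Agent.H96.ZN
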