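import Pool.Agent.H96.ZN.GA
import Pool.Agent.H96.Z.Abs
import Pool.Agent.H96.S.GB

/-!
# The finite sets attached to the global data
-/

set_option autoImplicit false
set_option linter.unusedSectionVars false

namespace Pool.Agent.H96.ZN

open MvPolynomial IsLocalRing Pool.Agent.H96.Reg Pool.Agent.H96.VL Pool.Agent.H96.W
open Pool.Agent.H96.S (Va FL FD cond_t cond_f gen_map mon_map aeval_am)
open scoped Pointwise

variable {p : ℕ} [Fact p.Prime] {K : Type} [Field K] [Algebra (ZMod p) K]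
  {I : Type} [Fintype I] [DecidableEq I] {F : I → Type} [∀ i, Field (F i)]
  [∀ i, Algebra (ZMod p) (F i)] [∀ i, Algebra (F i) K]
  [∀ i, IsScalarTower (ZMod p) (F i) K] {A J : I → Type} [∀ i, Fintype (A i)]
  [∀ i, DecidableEq (A i)] {d : I → ℕ} {rh : ℕ} {B : Type} [Fintype B] [DecidableEq B]
  {R : B → ℕ} {N : ℕ} {Nw : Fin N → ℕ} {ew : Fin N → Zx R → ℤ} {M : ℕ}

namespace GD

variable (G : GD p K I F A J d rh B R Nw ew M)

section Sets

variable [DecidableEq K]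

/-- The set of the twists of a factor. -/
noncomputable def sJ [∀ i, Fintype (J i)] (i : I) : Finset K :=
  Finset.univ.image fun j => algebraMap (F i) K ((G.fd i).c j)

/-- The set of the forms of a block. -/
noncomputable def sz (b : B) : Finset K := Finset.univ.image (G.z b)

/-- The set of the differences of a block. -/
noncomputable def sS (b : B) : Finset K := Finset.univ.image (G.sf b)

/-- The set of a colour. -/
noncomputable def sT (s : Σ i, A i) : Finset K :=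
  ((G.fd s.1).T s.2).image (algebraMap (F s.1) K)

/-- The sets of the coordinates. -/
noncomputable def ss : Ix (Σ i, A i) R N → Finset K :=
  Sum.elim G.sT (Sum.elim (fun s => {G.z s.1 s.2}) (Sum.elim G.sS fun c => {G.w c} *
      ((∏ s, G.sT s ^ M) * ∏ s : Zx R, {G.z s.1 s.2} ^ M)))

/-- The denominators. -/
noncomputable def sL [∀ i, Fintype (J i)] : Ix (Σ i, A i) R N → Finset K :=
  Sum.elim (fun s => G.sJ s.1) (Sum.elim (fun s => G.sz s.1) (Sum.elim G.sz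
    fun _ => (∏ s : Σ i, A i, G.sJ s.1 ^ M) * ∏ s : Zx R, G.sz s.1 ^ M))

/-- The sets which detect the base. -/
noncomputable def base [∀ i, Fintype (J i)] : Finset (Finset K) :=
  (Finset.univ.biUnion fun i => (G.fd i).base.image (fun s => s.image (algebraMap (F i) K))) ∪
    (Finset.univ.image G.sz ∪ (Finset.univ.image G.sS ∪ Finset.univ.image fun c =>
      G.ss (Sum.inr (Sum.inr (Sum.inr c))) ∪ G.sL (Sum.inr (Sum.inr (Sum.inr c)))))

end Sets

variable {G} {V : ValuationSubring K}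

/-- The twist of the Kummer coordinates. -/
noncomputable def tw (D : G.Lc V) : K :=
  (∏ s : Σ i, A i, algebraMap (F s.1) K ((G.fd s.1).c (D.fl s.1).j) ^ M) *
    ∏ s : Zx R, G.z s.1 (D.m s.1) ^ M

theorem tw_ne (D : G.Lc V) : tw D ≠ 0 :=
  mul_ne_zero (Finset.prod_ne_zero_iff.mpr fun s _ =>
      pow_ne_zero _ ((map_ne_zero _).mpr ((G.fd s.1).c0 _)))
    (Finset.prod_ne_zero_iff.mpr fun s _ => pow_ne_zero _ (G.z0 _ _))

/-- The twists of the coordinates. -/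
noncomputable def TT (D : G.Lc V) : Ix (Σ i, A i) R N → K :=
  Sum.elim (fun s => algebraMap (F s.1) K ((G.fd s.1).c (D.fl s.1).j))
    (Sum.elim (fun s => G.z s.1 (D.m s.1)) (Sum.elim (fun b => G.z b (D.m b)) fun _ => tw D))

/-- The subring contains the rings of the factors and the normalized elements. -/
structure Bs (D : G.Lc V) (R' : Subring K) : Prop where
  loc : VLocal V R'
  b1 : ∀ i, ∀ w ∈ (D.fl i).R, algebraMap (F i) K w ∈ R'
  bz : ∀ b i, G.z b i / G.z b (D.m b) ∈ R'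
  bs : ∀ b i, G.sf b i / G.sf b (D.i0 b) ∈ R'
  bw : ∀ c, G.w c * (G.toLD D).pt ∈ R'

variable {D : G.Lc V} {R' : Subring K}

theorem sf_div_mem {b : B} (hz : ∀ i, G.z b i / G.z b (D.m b) ∈ R') (i : Fin (R b + 1)) :
    G.sf b i / G.z b (D.m b) ∈ R' := (G.kd b).sf_mem hz i

theorem Bs.τ_mem (h : Bs D R') (α : Ix (Σ i, A i) R N) : (G.toLD D).τ α ∈ R' := by
  rcases α with a | l | b | c
  · exact h.b1 _ _ ((D.fl a.1).tR a.2)
  · exact h.bz _ _
  · exact sf_div_mem (h.bz b) (D.i0 b)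
  · exact h.bw c

theorem Bs.y_mem (h : Bs D R') (s : (Σ i, Fin (D.fl i).n) ⊕ (Σ i, Fin (d i))) :
    (G.toLD D).y s ∈ R' := by
  rcases s with s | s
  · exact h.b1 _ _ ((D.fl s.1).yR _)
  · exact h.b1 _ _ ((D.fl s.1).yR _)

theorem bs_self (D : G.Lc V) : Bs D V.toSubring where
  loc := ⟨fun x hx => (V.valuation_le_one_iff x).mpr hx, fun x hx h1 => by
    have h2 : V.valuation x⁻¹ = 1 := by rw [map_inv₀, h1, inv_one]
    exact (V.valuation_le_one_iff _).mp h2.le⟩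
  b1 := fun i w hw => (V.valuation_le_one_iff _).mp (wv_le_one.mp ((D.fl i).loc.le _ hw))
  bz := fun b l => (V.valuation_le_one_iff _).mp ((G.toLD D).vζ b l)
  bs := fun b l => (V.valuation_le_one_iff _).mp (by
    rw [map_div₀]
    exact div_le_one_of_le₀ (D.maxs b l) zero_le)
  bw := fun c => (V.valuation_le_one_iff _).mp ((G.toLD D).vτw c)

section Gens

variable [DecidableEq K]

theorem gen_sz {b : B} (h : ∀ i, G.z b i / G.z b (D.m b) ∈ R') :
    Gen R' (G.sz b) (G.z b (D.m b)) := by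
  refine ⟨G.z0 _ _, fun g hg => ?_, _, Finset.mem_image_of_mem _ (Finset.mem_univ (D.m b)),
    by rw [div_self (G.z0 _ _)]; exact R'.one_mem, G.z0 _ _⟩
  obtain ⟨l, -, rfl⟩ := Finset.mem_image.mp hg
  exact h l

theorem gen_sS {b : B} (h : ∀ i, G.sf b i / G.sf b (D.i0 b) ∈ R') :
    Gen R' (G.sS b) (G.sf b (D.i0 b)) := by
  refine ⟨D.s0 b, fun g hg => ?_, _, Finset.mem_image_of_mem _ (Finset.mem_univ (D.i0 b)),
    by rw [div_self (D.s0 b)]; exact R'.one_mem, D.s0 b⟩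
  obtain ⟨l, -, rfl⟩ := Finset.mem_image.mp hg
  exact h l

theorem gen_sJ [∀ i, Fintype (J i)] {i : I} (b1 : ∀ w ∈ (D.fl i).R, algebraMap (F i) K w ∈ R') :
    Gen R' (G.sJ i) (algebraMap (F i) K ((G.fd i).c (D.fl i).j)) := by
  have h0 : algebraMap (F i) K ((G.fd i).c (D.fl i).j) ≠ 0 :=
    (map_ne_zero _).mpr ((G.fd i).c0 _)
  refine ⟨h0, fun g hg => ?_, _, Finset.mem_image_of_mem _ (Finset.mem_univ (D.fl i).j),
    by rw [div_self h0]; exact R'.one_mem, h0⟩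
  obtain ⟨l, -, rfl⟩ := Finset.mem_image.mp hg
  rw [← map_div₀]
  exact b1 _ ((D.fl i).crat l)

theorem gen_sT {s : Σ i, A i} (b1 : ∀ w ∈ (D.fl s.1).R, algebraMap (F s.1) K w ∈ R') :
    Gen R' (G.sT s) (algebraMap (F s.1) K ((D.fl s.1).t s.2) *
      algebraMap (F s.1) K ((G.fd s.1).c (D.fl s.1).j)) := by
  have h1 := gen_map b1 ((D.fl s.1).gT s.2)
  rwa [map_mul] at h1

theorem gen_ss_w (b1 : ∀ i, ∀ w ∈ (D.fl i).R, algebraMap (F i) K w ∈ R') (c : Fin N) :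
    Gen R' (G.ss (Sum.inr (Sum.inr (Sum.inr c)))) (tw D * (G.w c * (G.toLD D).pt)) := by
  have h1 := (Gen.singleton (R := R') (G.w0 c)).mul
    ((Gen.prod (R := R') Finset.univ (s := fun s => G.sT s ^ M)
      (T := fun s => (algebraMap (F s.1) K ((D.fl s.1).t s.2) *
        algebraMap (F s.1) K ((G.fd s.1).c (D.fl s.1).j)) ^ M)
      fun s _ => (gen_sT (b1 s.1)).pow M).mul (Gen.prod (R := R') Finset.univ
        (s := fun s : Zx R => ({G.z s.1 s.2} : Finset K) ^ M) (T := fun s => G.z s.1 s.2 ^ M)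
        fun s _ => (Gen.singleton (G.z0 s.1 s.2)).pow M))
  have h3 : ∏ s : Zx R, G.z s.1 s.2 ^ M = (∏ s : Zx R, G.z s.1 (D.m s.1) ^ M) *
      mon (G.toLD D).zt fun _ => (M : ℤ) := by
    rw [mon, ← Finset.prod_mul_distrib]
    refine Finset.prod_congr rfl fun s _ => ?_
    have h5 : (G.toLD D).zt s = G.z s.1 s.2 / G.z s.1 (D.m s.1) := rfl
    rw [h5, zpow_natCast, ← mul_pow, mul_div_cancel₀ _ (G.z0 _ _)]
  have h4 : ∏ s : Σ i, A i, (algebraMap (F s.1) K ((D.fl s.1).t s.2) *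
        algebraMap (F s.1) K ((G.fd s.1).c (D.fl s.1).j)) ^ M =
      (∏ s : Σ i, A i, algebraMap (F s.1) K ((G.fd s.1).c (D.fl s.1).j) ^ M) *
        mon (G.toLD D).t fun _ => (M : ℤ) := by
    rw [mon, ← Finset.prod_mul_distrib]
    refine Finset.prod_congr rfl fun s _ => ?_
    have h5 : (G.toLD D).t s = algebraMap (F s.1) K ((D.fl s.1).t s.2) := rfl
    rw [h5, zpow_natCast, mul_pow, mul_comm]
  have h2 : G.w c * ((∏ s : Σ i, A i, (algebraMap (F s.1) K ((D.fl s.1).t s.2) *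
        algebraMap (F s.1) K ((G.fd s.1).c (D.fl s.1).j)) ^ M) *
      ∏ s : Zx R, G.z s.1 s.2 ^ M) = tw D * (G.w c * (G.toLD D).pt) := by
    rw [h3, h4, tw, LD.pt]; ring
  rw [h2] at h1
  exact h1

variable [∀ i, Fintype (J i)]

theorem gen_sL_w (b1 : ∀ i, ∀ w ∈ (D.fl i).R, algebraMap (F i) K w ∈ R')
    (h : ∀ b i, G.z b i / G.z b (D.m b) ∈ R') (c : Fin N) :
    Gen R' (G.sL (Sum.inr (Sum.inr (Sum.inr c)))) (tw D) :=
  (Gen.prod (R := R') Finset.univ (s := fun s : Σ i, A i => G.sJ s.1 ^ M)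
    (T := fun s => algebraMap (F s.1) K ((G.fd s.1).c (D.fl s.1).j) ^ M)
    fun s _ => (gen_sJ (b1 s.1)).pow M).mul
  (Gen.prod (R := R') Finset.univ (s := fun s : Zx R => G.sz s.1 ^ M)
    (T := fun s => G.z s.1 (D.m s.1) ^ M) fun s _ => (gen_sz (h s.1)).pow M)

theorem Bs.gen_ss (h : Bs D R') (α : Ix (Σ i, A i) R N) :
    Gen R' (G.ss α) (TT D α * (G.toLD D).τ α) := by
  rcases α with a | s | b | c
  · have h1 := gen_sT (s := a) (h.b1 a.1)
    rw [mul_comm] at h1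
    exact h1
  · show Gen R' {G.z s.1 s.2} (G.z s.1 (D.m s.1) * (G.z s.1 s.2 / G.z s.1 (D.m s.1)))
    rw [mul_div_cancel₀ _ (G.z0 _ _)]
    exact Gen.singleton (G.z0 _ _)
  · show Gen R' (G.sS b) (G.z b (D.m b) * (G.sf b (D.i0 b) / G.z b (D.m b)))
    rw [mul_div_cancel₀ _ (G.z0 _ _)]
    exact gen_sS (h.bs b)
  · exact gen_ss_w h.b1 c

theorem Bs.gen_sL (h : Bs D R') (α : Ix (Σ i, A i) R N) : Gen R' (G.sL α) (TT D α) := by
  rcases α with a | s | b | c
  · exact gen_sJ (h.b1 a.1)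
  · exact gen_sz (h.bz s.1)
  · exact gen_sz (h.bz b)
  · exact gen_sL_w h.b1 h.bz c

theorem mem_base {s : Finset K} : s ∈ G.base ↔
    (∃ i, ∃ s' ∈ (G.fd i).base, s'.image (algebraMap (F i) K) = s) ∨ (∃ b, G.sz b = s) ∨
      (∃ b, G.sS b = s) ∨ ∃ c, G.ss (Sum.inr (Sum.inr (Sum.inr c))) ∪
        G.sL (Sum.inr (Sum.inr (Sum.inr c))) = s := by
  simp only [base, Finset.mem_union, Finset.mem_biUnion, Finset.mem_univ, true_and,
    Finset.mem_image]

theorem Bs.prin (h : Bs D R') (hp : ∀ i, ∀ s ∈ (G.fd i).base, Prin (D.fl i).R s) (s : Finset K)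
    (hs : s ∈ G.base) : Prin R' s := by
  rcases mem_base.mp hs with ⟨i, s', hs', rfl⟩ | ⟨b, rfl⟩ | ⟨b, rfl⟩ | ⟨c, rfl⟩
  · obtain ⟨T, hT⟩ := hp i s' hs'
    exact ⟨_, gen_map (h.b1 i) hT⟩
  · exact ⟨_, gen_sz (h.bz b)⟩
  · exact ⟨_, gen_sS (h.bs b)⟩
  · refine (h.gen_ss (Sum.inr (Sum.inr (Sum.inr c)))).prin_union
      (h.gen_sL (Sum.inr (Sum.inr (Sum.inr c)))) (Or.inl ?_)
    have h0 : TT D (Sum.inr (Sum.inr (Sum.inr c))) ≠ 0 := tw_ne D
    rw [mul_div_cancel_left₀ _ h0]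
    exact h.bw c

/-- Detection. -/
theorem bs_of_prin (D : G.Lc V) (hR : VLocal V R')
    (hmin : ∀ i, ∀ R₁ : Subring (F i), VLocal (WV V (F i)) R₁ →
      (∀ s ∈ (G.fd i).base, Prin R₁ s) → (D.fl i).R ≤ R₁)
    (hs : ∀ s ∈ G.base, Prin R' s) : Bs D R' := by
  classical
  have b1 : ∀ i, ∀ w ∈ (D.fl i).R, algebraMap (F i) K w ∈ R' := fun i w hw =>
    hmin i (R'.comap (algebraMap (F i) K)) (vlocal_comap hR) (fun s hs' => prin_comap
      (hs _ (mem_base.mpr (Or.inl ⟨i, s, hs', rfl⟩)))) hw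
  have bz : ∀ b i, G.z b i / G.z b (D.m b) ∈ R' := by
    intro b
    obtain ⟨T, hT⟩ := hs (G.sz b) (mem_base.mpr (Or.inr (Or.inl ⟨b, rfl⟩)))
    have h1 : Gen R' (G.sz b) (G.z b (D.m b)) := hT.of_max hR
      (Finset.mem_image_of_mem _ (Finset.mem_univ (D.m b))) fun g hg => by
        obtain ⟨l, -, rfl⟩ := Finset.mem_image.mp hg
        exact D.maxz b l
    exact fun l => h1.mem _ (Finset.mem_image_of_mem _ (Finset.mem_univ l))
  have bs : ∀ b i, G.sf b i / G.sf b (D.i0 b) ∈ R' := by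
    intro b
    obtain ⟨T, hT⟩ := hs (G.sS b) (mem_base.mpr (Or.inr (Or.inr (Or.inl ⟨b, rfl⟩))))
    have h1 : Gen R' (G.sS b) (G.sf b (D.i0 b)) := hT.of_max hR
      (Finset.mem_image_of_mem _ (Finset.mem_univ (D.i0 b))) fun g hg => by
        obtain ⟨l, -, rfl⟩ := Finset.mem_image.mp hg
        exact D.maxs b l
    exact fun l => h1.mem _ (Finset.mem_image_of_mem _ (Finset.mem_univ l))
  refine ⟨hR, b1, bz, bs, fun c => ?_⟩
  have h1 := gen_ss_w (D := D) b1 c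
  have h2 := gen_sL_w (D := D) b1 bz c
  have h3 := tw_ne D
  have h4 := h1.div_mem_of_prin hR h2
    (u := G.ss (Sum.inr (Sum.inr (Sum.inr c))) ∪ G.sL (Sum.inr (Sum.inr (Sum.inr c))))
    Finset.subset_union_left Finset.subset_union_right (fun g hg => by
      rcases Finset.mem_union.mp hg with hg | hg
      · refine (h1.val_le hR hg).trans ?_
        rw [map_mul]
        exact mul_le_of_le_one_right' ((G.toLD D).vτw c)
      · exact h2.val_le hR hg)
    (hs _ (mem_base.mpr (Or.inr (Or.inr (Or.inr ⟨c, rfl⟩)))))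
  rwa [mul_div_cancel_left₀ _ h3] at h4

/-- The local choices exist. -/
theorem exists_lc (G : GD p K I F A J d rh B R Nw ew M) (V : ValuationSubring K) :
    ∃ D : G.Lc V, (∀ i, ∀ s ∈ (G.fd i).base, Prin (D.fl i).R s) ∧
      ∀ i, ∀ R₁ : Subring (F i), VLocal (WV V (F i)) R₁ → (∀ s ∈ (G.fd i).base, Prin R₁ s) →
        (D.fl i).R ≤ R₁ := by
  classical
  choose L h1 h2 using fun i => (G.fd i).loc (WV V (F i))
  have hm : ∀ b, ∃ m : Fin (R b + 1), ∀ i, V.valuation (G.z b i) ≤ V.valuation (G.z b m) := by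
    intro b
    obtain ⟨m, -, hm⟩ := Finset.exists_max_image Finset.univ (fun i => V.valuation (G.z b i))
      ⟨0, Finset.mem_univ _⟩
    exact ⟨m, fun i => hm i (Finset.mem_univ _)⟩
  choose m hm using hm
  have hi : ∀ b, ∃ i0 : Fin (R b + 1), (∀ i, V.valuation (G.sf b i) ≤ V.valuation (G.sf b i0)) ∧
      G.sf b i0 ≠ 0 := by
    intro b
    obtain ⟨i1, hi1⟩ := (G.kd b).sne (G.z0 b)
    obtain ⟨i0, -, hi0⟩ := Finset.exists_max_image Finset.univ
      (fun i => V.valuation (G.sf b i)) ⟨i1, Finset.mem_univ _⟩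
    refine ⟨i0, fun i => hi0 i (Finset.mem_univ _), fun h => ?_⟩
    have h3 := hi0 i1 (Finset.mem_univ _)
    rw [h, map_zero] at h3
    exact hi1 ((Valuation.zero_iff _).mp (le_antisymm h3 zero_le))
  choose i0 hi0 hs0 using hi
  exact ⟨⟨L, m, hm, i0, hi0, hs0⟩, h1, h2⟩

theorem base_ne (G : GD p K I F A J d rh B R Nw ew M) (s : Finset K)
    (hs : s ∈ G.base) : ∃ g ∈ s, g ≠ 0 := by
  obtain ⟨D, -, -⟩ := exists_lc G ⊤
  rcases mem_base.mp hs with ⟨i, s', hs', rfl⟩ | ⟨b, rfl⟩ | ⟨b, rfl⟩ | ⟨c, rfl⟩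
  · obtain ⟨g, hg, hg0⟩ := (G.fd i).base0 s' hs'
    exact ⟨_, Finset.mem_image_of_mem _ hg, (map_ne_zero _).mpr hg0⟩
  · exact ⟨_, Finset.mem_image_of_mem _ (Finset.mem_univ (D.m b)), G.z0 _ _⟩
  · exact ⟨_, Finset.mem_image_of_mem _ (Finset.mem_univ (D.i0 b)), D.s0 b⟩
  · obtain ⟨g, hg, -, h0⟩ := (gen_ss_w (bs_self D).b1 c).ex
    exact ⟨g, Finset.mem_union_left _ hg, h0⟩

end Gens

/-- The field of a factor. -/
theorem F_mem (D : G.Lc V) {E : Subring K} (hinv : ∀ x ∈ E, x ≠ 0 → x⁻¹ ∈ E)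
    (h : ∀ i, ∀ w ∈ (D.fl i).R, algebraMap (F i) K w ∈ E) (i : I) (w : F i) :
    algebraMap (F i) K w ∈ E := by
  obtain ⟨a, ha, s, hs, hs0, rfl⟩ := (D.fl i).fr w
  rw [map_div₀, div_eq_mul_inv]
  exact E.mul_mem (h i a ha) (hinv _ (h i s hs) ((map_ne_zero _).mpr hs0))

/-- A subfield which contains the coordinates and the rings of the factors is everything. -/
theorem top_of_mem (D : G.Lc V) {E : Subring K} (hinv : ∀ x ∈ E, x ≠ 0 → x⁻¹ ∈ E)
    (h : ∀ i, ∀ w ∈ (D.fl i).R, algebraMap (F i) K w ∈ E)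
    (hz : ∀ b i, G.z b i / G.z b (D.m b) ∈ E)
    (hw : ∀ c, G.w c * (G.toLD D).pt ∈ E) : E = ⊤ := by
  have hpt : (G.toLD D).pt⁻¹ ∈ E := by
    refine hinv _ (Subring.mul_mem _ (Subring.prod_mem _ fun a _ => ?_)
      (Subring.prod_mem _ fun i _ => ?_)) (G.toLD D).pt_ne_zero
    · show algebraMap (F a.1) K ((D.fl a.1).t a.2) ^ (M : ℤ) ∈ E
      rw [zpow_natCast]
      exact E.pow_mem (h _ _ ((D.fl a.1).tR a.2)) _
    · show (G.z i.1 i.2 / G.z i.1 (D.m i.1)) ^ (M : ℤ) ∈ E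
      rw [zpow_natCast]
      exact E.pow_mem (hz _ _) _
  refine G.gen E hinv (F_mem D hinv h) (fun b i j => ?_) fun c => ?_
  · have h1 := E.mul_mem (hz b i) (hinv _ (hz b j) (div_ne_zero (G.z0 _ _) (G.z0 _ _)))
    have h2 : G.z b i / G.z b (D.m b) * (G.z b j / G.z b (D.m b))⁻¹ = G.z b i / G.z b j := by
      have h3 := G.z0 b (D.m b)
      have h4 := G.z0 b j
      field_simp
    rwa [h2] at h1
  · have h3 := E.mul_mem (hw c) hpt
    rwa [mul_assoc, mul_inv_cancel₀ (G.toLD D).pt_ne_zero, mul_one] at h3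

end GD

end Pool.Agent.H96.ZN
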