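import Pool.Agent.H96.ZN.GB
import Pool.Agent.H96.W2.Reg

/-!
# Models
-/

set_option autoImplicit false
set_option linter.unusedSectionVars false

namespace Pool.Agent.H96.ZN

open MvPolynomial IsLocalRing Pool.Agent.H96.Reg Pool.Agent.H96.VL Pool.Agent.H96.W
open Pool.Agent.H96.Z (cring hasCharts_of_cd CD)
open Pool.Agent.H96.W2 (resK)
open Pool.Agent.H96.W2 (BX mem_BX zero_mem_BX single_mem_BX single_one_mem_BX neg_mem_BX)
open Pool.Agent.H96.S (Va FL FD cond_t cond_f gen_map mon_map aeval_am)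
open scoped Pointwise

variable {p : ℕ} [Fact p.Prime] {K : Type} [Field K] [Algebra (ZMod p) K]
  {I : Type} [Fintype I] [DecidableEq I] {F : I → Type} [∀ i, Field (F i)]
  [∀ i, Algebra (ZMod p) (F i)] [∀ i, Algebra (F i) K]
  [∀ i, IsScalarTower (ZMod p) (F i) K] {A J : I → Type} [∀ i, Fintype (A i)]
  [∀ i, DecidableEq (A i)] {d : I → ℕ} {rh : ℕ} {B : Type} [Fintype B] [DecidableEq B]
  {R : B → ℕ} {N : ℕ} {Nw : Fin N → ℕ} {ew : Fin N → Zx R → ℤ} {M : ℕ}

namespace GD

variable {G : GD p K I F A J d rh B R Nw ew M} {V : ValuationSubring K}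

/-- The ring of the chart. -/
theorem cring_facts (D : G.Lc V) {Y : Θx R → K} (hY : ∀ θ, V.valuation (Y θ) ≤ 1)
    {C : Cone (Ix (Σ i, A i) R N)} (hC : IsCone C)
    (hb : ∀ j, V.valuation (mon (G.toLD D).τ (C.b j)) ≤ 1) :
    VLocal V (cring V (G.toLD D).τ (Sum.elim (G.toLD D).y Y) C) ∧
    (∀ i, ∀ w ∈ (D.fl i).R,
      algebraMap (F i) K w ∈ cring V (G.toLD D).τ (Sum.elim (G.toLD D).y Y) C) ∧
    (∀ α, (G.toLD D).τ α ∈ cring V (G.toLD D).τ (Sum.elim (G.toLD D).y Y) C) ∧
    ∀ θ, Y θ ∈ cring V (G.toLD D).τ (Sum.elim (G.toLD D).y Y) C := by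
  set L := G.toLD D with hL
  set Q := cring V L.τ (Sum.elim L.y Y) C with hQ
  have hR : VLocal V Q := by
    apply vlocal_vloc
    apply adjoin_val_le
    rintro _ ⟨j | l | θ, rfl⟩
    · exact hb j
    · exact L.vy l
    · exact hY θ
  have hbR : ∀ j, mon L.τ (C.b j) ∈ Q := fun j =>
    subset_vloc (Algebra.subset_adjoin ⟨Sum.inl j, rfl⟩)
  have hYR : ∀ l, L.y l ∈ Q := fun l =>
    subset_vloc (Algebra.subset_adjoin ⟨Sum.inr (Sum.inl l), rfl⟩)
  have hk : ∀ c : ZMod p, algebraMap (ZMod p) K c ∈ Q := by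
    intro c
    obtain ⟨n, rfl⟩ := ZMod.intCast_surjective c
    rw [map_intCast]
    exact intCast_mem _ n
  have hpoly : ∀ (i : I) (P : MvPolynomial (Va (D.fl i).n (d i)) (ZMod p)),
      algebraMap (F i) K (aeval (D.fl i).y P) ∈ Q := by
    intro i P
    rw [← aeval_am]
    induction P using MvPolynomial.induction_on with
    | C a => rw [aeval_C]; exact hk a
    | add P Q hP hQ => rw [map_add]; exact Subring.add_mem _ hP hQ
    | mul_X P b hP =>
      rw [map_mul, aeval_X]
      refine Subring.mul_mem _ hP ?_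
      rw [← G.yy_em D i b]
      exact hYR _
  refine ⟨hR, fun i w hw => ?_, fun α => ?_, fun θ =>
    subset_vloc (Algebra.subset_adjoin ⟨Sum.inr (Sum.inr θ), rfl⟩)⟩
  · obtain ⟨a, s, h1, h2⟩ := (D.fl i).gen w hw
    rw [h2, map_div₀]
    exact hR.div_mem (hpoly i a) (hpoly i s) (wv_eq_one.mp h1)
  · rw [← mon_single (τ := L.τ) α]
    refine hC.mem (Q := {u | mon L.τ u ∈ Q}) (fun u hu v hv => ?_) ?_ hbR (fun j => ?_)
    · show mon L.τ (u + v) ∈ Q
      rw [mon_add L.τ_ne_zero]
      exact Subring.mul_mem _ hu hv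
    · show mon L.τ 0 ∈ Q
      rw [mon_zero]; exact Subring.one_mem _
    · rw [dotProduct_single_one]
      exact hC.pos _ _

theorem vYY [Algebra (ZMod p) (ResidueField V)] (D : G.Lc V) (θ : Θx R) :
    V.valuation (G.YY D θ) ≤ 1 :=
  (V.valuation_le_one_iff _).mpr (G.YY_mem D (bs_self D).loc (fun b =>
    (V.valuation_le_one_iff _).mp ((G.toLD D).vσ b))
    (fun b i => (bs_self D).bz b i) (fun b i _ _ => (bs_self D).bs b i) θ)

theorem bs_cring [Algebra (ZMod p) (ResidueField V)] (D : G.Lc V)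
    {C : Cone (Ix (Σ i, A i) R N)} (hC : IsCone C)
    (hb : ∀ j, V.valuation (mon (G.toLD D).τ (C.b j)) ≤ 1) :
    Bs D (cring V (G.toLD D).τ (Sum.elim (G.toLD D).y (G.YY D)) C) := by
  obtain ⟨h1, h2, h3, h4⟩ := cring_facts D (Y := G.YY D) (vYY D) hC hb
  have hz : ∀ b i, G.z b i / G.z b (D.m b) ∈
      cring V (G.toLD D).τ (Sum.elim (G.toLD D).y (G.YY D)) C :=
    fun b i => h3 (Sum.inr (Sum.inl ⟨b, i⟩))
  refine ⟨h1, h2, hz, fun b i => ?_, fun c => h3 (Sum.inr (Sum.inr (Sum.inr c)))⟩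
  -- the case in which `σ` is a unit, or the block is not a circuit
  have h5 : V.valuation ((G.toLD D).σ b) = 1 → G.sf b i / G.sf b (D.i0 b) ∈
      cring V (G.toLD D).τ (Sum.elim (G.toLD D).y (G.YY D)) C := by
    intro hσ
    have h5 := h1.div_mem (sf_div_mem (hz b) i) (h3 (Sum.inr (Sum.inr (Sum.inl b)))) hσ
    have h6 : G.sf b i / G.z b (D.m b) / (G.toLD D).τ (Sum.inr (Sum.inr (Sum.inl b))) =
        G.sf b i / G.sf b (D.i0 b) := by
      show G.sf b i / G.z b (D.m b) / (G.sf b (D.i0 b) / G.z b (D.m b)) = _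
      have h7 := D.s0 b
      have h8 := G.z0 b (D.m b)
      field_simp
    rwa [h6] at h5
  rcases ((G.toLD D).vσ b).lt_or_eq with hσ | hσ
  · by_cases hk : ∃ c, G.kd b = Kd.cir c
    · rcases Fin.eq_zero_or_eq_succ i with h0 | ⟨k, rfl⟩
      · obtain ⟨c, hk⟩ := hk
        have h7 : G.sf b i / G.sf b (D.i0 b) = 0 := by
          rw [h0, G.sf_cir hk]
          ring
        rw [h7]
        exact Subring.zero_mem _
      · have h6 := h4 ⟨b, Sum.inr k⟩
        have h7 : G.YY D ⟨b, Sum.inr k⟩ = G.sf b k.succ / G.sf b (D.i0 b) := if_pos ⟨hk, hσ⟩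
        rwa [h7] at h6
    · refine h5 ?_
      have h6 : ∀ j, G.sf b j = G.z b j := by
        intro j
        rcases hk' : G.kd b with c | ⟨e, e0, he⟩ | _
        · exact absurd ⟨c, hk'⟩ hk
        · exact G.sf_deg hk' j
        · exact G.sf_lin hk' j
      show V.valuation (G.sf b (D.i0 b) / G.z b (D.m b)) = 1
      have h7 := D.maxs b (D.m b)
      have h8 := D.maxz b (D.i0 b)
      rw [h6, h6] at h7
      rw [h6, map_div₀, le_antisymm h8 h7, div_self ((Valuation.ne_zero_iff _).mpr (G.z0 _ _))]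
  · exact h5 hσ

/-- The field is generated by the chart. -/
theorem isAlgebraic_chart (D : G.Lc V) {Y : Θx R → K} {C : Cone (Ix (Σ i, A i) R N)}
    (hC : IsCone C) :
    Algebra.IsAlgebraic (Algebra.adjoin (ZMod p)
      (Set.range (Sum.elim (fun j => mon (G.toLD D).τ (C.b j))
        (Sum.elim (G.toLD D).y Y)))) K := by
  set L := G.toLD D with hL
  set X := Set.range (Sum.elim (fun j => mon L.τ (C.b j)) (Sum.elim L.y Y)) with hX
  set E := (Subfield.closure X) with hE
  have hbR : ∀ j, mon L.τ (C.b j) ∈ E := fun j => Subfield.subset_closure ⟨Sum.inl j, rfl⟩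
  have hYR : ∀ l, L.y l ∈ E := fun l => Subfield.subset_closure ⟨Sum.inr (Sum.inl l), rfl⟩
  have hk : ∀ a : ZMod p, algebraMap (ZMod p) K a ∈ E := by
    intro c
    obtain ⟨n, rfl⟩ := ZMod.intCast_surjective c
    rw [map_intCast]
    exact intCast_mem _ n
  have hpoly : ∀ (i : I) (P : MvPolynomial (Va (D.fl i).n (d i)) (ZMod p)),
      algebraMap (F i) K (aeval (D.fl i).y P) ∈ E := by
    intro i P
    rw [← aeval_am]
    induction P using MvPolynomial.induction_on with
    | C a => rw [aeval_C]; exact hk a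
    | add P Q hP hQ => rw [map_add]; exact E.add_mem hP hQ
    | mul_X P b hP =>
      rw [map_mul, aeval_X]
      refine E.mul_mem hP ?_
      rw [← G.yy_em D i b]
      exact hYR _
  have hF1 : ∀ i, ∀ w ∈ (D.fl i).R, algebraMap (F i) K w ∈ E.toSubring := by
    intro i w hw
    obtain ⟨a, s, -, h2⟩ := (D.fl i).gen w hw
    rw [h2, map_div₀]
    exact E.div_mem (hpoly i a) (hpoly i s)
  have hτ : ∀ α, L.τ α ∈ E.toSubring := by
    intro α
    rw [← mon_single (τ := L.τ) α]
    refine hC.mem (Q := {u | mon L.τ u ∈ E.toSubring}) (fun u hu v hv => ?_) ?_ hbR (fun j => ?_)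
    · show mon L.τ (u + v) ∈ E
      rw [mon_add L.τ_ne_zero]
      exact E.mul_mem hu hv
    · show mon L.τ 0 ∈ E
      rw [mon_zero]; exact E.one_mem
    · rw [dotProduct_single_one]
      exact hC.pos _ _
  have htop := top_of_mem (E := E.toSubring) D (fun x hx _ => E.inv_mem hx) hF1
    (fun b i => hτ (Sum.inr (Sum.inl ⟨b, i⟩))) fun c => hτ (Sum.inr (Sum.inr (Sum.inr c)))
  have hE' : E = ⊤ := by
    rw [eq_top_iff]
    intro x _
    have : x ∈ E.toSubring := by rw [htop]; trivial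
    exact this
  have hcl : Subfield.closure (Algebra.adjoin ℤ X : Set K) = ⊤ := by
    rw [eq_top_iff, ← hE', hE]
    exact Subfield.closure_mono Algebra.subset_adjoin
  have hfr := isFractionRing_of_closure _ hcl
  have halg : Algebra.IsAlgebraic (Algebra.adjoin ℤ X) K :=
    IsLocalization.isAlgebraic K (nonZeroDivisors (Algebra.adjoin ℤ X))
  have hle : ∀ x ∈ Algebra.adjoin ℤ X, x ∈ Algebra.adjoin (ZMod p) X := by
    intro x hx
    exact adjoin_le_of (R := (Algebra.adjoin (ZMod p) X).toSubring)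
      (fun x hx => Algebra.subset_adjoin hx) x hx
  let j : Algebra.adjoin ℤ X →+* Algebra.adjoin (ZMod p) X :=
    { toFun := fun x => ⟨x, hle _ x.2⟩
      map_one' := rfl
      map_mul' := fun _ _ => rfl
      map_zero' := rfl
      map_add' := fun _ _ => rfl }
  let i1 : Algebra (Algebra.adjoin ℤ X) (Algebra.adjoin (ZMod p) X) := j.toAlgebra
  have i2 : IsScalarTower (Algebra.adjoin ℤ X) (Algebra.adjoin (ZMod p) X) K :=
    IsScalarTower.of_algebraMap_eq fun x => rfl
  exact Algebra.IsAlgebraic.extendScalars (R := Algebra.adjoin ℤ X) (fun x y hxy =>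
    Subtype.ext (congrArg (fun z : Algebra.adjoin (ZMod p) X => (z : K)) hxy))

/-- **Models.** -/
theorem hasCharts [∀ i, Finite (J i)] (G : GD p K I F A J d rh B R Nw ew M)
    (htr : ((∑ i, d i + ∑ b, (G.kd b).dim : ℕ) : Cardinal.{0}) ≤ Algebra.trdeg (ZMod p) K) :
    Pool.Agent.H19.OG.HasCharts K := by
  classical
  let _ : ∀ i, Fintype (J i) := fun i => Fintype.ofFinite (J i)
  set M' : ℕ := max 2 (max M (Finset.univ.sup fun c => max (Nw c) (Nw c * M))) with hM'
  refine hasCharts_of_cd (Finset.image₂ (fun u v => u - v) (BX (Ix (Σ i, A i) R N) M')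
    (BX (Ix (Σ i, A i) R N) M')) G.base G.ss G.sL (base_ne G) ?_ ?_
  · intro R' hinv hs
    obtain ⟨D, -, hmin⟩ := exists_lc G ⊤
    have hall : ∀ x : K, (⊤ : ValuationSubring K).valuation x ≤ 1 := fun x =>
      (ValuationSubring.valuation_le_one_iff _ _).mpr trivial
    have hR' : VLocal (⊤ : ValuationSubring K) R' := ⟨fun x _ => hall x, fun x hx h1 =>
      hinv x hx (by
        rintro rfl
        rw [map_zero] at h1
        exact zero_ne_one h1)⟩
    have hb := bs_of_prin D hR' hmin hs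
    exact top_of_mem D hinv hb.b1 hb.bz hb.bw
  · intro V
    obtain ⟨D, hp, hmin⟩ := exists_lc G V
    have hcst : ∀ c : ZMod p, V.valuation (algebraMap (ZMod p) K c) ≤ 1 := by
      intro c
      obtain ⟨n, rfl⟩ := ZMod.intCast_surjective c
      rw [map_intCast]
      exact (V.valuation_le_one_iff _).mpr (intCast_mem _ n)
    let _ : Algebra (ZMod p) (ResidueField V) := (resK (ZMod p) V hcst).toAlgebra
    have hCx : ∀ C : Cone (Ix (Σ i, A i) R N), IsCone C →
        (∀ j, V.valuation (mon (G.toLD D).τ (C.b j)) ≤ 1) →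
        (∀ w ∈ Finset.image₂ (fun u v => u - v) (BX (Ix (Σ i, A i) R N) M')
          (BX (Ix (Σ i, A i) R N) M'), Sgn C w) →
        Cx (G.toLD D) M' C := fun C hC hb hW =>
      ⟨hC, hb, fun u hu u' hu' => hW _ (Finset.mem_image₂_of_mem hu hu'), le_max_left _ _,
          (le_max_left _ _).trans (le_max_right _ _), fun c => by
            have h1 : max (Nw c) (Nw c * M) ≤ M' := ((Finset.le_sup
              (f := fun c => max (Nw c) (Nw c * M)) (Finset.mem_univ c)).trans
              (le_max_right _ _)).trans (le_max_right _ _)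
            exact ⟨(le_max_left _ _).trans h1, (le_max_right _ _).trans h1⟩⟩
    have htr' : ((Fintype.card (Σ i, Fin (d i)) + ∑ b, (G.kd b).dim : ℕ) : Cardinal.{0}) ≤
        Algebra.trdeg (ZMod p) K := by
      rw [Fintype.card_sigma]
      simp only [Fintype.card_fin]
      exact htr
    exact ⟨((Σ i, Fin (D.fl i).n) ⊕ (Σ i, Fin (d i))) ⊕ Θx R, ⟨{
      τ := (G.toLD D).τ
      T := TT D
      Y := Sum.elim (G.toLD D).y (G.YY D)
      Bs := Bs D
      τ0 := (G.toLD D).τ_ne_zero
      vτ := (G.toLD D).vτ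
      loc := fun _ h => h.loc
      gs := fun _ h => h.gen_ss
      gL := fun _ h => h.gen_sL
      mτ := fun _ h => h.τ_mem
      mY := fun _ h l => by
        rcases l with l | θ
        · exact h.y_mem l
        · exact G.YY_mem D h.loc (fun b => h.τ_mem (Sum.inr (Sum.inr (Sum.inl b))))
            h.bz (fun b i _ _ => h.bs b i) θ
      pb := fun _ h => h.prin hp
      det := fun R hR hs => bs_of_prin D hR hmin hs
      self := bs_self D
      ch := fun C hC hb hW => ⟨bs_cring D hC hb, isRegular_local (hCx C hC hb hW) (vYY D)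
        (fun b => (G.kd b).dim) (G.good D (le_max_left _ _)
          ((le_max_left _ _).trans (le_max_right _ _)))
        (isAlgebraic_chart D hC) htr'⟩ }⟩⟩

end GD

end Pool.Agent.H96.ZN
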