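import Pool.Agent.H96.Z.LE
import Pool.Agent.H96.ZN.Alg

/-!
# The local data at a valuation
-/

set_option autoImplicit false
set_option linter.unusedSectionVars false

namespace Pool.Agent.H96.ZN

open MvPolynomial IsLocalRing Pool.Agent.H96.Reg Pool.Agent.H96.VL Pool.Agent.H96.W
open Pool.Agent.H96.Z (mon_zero' abs_single abs_zero_le abs_fz_le)
open Pool.Agent.H96.W2 (BX mem_BX zero_mem_BX single_mem_BX single_one_mem_BX neg_mem_BX)
open Pool.Agent.H96.S (cond_t cond_f zc0 zc_ne resv_aevalp sum_single_eq sum_zero_eq)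

/-- The index set of the forms. -/
abbrev Zx {B : Type} (R : B → ℕ) : Type := Σ b, Fin (R b + 1)

/-- Nondegeneracy of a system of polynomials. -/
def Ndg {p : ℕ} {I Dd Nn : Type} [Fintype Nn] (G : Nn → MvPolynomial (Nn ⊕ Dd) (ZMod p))
    (D : I → MvPolynomial (Nn ⊕ Dd) (ZMod p)) : Prop :=
  ∀ (κ : Type) [Field κ] [Algebra (ZMod p) κ] (x : Nn ⊕ Dd → κ), (∀ i, aeval x (D i) ≠ 0) →
    ∀ a : Nn → κ, (∀ j : Nn, ∑ k, a k * aeval x (pderiv (Sum.inl j) (G k)) = 0) → ∀ k, a k = 0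

/-- The local data at `V`. -/
structure LD (p : ℕ) {K : Type} [Field K] [Algebra (ZMod p) K] (V : ValuationSubring K)
    (A I Dd Nn B : Type) [Fintype A] [DecidableEq A] [Fintype Nn] [Fintype B] [DecidableEq B]
    (R : B → ℕ) {N : ℕ} (Nw : Fin N → ℕ) (ew : Fin N → Zx R → ℤ) (M : ℕ) where
  y : Nn ⊕ Dd → K
  G : Nn → MvPolynomial (Nn ⊕ Dd) (ZMod p)
  D : I → MvPolynomial (Nn ⊕ Dd) (ZMod p)
  l : A → Option Dd
  t : A → K
  vy : ∀ s, V.valuation (y s) ≤ 1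
  rel : ∀ j, aeval y (G j) = 0
  vD : ∀ i, V.valuation (aeval y (D i)) = 1
  ndg : Ndg G D
  l0 : ∀ a, l a = none → t a = 1
  l1 : ∀ a c, l a = some c → V.valuation (t a) < 1 ∧ t a ≠ 0 ∧ y (Sum.inr c) = t a
  linj : ∀ a a' c, l a = some c → l a' = some c → a = a'
  ζ : ∀ b, Fin (R b + 1) → K
  ζ0 : ∀ b i, ζ b i ≠ 0
  vζ : ∀ b i, V.valuation (ζ b i) ≤ 1
  m : ∀ b, Fin (R b + 1)
  ζm : ∀ b, ζ b (m b) = 1
  ζs : ∀ b, ∑ i, ζ b i = 0
  σ : B → K
  σ0 : ∀ b, σ b ≠ 0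
  vσ : ∀ b, V.valuation (σ b) ≤ 1
  w : Fin N → K
  w0 : ∀ c, w c ≠ 0
  Nw0 : ∀ c, ¬ p ∣ Nw c
  pw : Fin N → MvPolynomial (Nn ⊕ Dd) (ZMod p)
  κw : Fin N → A → ℤ
  vpw : ∀ c, V.valuation (aeval y (pw c)) = 1
  κwM : ∀ c a, |κw c a| ≤ M
  KM : ∀ c, w c ^ Nw c = aeval y (pw c) * mon t (κw c) *
    mon (fun s : Zx R => ζ s.1 s.2) (ew c)
  eM : ∀ c i, |ew c i| ≤ M

/-- The index set of the coordinates. -/
abbrev Ix (A : Type) {B : Type} (R : B → ℕ) (N : ℕ) : Type := A ⊕ (Zx R ⊕ (B ⊕ Fin N))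

/-- The exponents. -/
def EV {A B : Type} {R : B → ℕ} {N : ℕ} (e1 : A → ℤ) (e2 : Zx R → ℤ) (e3 : B → ℤ)
    (e4 : Fin N → ℤ) : Ix A R N → ℤ := Sum.elim e1 (Sum.elim e2 (Sum.elim e3 e4))

section EV

variable {A B : Type} {R : B → ℕ} {N : ℕ} [Fintype A] [DecidableEq A] [Fintype B] [DecidableEq B]
  (e1 : A → ℤ) (e2 : Zx R → ℤ) (e3 : B → ℤ) (e4 : Fin N → ℤ)

theorem EV_a (a : A) : EV e1 e2 e3 e4 (Sum.inl a) = e1 a := rfl

theorem EV_z (i : Zx R) : EV e1 e2 e3 e4 (Sum.inr (Sum.inl i)) = e2 i := rfl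

theorem EV_s (b : B) : EV e1 e2 e3 e4 (Sum.inr (Sum.inr (Sum.inl b))) = e3 b := rfl

theorem EV_w (c : Fin N) : EV e1 e2 e3 e4 (Sum.inr (Sum.inr (Sum.inr c))) = e4 c := rfl

variable {e1 e2 e3 e4} in
theorem EV_mem {M' : ℕ} (h1 : ∀ a, |e1 a| ≤ M') (h2 : ∀ i, |e2 i| ≤ M') (h3 : ∀ b, |e3 b| ≤ M')
    (h4 : ∀ c, |e4 c| ≤ M') : EV e1 e2 e3 e4 ∈ BX (Ix A R N) M' := by
  rw [mem_BX]
  rintro (a | i | c | c)
  exacts [h1 a, h2 i, h3 c, h4 c]

/-- The inclusion of a block. -/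
def mk (R : B → ℕ) (b : B) (i : Fin (R b + 1)) : Zx R := ⟨b, i⟩

/-- A function on one block, extended by zero. -/
noncomputable def xt {β : Type} [Zero β] (b : B) (e : Fin (R b + 1) → β) : Zx R → β :=
  Function.extend (mk R b) e 0

theorem mk_inj (b : B) : Function.Injective (mk R b) := by
  intro i j h
  simpa [mk] using h

theorem xt_self {β : Type} [Zero β] (b : B) (e : Fin (R b + 1) → β) (i : Fin (R b + 1)) :
    xt b e ⟨b, i⟩ = e i := (mk_inj b).extend_apply e 0 i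

theorem xt_ne {β : Type} [Zero β] {b b' : B} (h : b' ≠ b) (e : Fin (R b + 1) → β)
    (i : Fin (R b' + 1)) : xt b e ⟨b', i⟩ = 0 := by
  rw [xt, Function.extend_apply']
  · rfl
  · rintro ⟨j, hj⟩
    exact h (congrArg Sigma.fst hj).symm

theorem mon_xt {K : Type} [Field K] (ζ : ∀ b, Fin (R b + 1) → K) (b : B)
    (e : Fin (R b + 1) → ℤ) :
    mon (fun s : Zx R => ζ s.1 s.2) (xt b e) = mon (ζ b) e := by
  rw [mon, Fintype.prod_sigma, Finset.prod_eq_single b]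
  · refine Finset.prod_congr rfl fun i _ => ?_
    rw [xt_self]
  · intro b' _ hb
    refine Finset.prod_eq_one fun i _ => ?_
    rw [xt_ne hb, zpow_zero]
  · intro h; exact absurd (Finset.mem_univ _) h

theorem xt_abs {M' : ℕ} (b : B) (e : Fin (R b + 1) → ℤ) (h : ∀ i, |e i| ≤ M') (s : Zx R) :
    |xt b e s| ≤ M' := by
  obtain ⟨b', i⟩ := s
  by_cases hb : b' = b
  · subst hb
    rw [xt_self]
    exact h i
  · rw [xt_ne hb]
    exact abs_zero_le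

end EV

namespace LD

variable {p : ℕ} [Fact p.Prime] {K : Type} [Field K] [Algebra (ZMod p) K]
  {V : ValuationSubring K} {A I Dd Nn B : Type} [Fintype A] [DecidableEq A] [Fintype Nn]
  [Fintype B] [DecidableEq B] {R : B → ℕ} {N : ℕ}
  {Nw : Fin N → ℕ} {ew : Fin N → Zx R → ℤ} {M : ℕ}
  (L : LD p V A I Dd Nn B R Nw ew M)

theorem t_ne_zero (a : A) : L.t a ≠ 0 := by
  cases h : L.l a with
  | none => rw [L.l0 a h]; exact one_ne_zero
  | some c => exact (L.l1 a c h).2.1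

theorem vt (a : A) : V.valuation (L.t a) ≤ 1 := by
  cases h : L.l a with
  | none => rw [L.l0 a h, map_one]
  | some c => exact (L.l1 a c h).1.le

/-- The forms. -/
def zt : Zx R → K := fun s => L.ζ s.1 s.2

theorem zt_ne (s : Zx R) : L.zt s ≠ 0 := L.ζ0 _ _

theorem vzt (s : Zx R) : V.valuation (L.zt s) ≤ 1 := L.vζ _ _

/-- The monomial which makes the `w c` integral. -/
def pt : K := mon L.t (fun _ => (M : ℤ)) * mon L.zt fun _ => (M : ℤ)

theorem pt_ne_zero : L.pt ≠ 0 :=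
  mul_ne_zero (mon_ne_zero L.t_ne_zero _) (mon_ne_zero L.zt_ne _)

/-- The coordinates. -/
noncomputable def τ : Ix A R N → K :=
  Sum.elim L.t (Sum.elim L.zt (Sum.elim L.σ fun c => L.w c * L.pt))

theorem τ_ne_zero (α : Ix A R N) : L.τ α ≠ 0 := by
  rcases α with a | i | c | c
  · exact L.t_ne_zero a
  · exact L.zt_ne i
  · exact L.σ0 c
  · exact mul_ne_zero (L.w0 c) L.pt_ne_zero

include L in
theorem Nw_ne_zero (c : Fin N) : Nw c ≠ 0 := by
  intro h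
  apply L.Nw0 c
  rw [h]
  exact dvd_zero p

theorem vτw (c : Fin N) : V.valuation (L.w c * L.pt) ≤ 1 := by
  have h0 := L.Nw_ne_zero c
  have hle : ∀ x : ℤ, |x| ≤ M → 0 ≤ x + (Nw c : ℤ) * (M : ℤ) := by
    intro x hx
    have h2 := (abs_le.mp hx).1
    have h3 : (M : ℤ) ≤ (Nw c : ℤ) * (M : ℤ) := by
      exact_mod_cast Nat.le_mul_of_pos_left M (Nat.pos_of_ne_zero h0)
    linarith
  have h1 : V.valuation ((L.w c * L.pt) ^ Nw c) ≤ 1 := by
    have h2 : (L.w c * L.pt) ^ Nw c = aeval L.y (L.pw c) *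
        mon L.t (L.κw c + (Nw c : ℤ) • fun _ => (M : ℤ)) *
        mon L.zt (ew c + (Nw c : ℤ) • fun _ => (M : ℤ)) := by
      rw [mul_pow, L.KM, pt, mon_add L.t_ne_zero, mon_add L.zt_ne, mon_smul, mon_smul,
        zpow_natCast, zpow_natCast, mul_pow]
      show aeval L.y (L.pw c) * mon L.t (L.κw c) * mon L.zt (ew c) * _ = _
      ring
    rw [h2, map_mul, map_mul, L.vpw, one_mul]
    exact mul_le_one' (Z.LD.vmon L.vt fun a => hle _ (L.κwM c a))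
      (Z.LD.vmon L.vzt fun i => hle _ (L.eM c i))
  by_contra hcon
  rw [map_pow] at h1
  exact absurd h1 (not_le.mpr (one_lt_pow₀ (not_le.mp hcon) h0))

theorem vτ (α : Ix A R N) : V.valuation (L.τ α) ≤ 1 := by
  rcases α with a | i | c | c
  · exact L.vt a
  · exact L.vzt i
  · exact L.vσ c
  · exact L.vτw c

theorem mon_EV (e1 : A → ℤ) (e2 : Zx R → ℤ) (e3 : B → ℤ) (e4 : Fin N → ℤ) :
    mon L.τ (EV e1 e2 e3 e4) = mon L.t e1 * (mon L.zt e2 * (mon L.σ e3 *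
      mon (fun c => L.w c * L.pt) e4)) := by
  rw [mon, Fintype.prod_sum_type, Fintype.prod_sum_type, Fintype.prod_sum_type]
  rfl

theorem mon_z (e : Zx R → ℤ) : mon L.τ (EV 0 e 0 0) = mon L.zt e := by
  rw [L.mon_EV, mon_zero', mon_zero', mon_zero', one_mul, mul_one, mul_one]

theorem mon_zi (b : B) (i : Fin (R b + 1)) :
    mon L.τ (EV 0 (Pi.single ⟨b, i⟩ 1) 0 0) = L.ζ b i := by
  rw [L.mon_z, mon_single]
  rfl

theorem mon_zb (b : B) (e : Fin (R b + 1) → ℤ) :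
    mon L.τ (EV 0 (xt b e) 0 0) = mon (L.ζ b) e := by
  rw [L.mon_z]
  exact mon_xt L.ζ b e

theorem mon_t (e : A → ℤ) : mon L.τ (EV e 0 0 0) = mon L.t e := by
  rw [L.mon_EV, mon_zero', mon_zero', mon_zero', one_mul, mul_one, mul_one]

theorem mon_s (b : B) : mon L.τ (EV 0 0 (Pi.single b 1) 0) = L.σ b := by
  rw [L.mon_EV, mon_zero', mon_zero', mon_zero', mon_single, one_mul, mul_one, one_mul]

theorem mon_sz (b : B) (k : ℤ) (i : Fin (R b + 1)) :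
    mon L.τ (EV 0 (Pi.single ⟨b, i⟩ (-k)) (Pi.single b k) 0) = (L.σ b / L.ζ b i) ^ k := by
  have h1 : (Pi.single ⟨b, i⟩ (-k) : Zx R → ℤ) = (-k) • Pi.single ⟨b, i⟩ 1 := by
    rw [← Pi.single_smul, smul_eq_mul, mul_one]
  have h2 : (Pi.single b k : B → ℤ) = k • Pi.single b 1 := by
    rw [← Pi.single_smul, smul_eq_mul, mul_one]
  rw [L.mon_EV, h1, h2, mon_smul, mon_smul, mon_single, mon_single, mon_zero', mon_zero', one_mul,
    mul_one, zpow_neg, div_zpow, div_eq_mul_inv, mul_comm]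
  rfl

theorem mon_zz (b : B) (i j : Fin (R b + 1)) :
    mon L.τ (EV 0 (Pi.single ⟨b, i⟩ 1 - Pi.single ⟨b, j⟩ 1) 0 0) = L.ζ b i / L.ζ b j := by
  rw [L.mon_z, mon_sub L.zt_ne, mon_single, mon_single]
  rfl

/-- The exponent of `w c ^ Nw c`. -/
def Ew (_L : LD p V A I Dd Nn B R Nw ew M) (c : Fin N) : Ix A R N → ℤ :=
  EV (fun _ => -((Nw c : ℤ) * M)) (fun _ => -((Nw c : ℤ) * M)) 0 (Pi.single c (Nw c : ℤ))

theorem mon_Ew (c : Fin N) : mon L.τ (L.Ew c) = L.w c ^ Nw c := by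
  have h1 : (fun _ => -((Nw c : ℤ) * M) : A → ℤ) = (-(Nw c : ℤ)) • fun _ => (M : ℤ) := by
    funext a
    rw [Pi.smul_apply, smul_eq_mul]; ring
  have h2 : (fun _ => -((Nw c : ℤ) * M) : Zx R → ℤ) = (-(Nw c : ℤ)) • fun _ => (M : ℤ) := by
    funext a
    rw [Pi.smul_apply, smul_eq_mul]; ring
  have h3 : (Pi.single c (Nw c : ℤ) : Fin N → ℤ) = (Nw c : ℤ) • Pi.single c 1 := by
    rw [← Pi.single_smul, smul_eq_mul, mul_one]
  rw [Ew, L.mon_EV, h1, h2, h3, mon_smul, mon_smul, mon_smul, mon_single, mon_zero', one_mul,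
    zpow_neg, zpow_neg, zpow_natCast, zpow_natCast, zpow_natCast, mul_pow, pt, mul_pow]
  have h4 := pow_ne_zero (Nw c) (mon_ne_zero L.t_ne_zero (fun _ => (M : ℤ)))
  have h5 := pow_ne_zero (Nw c) (mon_ne_zero L.zt_ne (fun _ => (M : ℤ)))
  field_simp

/-- The exponent of the right side of a Kummer relation. -/
def Er (L : LD p V A I Dd Nn B R Nw ew M) (c : Fin N) : Ix A R N → ℤ :=
  EV (L.κw c) (ew c) 0 0

theorem mon_Er (c : Fin N) : mon L.τ (L.Er c) = mon L.t (L.κw c) * mon L.zt (ew c) := by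
  rw [Er, L.mon_EV, mon_zero', mon_zero', mul_one, mul_one]

end LD

/-- The chart. -/
structure Cx {p : ℕ} [Fact p.Prime] {K : Type} [Field K] [Algebra (ZMod p) K]
    {V : ValuationSubring K} {A I Dd Nn B : Type} [Fintype A] [DecidableEq A] [Fintype Nn]
    [Fintype B] [DecidableEq B] {R : B → ℕ} {N : ℕ}
    {Nw : Fin N → ℕ} {ew : Fin N → Zx R → ℤ} {M : ℕ}
    (L : LD p V A I Dd Nn B R Nw ew M) (M' : ℕ) (C : Cone (Ix A R N)) : Prop where
  hC : IsCone C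
  hb : ∀ j, V.valuation (mon L.τ (C.b j)) ≤ 1
  hS : ∀ u ∈ BX (Ix A R N) M', ∀ u' ∈ BX (Ix A R N) M', Sgn C (u - u')
  h2 : 2 ≤ M'
  hM : M ≤ M'
  hN : ∀ c, Nw c ≤ M' ∧ Nw c * M ≤ M'

end Pool.Agent.H96.ZN
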