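import Pool.Agent.H96.ZN.LA

/-!
# The common relations of the charts of a fibre product of circuit varieties
-/

set_option autoImplicit false
set_option linter.unusedSectionVars false

namespace Pool.Agent.H96.ZN

open MvPolynomial IsLocalRing Pool.Agent.H96.Reg Pool.Agent.H96.VL Pool.Agent.H96.W
open Pool.Agent.H96.Z (Ls Ds c2 x2 cl xl isRegular_of_terms rel_two rel_lin Ls_two Ds_two Ls_tt
  Ds_tt Ls_G Ds_G Ls_U Ds_U Ls_V Ds_V Ls_lin Ds_lin mon_zero' cring abs_single abs_zero_le abs_fz_le)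
open Pool.Agent.H96.W2 (BX mem_BX zero_mem_BX single_mem_BX single_one_mem_BX neg_mem_BX)
open Pool.Agent.H96.S (cond_t cond_f zc0 zc_ne resv_aevalp sum_single_eq sum_zero_eq)

variable {p : ℕ} [Fact p.Prime] {K : Type} [Field K] [Algebra (ZMod p) K]
  {V : ValuationSubring K} {A I Dd Nn B : Type} [Fintype A] [DecidableEq A] [Fintype Nn]
  [DecidableEq Nn] [Fintype Dd] [DecidableEq Dd] [Fintype B] [DecidableEq B] {R : B → ℕ} {N : ℕ}
  {Nw : Fin N → ℕ} {ew : Fin N → Zx R → ℤ} {M M' : ℕ}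
  {L : LD p V A I Dd Nn B R Nw ew M}

/-- The index set of the terms. -/
abbrev Tx {B : Type} (R : B → ℕ) : Type := Zx R ⊕ Bool

/-- The index set of the additional variables of a block. -/
abbrev Tc (R : ℕ) : Type := Unit ⊕ Fin R

/-- The index set of the additional variables. -/
abbrev Θx {B : Type} (R : B → ℕ) : Type := Σ b, Tc (R b)

/-- The polynomial ring of the variables. -/
abbrev LD.Po (_L : LD p V A I Dd Nn B R Nw ew M) : Type :=
  MvPolynomial ((Nn ⊕ Dd) ⊕ Θx R) (ZMod p)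

section Defs

variable (L)

/-- The index set of the common relations. -/
abbrev LD.Cm (_L : LD p V A I Dd Nn B R Nw ew M) : Type := A ⊕ (Nn ⊕ Fin N)

/-- The coefficients of the common relations. -/
noncomputable def LD.cc : L.Cm → Tx R → L.Po :=
  Sum.elim (fun a => c2 _ 1 ((L.l a).elim (-1) fun x => -X (Sum.inl (Sum.inr x))))
    (Sum.elim (fun j => c2 _ (rename Sum.inl (L.G j)) 0)
      fun c => c2 _ 1 (-rename Sum.inl (L.pw c)))

/-- The exponents of the common relations. -/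
def LD.cx : L.Cm → Tx R → Ix A R N → ℤ :=
  Sum.elim (fun a => x2 _ (EV (Pi.single a 1) 0 0 0) 0)
    (Sum.elim (fun _ => x2 _ 0 0) fun c => x2 _ (L.Ew c) (L.Er c))

/-- The leading terms of the common relations. -/
def LD.cs : L.Cm → Tx R :=
  Sum.elim (fun a => Sum.inr (L.l a).isNone) fun _ => Sum.inr true

end Defs

theorem mon_sa (a : A) : mon L.τ (EV (Pi.single a 1) 0 0 0) = L.t a := by
  rw [L.mon_t, mon_single]

theorem cc_rel (Y : Θx R → K) (j : L.Cm) :
    ∑ s, aeval (Sum.elim L.y Y) (L.cc j s) * mon L.τ (L.cx j s) = 0 := by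
  rcases j with a | j | c
  · refine (rel_two (y := Sum.elim L.y Y) _ _ _ _).trans ?_
    rw [mon_sa, mon_zero', map_one, mul_one, one_mul]
    cases h : L.l a with
    | none =>
      show L.t a + aeval _ (-1 : L.Po) = 0
      rw [L.l0 _ h, map_neg, map_one]; ring
    | some x =>
      show L.t a + aeval _ (-X (Sum.inl (Sum.inr x)) : L.Po) = 0
      rw [map_neg, aeval_X, Sum.elim_inl, (L.l1 _ _ h).2.2]; ring
  · refine (rel_two (y := Sum.elim L.y Y) _ _ _ _).trans ?_
    rw [aeval_rename, map_zero, zero_mul, add_zero]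
    show aeval L.y (L.G j) * _ = 0
    rw [L.rel j, zero_mul]
  · refine (rel_two (y := Sum.elim L.y Y) _ _ _ _).trans ?_
    rw [L.mon_Ew, L.mon_Er, L.KM, map_neg, map_one, aeval_rename]
    show 1 * (aeval L.y (L.pw c) * mon L.t (L.κw c) * mon L.zt (ew c)) +
      -aeval L.y (L.pw c) * (mon L.t (L.κw c) * mon L.zt (ew c)) = 0
    ring

theorem cx_mem {C : Cone (Ix A R N)} (h : Cx L M' C) (j : L.Cm) (s : Tx R) :
    L.cx j s ∈ BX (Ix A R N) M' := by
  have h1 : |(1 : ℤ)| ≤ (M' : ℤ) := by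
    rw [abs_one]
    exact_mod_cast (show 1 ≤ M' from (by decide : 1 ≤ 2).trans h.h2)
  have h3 : ∀ x : ℤ, |x| ≤ M → |x| ≤ M' := fun x hx => hx.trans (by exact_mod_cast h.hM)
  rcases j with a | j | c <;> rcases s with s | _ | _
  · exact zero_mem_BX
  · exact zero_mem_BX
  · exact EV_mem (abs_single h1 _) abs_fz_le abs_fz_le abs_fz_le
  · exact zero_mem_BX
  · exact zero_mem_BX
  · exact zero_mem_BX
  · exact zero_mem_BX
  · exact EV_mem (fun a => h3 _ (L.κwM c a)) (fun a => h3 _ (L.eM c a)) abs_fz_le abs_fz_le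
  · obtain ⟨h4, h5⟩ := h.hN c
    have h6 : |-((Nw c : ℤ) * M)| ≤ M' := by
      rw [abs_neg, ← Nat.cast_mul, Nat.abs_cast]
      exact_mod_cast h5
    refine EV_mem (fun _ => h6) (fun _ => h6) abs_fz_le (abs_single ?_ _)
    rw [Nat.abs_cast]
    exact_mod_cast h4

theorem cs_ok (j : L.Cm) : L.cc j (L.cs j) ≠ 0 ∨ ∀ s, L.cc j s = 0 := by
  rcases j with a | j | c
  · left
    show c2 (Zx R) (1 : L.Po) _ (Sum.inr (L.l a).isNone) ≠ 0
    cases h : L.l a with
    | none => exact one_ne_zero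
    | some x => exact neg_ne_zero.mpr (X_ne_zero _)
  · by_cases h : rename Sum.inl (L.G j) = (0 : L.Po)
    · right
      rintro (s | _ | _)
      · rfl
      · rfl
      · exact h
    · exact Or.inl h
  · exact Or.inl one_ne_zero

theorem vt_lt {a : A} {x : Dd} (ha : L.l a = some x) : V.valuation (L.t a) < 1 :=
  (L.l1 a x ha).1

theorem cs_dom (j : L.Cm) (s : Tx R) (hs : L.cc j s ≠ 0) :
    V.valuation (mon L.τ (L.cx j s)) ≤ V.valuation (mon L.τ (L.cx j (L.cs j))) := by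
  rcases j with a | j | c
  · cases h : L.l a with
    | none =>
      have h1 : mon L.τ (L.cx (Sum.inl a) (L.cs (Sum.inl a))) = 1 := by
        show mon L.τ (x2 (Zx R) (EV (Pi.single a 1) 0 0 0) 0 (Sum.inr (L.l a).isNone)) = 1
        rw [h]
        show mon L.τ (EV (Pi.single a 1) 0 0 0) = 1
        rw [mon_sa, L.l0 a h]
      rw [h1]
      rcases s with s | _ | _
      · exact absurd rfl hs
      · show V.valuation (mon L.τ 0) ≤ _
        rw [mon_zero']
      · show V.valuation (mon L.τ (EV (Pi.single a 1) 0 0 0)) ≤ _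
        rw [mon_sa, L.l0 a h]
    | some x =>
      have h1 : mon L.τ (L.cx (Sum.inl a) (L.cs (Sum.inl a))) = 1 := by
        show mon L.τ (x2 (Zx R) (EV (Pi.single a 1) 0 0 0) 0 (Sum.inr (L.l a).isNone)) = 1
        rw [h]
        exact mon_zero' _
      rw [h1, map_one]
      rcases s with s | _ | _
      · exact absurd rfl hs
      · show V.valuation (mon L.τ 0) ≤ _
        rw [mon_zero', map_one]
      · show V.valuation (mon L.τ (EV (Pi.single a 1) 0 0 0)) ≤ _
        rw [mon_sa]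
        exact L.vt a
  · rcases s with s | _ | _
    · exact absurd rfl hs
    · exact absurd rfl hs
    · exact le_rfl
  · rcases s with s | _ | _
    · exact absurd rfl hs
    · show V.valuation (mon L.τ (L.Er c)) ≤ V.valuation (mon L.τ (L.Ew c))
      rw [L.mon_Er, L.mon_Ew, L.KM, map_mul, map_mul, map_mul, L.vpw, one_mul]
      exact le_rfl
    · exact le_rfl

section Diff

variable [Algebra (ZMod p) (ResidueField V)] {Y : Θx R → K}

theorem Ls_a (a : A) (α : Ix A R N) :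
    Ls V L.τ (Sum.elim L.y Y) (L.cc (Sum.inl a)) (L.cx (Sum.inl a)) (L.cs (Sum.inl a)) α =
      if L.l a = none ∧ α = Sum.inl a then 1 else 0 := by
  cases h : L.l a with
  | none =>
    have h1 : L.cc (Sum.inl a) = c2 _ 1 (-1) := by
      show c2 _ 1 ((L.l a).elim (-1) fun x => -X (Sum.inl (Sum.inr x))) = _
      rw [h]; rfl
    have h2 : L.cs (Sum.inl a) = Sum.inr true := by
      show Sum.inr (L.l a).isNone = _
      rw [h]; rfl
    rw [h1, h2]
    refine (Ls_U L.τ_ne_zero α).trans ?_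
    by_cases hα : α = Sum.inl a
    · rw [if_pos ⟨rfl, hα⟩, hα, EV_a, Pi.single_eq_same, Int.cast_one]
    · rw [if_neg (fun h => hα h.2)]
      rcases α with b | i | c | c
      · rw [EV_a, Pi.single_eq_of_ne (fun h => hα (by rw [h])), Int.cast_zero]
      · exact zc0 V
      · exact zc0 V
      · exact zc0 V
  | some x =>
    have h1 : L.cc (Sum.inl a) = c2 _ 1 (-X (Sum.inl (Sum.inr x))) := by
      show c2 _ 1 ((L.l a).elim (-1) fun x => -X (Sum.inl (Sum.inr x))) = _
      rw [h]; rfl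
    have h2 : L.cs (Sum.inl a) = Sum.inr false := by
      show Sum.inr (L.l a).isNone = _
      rw [h]; rfl
    rw [h1, h2, if_neg (fun h' => Option.some_ne_none x h'.1)]
    exact Ls_V (by rw [mon_sa]; exact vt_lt h) _ α

theorem Ds_a (a : A) (l : (Nn ⊕ Dd) ⊕ Θx R) :
    Ds V L.τ (Sum.elim L.y Y) (L.cc (Sum.inl a)) (L.cx (Sum.inl a)) (L.cs (Sum.inl a)) l =
      if ∃ x, L.l a = some x ∧ l = Sum.inl (Sum.inr x) then -1 else 0 := by
  cases h : L.l a with
  | none =>
    have h1 : L.cc (Sum.inl a) = c2 _ 1 (-1) := by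
      show c2 _ 1 ((L.l a).elim (-1) fun x => -X (Sum.inl (Sum.inr x))) = _
      rw [h]; rfl
    have h2 : L.cs (Sum.inl a) = Sum.inr true := by
      show Sum.inr (L.l a).isNone = _
      rw [h]; rfl
    rw [h1, h2, if_neg]
    · exact Ds_U L.τ_ne_zero l
    · rintro ⟨x, hx, -⟩
      exact Option.some_ne_none x hx.symm
  | some x =>
    have h1 : L.cc (Sum.inl a) = c2 _ 1 (-X (Sum.inl (Sum.inr x))) := by
      show c2 _ 1 ((L.l a).elim (-1) fun x => -X (Sum.inl (Sum.inr x))) = _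
      rw [h]; rfl
    have h2 : L.cs (Sum.inl a) = Sum.inr false := by
      show Sum.inr (L.l a).isNone = _
      rw [h]; rfl
    rw [h1, h2]
    refine (Ds_V _ l).trans ?_
    by_cases hl : l = Sum.inl (Sum.inr x)
    · rw [if_pos hl, if_pos ⟨x, rfl, hl⟩]
    · rw [if_neg hl, if_neg]
      rintro ⟨x', hx, hx'⟩
      rw [← Option.some_injective _ hx] at hx'
      exact hl hx'

theorem Ls_g (j : Nn) (α : Ix A R N) :
    Ls V L.τ (Sum.elim L.y Y) (L.cc (Sum.inr (Sum.inl j))) (L.cx (Sum.inr (Sum.inl j)))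
      (L.cs (Sum.inr (Sum.inl j))) α = 0 := Ls_G _ _ α

theorem elim_resv (Y : Θx R → K) :
    (fun l : (Nn ⊕ Dd) ⊕ Θx R => resv V (Sum.elim L.y Y l)) ∘ Sum.inl =
    fun l => resv V (L.y l) := rfl

theorem Ds_g (j : Nn) (l : Nn ⊕ Dd) :
    Ds V L.τ (Sum.elim L.y Y) (L.cc (Sum.inr (Sum.inl j))) (L.cx (Sum.inr (Sum.inl j)))
      (L.cs (Sum.inr (Sum.inl j))) (Sum.inl l) =
      aeval (fun l => resv V (L.y l)) (pderiv l (L.G j)) := by
  refine (Ds_G _ _).trans ?_
  rw [← elim_resv Y, ← aeval_rename]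
  congr 1
  exact pderiv_rename Sum.inl_injective l (L.G j)

theorem pderiv_inl (P : MvPolynomial (Nn ⊕ Dd) (ZMod p)) (θ : Θx R) :
    pderiv (Sum.inr θ) (rename Sum.inl P : MvPolynomial ((Nn ⊕ Dd) ⊕ Θx R) (ZMod p)) = 0 := by
  classical
  apply pderiv_eq_zero_of_notMem_vars
  intro h
  have h2 := vars_rename (Sum.inl : Nn ⊕ Dd → (Nn ⊕ Dd) ⊕ Θx R) P h
  obtain ⟨x, -, hx⟩ := Finset.mem_image.mp h2
  exact Sum.inl_ne_inr hx

theorem Ds_gΘ (j : Nn) (θ : Θx R) :
    Ds V L.τ (Sum.elim L.y Y) (L.cc (Sum.inr (Sum.inl j))) (L.cx (Sum.inr (Sum.inl j)))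
      (L.cs (Sum.inr (Sum.inl j))) (Sum.inr θ) = 0 := by
  refine (Ds_G _ _).trans ?_
  rw [pderiv_inl, map_zero]

theorem Ls_ww (c c' : Fin N) :
    Ls V L.τ (Sum.elim L.y Y) (L.cc (Sum.inr (Sum.inr c)))
      (L.cx (Sum.inr (Sum.inr c))) (L.cs (Sum.inr (Sum.inr c)))
      (Sum.inr (Sum.inr (Sum.inr c'))) = if c' = c then (Nw c : ResidueField V) else 0 := by
  refine (Ls_tt L.τ_ne_zero _ _ _ _ _).trans ?_
  rw [map_one, one_mul, LD.Er, EV_w, Pi.zero_apply, Int.cast_zero, mul_zero, add_zero, LD.Ew, EV_w,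
    Pi.single_apply]
  split_ifs
  · rw [Int.cast_natCast]
  · exact zc0 V

end Diff

theorem sum_Cm {β : Type} [AddCommMonoid β] (f : L.Cm → β) : ∑ j, f j =
    ∑ s, f (Sum.inl s) + (∑ s, f (Sum.inr (Sum.inl s)) + ∑ c, f (Sum.inr (Sum.inr c))) := by
  rw [Fintype.sum_sum_type, Fintype.sum_sum_type]

theorem D_ne (L : LD p V A I Dd Nn B R Nw ew M) [Algebra (ZMod p) (ResidueField V)] (i : I) :
    aeval (fun s => resv V (L.y s)) (L.D i) ≠ 0 := by
  have h3 := resv_aevalp V L.y L.vy (L.D i)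
  rw [← h3.2, resv_ne_zero_iff h3.1]
  exact L.vD i

/-- The relations of a block are suitable. -/
structure Bok (L : LD p V A I Dd Nn B R Nw ew M) [Algebra (ZMod p) (ResidueField V)]
    (Y : Θx R → K) (M' : ℕ) (b : B) {S : Type} [Fintype S]
    (c : S → Tx R → L.Po) (x : S → Tx R → Ix A R N → ℤ) (s₀ : S → Tx R) :
    Prop where
  mem : ∀ j s, x j s ∈ BX (Ix A R N) M'
  rel : ∀ j, ∑ s, aeval (Sum.elim L.y Y) (c j s) * mon L.τ (x j s) = 0
  ok : ∀ j, c j (s₀ j) ≠ 0 ∨ ∀ s, c j s = 0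
  dom : ∀ j s, c j s ≠ 0 → V.valuation (mon L.τ (x j s)) ≤ V.valuation (mon L.τ (x j (s₀ j)))
  w : ∀ j c', Ls V L.τ (Sum.elim L.y Y) (c j) (x j) (s₀ j) (Sum.inr (Sum.inr (Sum.inr c'))) = 0
  zo : ∀ j b' i, b' ≠ b →
    Ls V L.τ (Sum.elim L.y Y) (c j) (x j) (s₀ j) (Sum.inr (Sum.inl ⟨b', i⟩)) = 0
  so : ∀ j b', b' ≠ b →
    Ls V L.τ (Sum.elim L.y Y) (c j) (x j) (s₀ j) (Sum.inr (Sum.inr (Sum.inl b'))) = 0
  tho : ∀ j b' θ, b' ≠ b → Ds V L.τ (Sum.elim L.y Y) (c j) (x j) (s₀ j) (Sum.inr ⟨b', θ⟩) = 0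
  ind : ∀ a : S → ResidueField V,
    (∀ i, ∑ j, a j * Ls V L.τ (Sum.elim L.y Y) (c j) (x j) (s₀ j) (Sum.inr (Sum.inl ⟨b, i⟩)) = 0) →
    (∑ j, a j * Ls V L.τ (Sum.elim L.y Y) (c j) (x j) (s₀ j) (Sum.inr (Sum.inr (Sum.inl b))) = 0) →
    (∀ θ, ∑ j, a j * Ds V L.τ (Sum.elim L.y Y) (c j) (x j) (s₀ j) (Sum.inr ⟨b, θ⟩) = 0) →
    ∀ j, a j = 0

/-- **Local regularity from the relations of the blocks.** -/
theorem isRegular_blocks [Algebra (ZMod p) (ResidueField V)] {C : Cone (Ix A R N)}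
    (h : Cx L M' C) {Y : Θx R → K} (hY : ∀ θ, V.valuation (Y θ) ≤ 1) (dim : B → ℕ)
    (S : B → Type) [∀ b, Fintype (S b)]
    (c : ∀ b, S b → Tx R → L.Po) (x : ∀ b, S b → Tx R → Ix A R N → ℤ)
    (s₀ : ∀ b, S b → Tx R) (hB : ∀ b, Bok L Y M' b (c b) (x b) (s₀ b))
    (hdim : ∀ b, 2 * R b + 3 ≤ dim b + Fintype.card (S b))
    (halg : Algebra.IsAlgebraic (Algebra.adjoin (ZMod p)
      (Set.range (Sum.elim (fun j => mon L.τ (C.b j)) (Sum.elim L.y Y)))) K)
    (htr : ((Fintype.card Dd + ∑ b, dim b : ℕ) : Cardinal.{0}) ≤ Algebra.trdeg (ZMod p) K) :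
    IsRegularLocalRing (cring V L.τ (Sum.elim L.y Y) C) := by
  classical
  refine isRegular_of_terms (κ := L.Cm ⊕ Σ b, S b)
    (ZMod.ringHom_surjective (Int.castRingHom (ZMod p))) V L.τ_ne_zero
    h.hC h.hb (y := Sum.elim L.y Y) (fun l => ?_) halg
    (Sum.elim L.cc fun s => c s.1 s.2) (Sum.elim L.cx fun s => x s.1 s.2)
    (Sum.elim L.cs fun s => s₀ s.1 s.2) ?_ ?_ ?_ ?_ ?_ ?_
  · rcases l with l | θ
    · exact L.vy l
    · exact hY θ
  · rintro (j | j) s s'
    · exact h.hS _ (cx_mem h j s) _ (cx_mem h j s')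
    · exact h.hS _ ((hB _).mem _ s) _ ((hB _).mem _ s')
  · rintro (j | j)
    · exact cc_rel Y j
    · exact (hB _).rel _
  · rintro (j | j)
    · exact cs_ok j
    · exact (hB _).ok _
  · rintro (j | j) s hs
    · exact cs_dom j s hs
    · exact (hB _).dom _ s hs
  · have h5 : Fintype.card (Ix A R N) =
        Fintype.card A + (∑ b, (R b + 1) + (Fintype.card B + N)) := by
      rw [Fintype.card_sum, Fintype.card_sum, Fintype.card_sum, Fintype.card_fin,
        Fintype.card_sigma]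
      simp only [Fintype.card_fin]
    have h6 : Fintype.card ((Nn ⊕ Dd) ⊕ Θx R) =
        Fintype.card Nn + Fintype.card Dd + ∑ b, (1 + R b) := by
      rw [Fintype.card_sum, Fintype.card_sum, Fintype.card_sigma]
      simp only [Fintype.card_sum, Fintype.card_unit, Fintype.card_fin]
    have h7 : Fintype.card (L.Cm ⊕ Σ b, S b) =
        Fintype.card A + (Fintype.card Nn + N) + ∑ b, Fintype.card (S b) := by
      rw [Fintype.card_sum, Fintype.card_sum, Fintype.card_sum, Fintype.card_sigma,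
        Fintype.card_fin]
    have h8 : ∑ b, (R b + 1) + (Fintype.card B + ∑ b, (1 + R b)) ≤
        ∑ b, dim b + ∑ b, Fintype.card (S b) := by
      rw [Fintype.card_eq_sum_ones, ← Finset.sum_add_distrib, ← Finset.sum_add_distrib,
        ← Finset.sum_add_distrib]
      refine Finset.sum_le_sum fun b _ => ?_
      have := hdim b
      omega
    have h1 : Fintype.card (Ix A R N) + Fintype.card ((Nn ⊕ Dd) ⊕ Θx R) ≤
        (Fintype.card Dd + ∑ b, dim b) + Fintype.card (L.Cm ⊕ Σ b, S b) := by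
      rw [h5, h6, h7]
      omega
    calc ((Fintype.card (Ix A R N) : Cardinal.{0}) + Fintype.card ((Nn ⊕ Dd) ⊕ Θx R)) =
          ((Fintype.card (Ix A R N) + Fintype.card ((Nn ⊕ Dd) ⊕ Θx R) : ℕ) : Cardinal.{0}) := by
            push_cast; rfl
      _ ≤ (((Fintype.card Dd + ∑ b, dim b) + Fintype.card (L.Cm ⊕ Σ b, S b) : ℕ) :
          Cardinal.{0}) := by exact_mod_cast h1
      _ = ((Fintype.card Dd + ∑ b, dim b : ℕ) : Cardinal.{0}) +
          Fintype.card (L.Cm ⊕ Σ b, S b) := by push_cast; rfl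
      _ ≤ _ := by gcongr
  · intro a hLα hTl
    obtain ⟨aI, haI⟩ : ∃ f : A → ResidueField V, f = fun i => a (Sum.inl (Sum.inl i)) := ⟨_, rfl⟩
    obtain ⟨aG, haG⟩ : ∃ f : Nn → ResidueField V,
      f = fun s => a (Sum.inl (Sum.inr (Sum.inl s))) := ⟨_, rfl⟩
    obtain ⟨aW, haW⟩ : ∃ f : Fin N → ResidueField V,
      f = fun s => a (Sum.inl (Sum.inr (Sum.inr s))) := ⟨_, rfl⟩
    obtain ⟨aS, haS⟩ : ∃ f : (∀ b, S b → ResidueField V),
      f = fun b s => a (Sum.inr ⟨b, s⟩) := ⟨_, rfl⟩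
    have hL : ∀ α, ∑ i, aI i * (if L.l i = none ∧ α = Sum.inl i then 1 else 0) +
          ∑ c, aW c * Ls V L.τ (Sum.elim L.y Y) (L.cc (Sum.inr (Sum.inr c)))
            (L.cx (Sum.inr (Sum.inr c))) (L.cs (Sum.inr (Sum.inr c))) α +
        ∑ b, ∑ j, aS b j * Ls V L.τ (Sum.elim L.y Y) (c b j) (x b j) (s₀ b j) α = 0 := by
      intro α
      have h1 := hLα α
      rw [Fintype.sum_sum_type, sum_Cm, Fintype.sum_sigma] at h1
      simp only [Sum.elim_inl, Sum.elim_inr, Ls_a, Ls_g, mul_zero, Finset.sum_const_zero,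
        zero_add] at h1
      rw [haI, haW, haS]
      exact h1
    have hD : ∀ l, ∑ i, aI i * (if ∃ x, L.l i = some x ∧ l = Sum.inl (Sum.inr x) then -1 else 0) +
        (∑ j, aG j * Ds V L.τ (Sum.elim L.y Y) (L.cc (Sum.inr (Sum.inl j)))
          (L.cx (Sum.inr (Sum.inl j))) (L.cs (Sum.inr (Sum.inl j))) l +
          ∑ c, aW c * Ds V L.τ (Sum.elim L.y Y) (L.cc (Sum.inr (Sum.inr c)))
            (L.cx (Sum.inr (Sum.inr c))) (L.cs (Sum.inr (Sum.inr c))) l) +
        ∑ b, ∑ j, aS b j * Ds V L.τ (Sum.elim L.y Y) (c b j) (x b j) (s₀ b j) l = 0 := by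
      intro l
      have h1 := hTl l
      rw [Fintype.sum_sum_type, sum_Cm, Fintype.sum_sigma] at h1
      simp only [Sum.elim_inl, Sum.elim_inr, Ds_a] at h1
      rw [haI, haG, haW, haS]
      exact h1
    suffices hall : (∀ i, aI i = 0) ∧ (∀ s, aG s = 0) ∧ (∀ μ, aW μ = 0) ∧
        (∀ b c, aS b c = 0) by
      obtain ⟨h1, h2, h4, h5⟩ := hall
      rw [haI] at h1
      rw [haG] at h2
      rw [haW] at h4
      rw [haS] at h5
      rintro ((i | s | μ) | ⟨b, j⟩)
      exacts [h1 i, h2 s, h4 μ, h5 b j]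
    clear haI haG haW haS hLα hTl
    have hW : ∀ c, aW c = 0 := by
      intro c
      have h1 := hL (Sum.inr (Sum.inr (Sum.inr c)))
      rw [sum_zero_eq _ (fun i => by rw [if_neg (fun h => Sum.inr_ne_inl h.2), mul_zero]),
        zero_add, sum_zero_eq (fun b => ∑ j, aS b j * _) (fun b =>
          sum_zero_eq _ fun j => by rw [(hB b).w, mul_zero]), add_zero] at h1
      simp only [Ls_ww] at h1
      rw [sum_single_eq _ c fun c' hc => by rw [if_neg (Ne.symm hc), mul_zero], if_pos rfl] at h1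
      exact (mul_eq_zero.mp h1).resolve_right (natCast_ne V (L.Nw0 c))
    have hW' : ∀ f : Fin N → ResidueField V, ∑ c, aW c * f c = 0 := fun f =>
      sum_zero_eq _ fun c => by rw [hW, zero_mul]
    have hS : ∀ b j, aS b j = 0 := by
      intro b
      refine (hB b).ind (aS b) (fun i => ?_) ?_ fun θ => ?_
      · have h1 := hL (Sum.inr (Sum.inl ⟨b, i⟩))
        rwa [sum_zero_eq _ (fun i => by rw [if_neg (fun h => Sum.inr_ne_inl h.2), mul_zero]),
          hW', add_zero, zero_add, sum_single_eq _ b fun b' hb =>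
            sum_zero_eq _ fun j => by rw [(hB b').zo _ _ _ (Ne.symm hb), mul_zero]] at h1
      · have h1 := hL (Sum.inr (Sum.inr (Sum.inl b)))
        rwa [sum_zero_eq _ (fun i => by rw [if_neg (fun h => Sum.inr_ne_inl h.2), mul_zero]),
          hW', add_zero, zero_add, sum_single_eq _ b fun b' hb =>
            sum_zero_eq _ fun j => by rw [(hB b').so _ _ (Ne.symm hb), mul_zero]] at h1
      · have h1 := hD (Sum.inr ⟨b, θ⟩)
        rwa [sum_zero_eq _ (fun i => by rw [if_neg (by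
            rintro ⟨x, -, hx⟩
            exact Sum.inr_ne_inl hx), mul_zero]),
          hW', add_zero, zero_add, sum_zero_eq (fun j => aG j * _) (fun j => by
            rw [Ds_gΘ, mul_zero]), zero_add, sum_single_eq _ b fun b' hb =>
            sum_zero_eq _ fun j => by rw [(hB b').tho _ _ _ (Ne.symm hb), mul_zero]] at h1
    have hS' : ∀ f : (∀ b, S b → ResidueField V), ∑ b, ∑ j, aS b j * f b j = 0 := fun f =>
      sum_zero_eq _ fun b => sum_zero_eq _ fun c => by rw [hS, zero_mul]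
    have hG : ∀ s, aG s = 0 := by
      refine L.ndg _ (fun s => resv V (L.y s)) (D_ne L) aG fun j => ?_
      have h1 := hD (Sum.inl (Sum.inl j))
      rw [sum_zero_eq _ (fun s => by
          rw [if_neg (by
            rintro ⟨x, -, hx⟩
            exact Sum.inl_ne_inr (Sum.inl_injective hx)), mul_zero]), hW', hS', zero_add,
          add_zero, add_zero] at h1
      rw [← h1]
      exact Finset.sum_congr rfl fun k _ => by rw [Ds_g]
    have hG' : ∀ f : Nn → ResidueField V, ∑ c, aG c * f c = 0 := fun f =>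
      sum_zero_eq _ fun c => by rw [hG, zero_mul]
    refine ⟨fun s => ?_, hG, hW, hS⟩
    cases hs : L.l s with
    | none =>
      have h1 := hL (Sum.inl s)
      rw [hW', hS', add_zero, add_zero,
        sum_single_eq _ s fun s' hne => by
          rw [if_neg (fun h' => hne (Sum.inl_injective h'.2).symm), mul_zero],
        if_pos ⟨hs, rfl⟩, mul_one] at h1
      exact h1
    | some x =>
      have h1 := hD (Sum.inl (Sum.inr x))
      rw [hW', hS', hG', add_zero, add_zero, add_zero,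
        sum_single_eq _ s fun s' hne => by
          rw [if_neg (by
            rintro ⟨x', hx', h'⟩
            apply hne
            rw [← Sum.inr_injective (Sum.inl_injective h')] at hx'
            exact L.linj s' s x hx' hs), mul_zero],
        if_pos ⟨x, hs, rfl⟩, mul_neg, mul_one] at h1
      exact neg_eq_zero.mp h1

end Pool.Agent.H96.ZN
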