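import Pool.Agent.H96.Z.Rl

/-!
# Relations with three types of terms
-/

set_option autoImplicit false
set_option linter.unusedSectionVars false

namespace Pool.Agent.H96.ZN

open MvPolynomial IsLocalRing Pool.Agent.H96.Reg Pool.Agent.H96.VL Pool.Agent.H96.W
open Pool.Agent.H96.Z (Ls Ds rt)

variable {ι : Type} [Fintype ι] [DecidableEq ι] {A : Type} [Field A] {υ : Type} [Fintype υ]
  [DecidableEq υ] {I : Type} [Fintype I] {K : Type} [Field K] {V : ValuationSubring K}
  [Algebra A K] [Algebra A (ResidueField V)] {τ : ι → K} {y : υ → K}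

/-- The coefficients of a relation with three types of terms. -/
noncomputable def c3 (f : I → A) (P Q : MvPolynomial υ A) : I ⊕ Bool → MvPolynomial υ A :=
  Sum.elim (fun i => MvPolynomial.C (f i)) fun b => cond b P Q

/-- The exponents of a relation with three types of terms. -/
def x3 (g : I → ι → ℤ) (u v : ι → ℤ) : I ⊕ Bool → ι → ℤ := Sum.elim g fun b => cond b u v

theorem rel_three (f : I → A) (P Q : MvPolynomial υ A) (g : I → ι → ℤ) (u v : ι → ℤ) :
    ∑ s, aeval y (c3 f P Q s) * mon τ (x3 g u v s) =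
      ∑ i, algebraMap A K (f i) * mon τ (g i) +
        (aeval y P * mon τ u + aeval y Q * mon τ v) := by
  rw [Fintype.sum_sum_type, Fintype.sum_bool]
  congr 1
  refine Finset.sum_congr rfl fun i _ => ?_
  show aeval y (MvPolynomial.C (f i)) * mon τ (g i) = _
  rw [aeval_C]

theorem Ls_three (f : I → A) (P Q : MvPolynomial υ A) (g : I → ι → ℤ) (u v : ι → ℤ)
    (s₀ : I ⊕ Bool) (α : ι) : Ls V τ y (c3 f P Q) (x3 g u v) s₀ α =
      ∑ i, algebraMap A (ResidueField V) (f i) * resv V (mon τ (g i) / mon τ (x3 g u v s₀)) *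
        ((g i α : ℤ) : ResidueField V) +
      (aeval (fun l => resv V (y l)) P * resv V (mon τ u / mon τ (x3 g u v s₀)) *
        ((u α : ℤ) : ResidueField V) +
      aeval (fun l => resv V (y l)) Q * resv V (mon τ v / mon τ (x3 g u v s₀)) *
        ((v α : ℤ) : ResidueField V)) := by
  rw [Ls, Fintype.sum_sum_type, Fintype.sum_bool]
  congr 1
  refine Finset.sum_congr rfl fun i _ => ?_
  show aeval _ (MvPolynomial.C (f i)) * rt V τ (x3 g u v) s₀ (Sum.inl i) * _ = _
  rw [aeval_C]
  rfl

theorem Ds_three (f : I → A) (P Q : MvPolynomial υ A) (g : I → ι → ℤ) (u v : ι → ℤ)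
    (s₀ : I ⊕ Bool) (l : υ) : Ds V τ y (c3 f P Q) (x3 g u v) s₀ l =
      aeval (fun l => resv V (y l)) (pderiv l P) * resv V (mon τ u / mon τ (x3 g u v s₀)) +
      aeval (fun l => resv V (y l)) (pderiv l Q) *
        resv V (mon τ v / mon τ (x3 g u v s₀)) := by
  rw [Ds, Fintype.sum_sum_type, Fintype.sum_bool, Finset.sum_eq_zero fun i _ => ?_, zero_add]
  · rfl
  · show aeval _ (pderiv l (MvPolynomial.C (f i))) * _ = 0
    rw [pderiv_C, map_zero, zero_mul]

end Pool.Agent.H96.ZN
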