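import Pool.Agent.H96.ZN.LN
import Pool.Agent.H96.ZN.Rt

/-!
# Circuit blocks: the data, and the relations away from the critical point
-/

set_option autoImplicit false
set_option linter.unusedSectionVars false

namespace Pool.Agent.H96.ZN

open MvPolynomial IsLocalRing Pool.Agent.H96.Reg Pool.Agent.H96.VL Pool.Agent.H96.W
open Pool.Agent.H96.Z (Ls Ds c2 x2 cl xl isRegular_of_terms rel_two rel_lin Ls_two Ds_two Ls_tt
  Ds_tt Ls_G Ds_G Ls_U Ds_U Ls_V Ds_V Ls_lin Ds_lin mon_zero' cring abs_single abs_zero_le abs_fz_le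
  cS sum_cS)
open Pool.Agent.H96.W2 (BX mem_BX zero_mem_BX single_mem_BX single_one_mem_BX neg_mem_BX)
open Pool.Agent.H96.S (cond_t cond_f zc0 zc_ne resv_aevalp sum_single_eq sum_zero_eq)

variable {p : ℕ} [Fact p.Prime] {K : Type} [Field K] [Algebra (ZMod p) K]
  {V : ValuationSubring K} {A I Dd Nn B : Type} [Fintype A] [DecidableEq A] [Fintype Nn]
  [DecidableEq Nn] [Fintype Dd] [DecidableEq Dd] [Fintype B] [DecidableEq B] {R : B → ℕ} {N : ℕ}
  {Nw : Fin N → ℕ} {ew : Fin N → Zx R → ℤ} {M M' : ℕ}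

/-- The data of a circuit block. -/
structure Circ (L : LD p V A I Dd Nn B R Nw ew M) (b : B) where
  lam : Fin (R b + 1) → ℤ
  lam0 : ¬ (p : ℤ) ∣ lam 0
  lamp : ∀ i, lam i = 0 ∨ ¬ (p : ℤ) ∣ lam i
  lams : ∑ i, lam i = 0
  lamM : ∀ i, |lam i| ≤ M
  qc : Nn ⊕ Dd
  κc : A → ℤ
  vqc : V.valuation (L.y qc) = 1
  κcM : ∀ a, |κc a| ≤ M
  eqc : mon (L.ζ b) lam = L.y qc * mon L.t κc
  i0 : Fin (R b)
  η : Fin (R b) → K
  ηi0 : η i0 = 1
  vη : ∀ i, V.valuation (η i) ≤ 1
  eqη : ∀ i, (lam 0 : K) * L.ζ b i.succ - lam i.succ * L.ζ b 0 = L.σ b * η i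
  dn : Bool
  qd : Nn ⊕ Dd
  κd : A → ℤ
  vqd : V.valuation (L.y qd) = 1
  κdM : ∀ a, |κd a| ≤ M
  eqd : mon (L.ζ b) lam = (∏ i, (lam i : K) ^ lam i) *
    (1 + cond dn (L.y qd * mon L.t κd) 0)

variable {L : LD p V A I Dd Nn B R Nw ew M}

section CaseN

variable [Algebra (ZMod p) (ResidueField V)] {b : B}

/-- **The relations of a circuit block away from the critical point.** -/
theorem pokN (h2 : 2 ≤ M') (hM : M ≤ M') (c : Circ L b) (hσ : V.valuation (L.σ b) = 1)
    (Y : Θx R → K) : Pok L Y M' b (S := Unit ⊕ (Unit ⊕ (Unit ⊕ Unit)))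
      (Sum.elim (fun _ => c2 _ 1 (-1)) (Sum.elim
        (fun _ => cl (xt b fun _ => 1) 0) (Sum.elim (fun _ => c2 _ 1 (-X (Sum.inl c.qc)))
            fun _ => cl (xt b (cS p c.lam c.i0)) 1)))
      (Sum.elim (fun _ => x2 _ (gz A R N ⟨b, L.m b⟩) 0) (Sum.elim
        (fun _ => xl (gz A R N) 0)
        (Sum.elim (fun _ => x2 _ (EV 0 (xt b c.lam) 0 0) (EV c.κc 0 0 0))
            fun _ => xl (gz A R N) (EV 0 0 (Pi.single b 1) 0))))
      (Sum.elim (fun _ => Sum.inr true) (Sum.elim (fun _ => Sum.inl ⟨b, L.m b⟩)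
        fun _ => Sum.inr true)) := by
  have h3 : ∀ x : ℤ, |x| ≤ M → |x| ≤ M' := fun x hx => hx.trans (by exact_mod_cast hM)
  have hLM : ∀ α, Ls V L.τ (Sum.elim L.y Y) (c2 (Zx R) (1 : L.Po) (-X (Sum.inl c.qc)))
      (x2 (Zx R) (EV 0 (xt b c.lam) 0 0) (EV c.κc 0 0 0)) (Sum.inr true) α =
      ((EV (A := A) (N := N) 0 (xt b c.lam) 0 0 α : ℤ) : ResidueField V) +
      aeval (fun l => resv V (Sum.elim L.y Y l)) (-X (Sum.inl c.qc) : L.Po) *
        resv V (mon L.τ (EV c.κc 0 0 0) / mon L.τ (EV 0 (xt b c.lam) 0 0)) *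
          ((EV c.κc 0 0 0 α : ℤ) : ResidueField V) := by
    intro α
    refine (Ls_tt L.τ_ne_zero _ _ _ _ α).trans ?_
    rw [map_one, one_mul]
  have hLS : ∀ α, Ls V L.τ (Sum.elim L.y Y) (cl (xt b (cS p c.lam c.i0)) (1 : L.Po))
      (xl (gz A R N) (EV 0 0 (Pi.single b 1) 0)) (Sum.inr true) α =
      ∑ s, (algebraMap (ZMod p) (ResidueField V)
        (xt b (cS p c.lam c.i0) s) * resv V (L.ζ s.1 s.2 / L.σ b)) *
        ((gz A R N s α : ℤ) : ResidueField V) +
      ((EV (A := A) (R := R) (N := N) 0 0 (Pi.single b 1) 0 α : ℤ) : ResidueField V) := by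
    intro α
    refine (Ls_lin _ _ _ _ _ α).trans ?_
    have h1 : xl (gz A R N) (EV 0 0 (Pi.single b 1) 0) (Sum.inr true) =
        EV 0 0 (Pi.single b 1) 0 := rfl
    rw [h1, L.mon_s, div_self (L.σ0 b), resv_one, map_one, one_mul, one_mul]
    congr 1
    refine Finset.sum_congr rfl fun j _ => ?_
    rw [mon_gz]
  refine ⟨?_, ?_, ?_, ?_, ?_, ?_, ?_, ?_, ?_⟩
  · rintro (j | j | j | j) s
    · rcases s with s | _ | _
      · exact zero_mem_BX
      · exact zero_mem_BX
      · exact gz_mem h2 _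
    · exact mem_L h2 s
    · rcases s with s | _ | _
      · exact zero_mem_BX
      · exact EV_mem (fun a => h3 _ (c.κcM a)) abs_fz_le abs_fz_le abs_fz_le
      · exact EV_mem abs_fz_le (xt_abs b _ fun i => h3 _ (c.lamM i)) abs_fz_le abs_fz_le
    · rcases s with s | _ | _
      · exact gz_mem h2 s
      · exact zero_mem_BX
      · exact EV_mem abs_fz_le abs_fz_le (abs_single (one_le_of h2) _) abs_fz_le
  · rintro (j | j | j | j)
    · refine (rel_two (y := Sum.elim L.y Y) _ _ _ _).trans ?_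
      rw [mon_gz, L.ζm, mon_zero', map_neg, map_one]; ring
    · exact rel_L b
    · refine (rel_two (y := Sum.elim L.y Y) _ _ _ _).trans ?_
      rw [L.mon_zb, L.mon_t, c.eqc, map_one, map_neg, aeval_X, Sum.elim_inl]; ring
    · refine (rel_lin (y := Sum.elim L.y Y) _ _ _ _).trans ?_
      have h1 := c.eqη c.i0
      rw [c.ηi0, mul_one] at h1
      rw [sum_xt b _ fun s => mon L.τ (gz A R N s)]
      simp only [mon_gz]
      rw [sum_cS c.lam c.i0 (L.ζ b), map_one, one_mul, L.mon_s, ← h1]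
      ring
  · rintro (j | j | j | j)
    · exact Or.inl one_ne_zero
    · left
      show MvPolynomial.C (xt b (fun _ => (1 : ZMod p)) ⟨b, L.m b⟩) ≠ 0
      rw [xt_self, MvPolynomial.C_1]
      exact one_ne_zero
    · exact Or.inl one_ne_zero
    · exact Or.inl one_ne_zero
  · rintro (j | j | j | j) s hs
    · rcases s with s | _ | _
      · exact absurd rfl hs
      · show V.valuation (mon L.τ 0) ≤ V.valuation (mon L.τ (gz A R N ⟨b, L.m b⟩))
        rw [mon_zero', mon_gz, L.ζm]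
      · exact le_rfl
    · exact dom_L b s hs
    · rcases s with s | _ | _
      · exact absurd rfl hs
      · show V.valuation (mon L.τ (EV c.κc 0 0 0)) ≤
          V.valuation (mon L.τ (EV 0 (xt b c.lam) 0 0))
        rw [L.mon_zb, L.mon_t, c.eqc, map_mul, c.vqc, one_mul]
      · exact le_rfl
    · rcases s with s | _ | _
      · show V.valuation (mon L.τ (gz A R N s)) ≤
          V.valuation (mon L.τ (EV 0 0 (Pi.single b 1) 0))
        rw [mon_gz, L.mon_s, hσ]
        exact L.vζ _ _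
      · exact absurd rfl hs
      · exact le_rfl
  · rintro (j | j | j | j) c'
    · exact (Ls_TT b _).trans (zc0 V)
    · exact (Ls_L b _).trans (sum_gz0 _ fun _ => rfl)
    · refine (hLM _).trans ?_
      rw [EV_w, EV_w, Pi.zero_apply, Int.cast_zero, mul_zero, add_zero]
    · refine (hLS _).trans ?_
      rw [sum_gz0 _ (fun _ => rfl), EV_w, Pi.zero_apply, Int.cast_zero, add_zero]
  · rintro (j | j | j | j) b' i hb
    · refine (Ls_TT b _).trans ?_
      rw [gz_ne (fun h => hb (congrArg Sigma.fst h)), Int.cast_zero]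
    · refine (Ls_L b _).trans ?_
      rw [sum_gz, xt_ne hb, map_zero, zero_mul]
    · refine (hLM _).trans ?_
      rw [EV_z, EV_z, xt_ne hb, Pi.zero_apply, Int.cast_zero, mul_zero, add_zero]
    · refine (hLS _).trans ?_
      rw [sum_gz, xt_ne hb, map_zero, zero_mul, EV_z, Pi.zero_apply, Int.cast_zero, add_zero]
  · rintro (j | j | j | j) b' hb
    · exact (Ls_TT b _).trans (zc0 V)
    · exact (Ls_L b _).trans (sum_gz0 _ fun _ => rfl)
    · refine (hLM _).trans ?_
      rw [EV_s, EV_s, Pi.zero_apply, Int.cast_zero, mul_zero, add_zero]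
    · refine (hLS _).trans ?_
      rw [sum_gz0 _ (fun _ => rfl), EV_s, Pi.single_eq_of_ne hb, Int.cast_zero, add_zero]
  · rintro (j | j | j | j) θ
    · exact Ds_U L.τ_ne_zero _
    · exact Ds_lin _ _ _ _ _ _ (map_zero _)
    · refine (Ds_tt L.τ_ne_zero _ _ _ _ _).trans ?_
      rw [← MvPolynomial.C_1, pderiv_C, map_zero, zero_add, map_neg, pderiv_X,
        Pi.single_eq_of_ne Sum.inl_ne_inr, neg_zero, map_zero, zero_mul]
    · exact Ds_lin _ _ _ _ _ _ (by rw [← MvPolynomial.C_1, pderiv_C])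
  · intro a h1 h2
    obtain ⟨aT, haT⟩ : ∃ f, f = a (Sum.inl ()) := ⟨_, rfl⟩
    obtain ⟨aL, haL⟩ : ∃ f, f = a (Sum.inr (Sum.inl ())) := ⟨_, rfl⟩
    obtain ⟨aM, haM⟩ : ∃ f, f = a (Sum.inr (Sum.inr (Sum.inl ()))) := ⟨_, rfl⟩
    obtain ⟨aS, haS⟩ : ∃ f, f = a (Sum.inr (Sum.inr (Sum.inr ()))) := ⟨_, rfl⟩
    simp only [Fintype.sum_sum_type, sum_unit, Sum.elim_inl, Sum.elim_inr, Ls_TT, Ls_L,
      hLM, hLS, ← haT, ← haL, ← haM, ← haS] at h1 h2
    have hS : aS = 0 := by
      rw [sum_gz0 _ (fun _ => rfl), sum_gz0 _ (fun _ => rfl), EV_s, EV_s, EV_s,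
        Pi.single_eq_same, Pi.zero_apply] at h2
      have h4 : gz A R N ⟨b, L.m b⟩ (Sum.inr (Sum.inr (Sum.inl b))) = 0 := rfl
      simp only [h4, Int.cast_zero, Int.cast_one, mul_zero, zero_add, add_zero, mul_one] at h2
      exact h2
    have h4 : ∀ i, aT * (if i = L.m b then 1 else 0) + (aL * resv V (L.ζ b i) +
        aM * (c.lam i : ResidueField V)) = 0 := by
      intro i
      have h4 := h1 i
      rw [hS, zero_mul, add_zero, sum_gz, EV_z, EV_z, xt_self,
        Pi.zero_apply, Int.cast_zero, mul_zero, add_zero, xt_self,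
        map_one, one_mul] at h4
      by_cases hi : i = L.m b
      · rw [if_pos hi]
        subst hi
        rw [gz_self, Int.cast_one] at h4
        exact h4
      · rw [gz_ne (fun h => hi (by simpa using h)), Int.cast_zero] at h4
        rw [if_neg hi]
        exact h4
    have hζs : ∑ i, resv V (L.ζ b i) = 0 := resv_ζs L b
    have hlams : ∑ i, (c.lam i : ResidueField V) = 0 := by
      rw [← Int.cast_sum, c.lams, Int.cast_zero]
    have hT0 : aT = 0 := by
      have h5 : ∑ i, (aT * (if i = L.m b then 1 else 0) + (aL * resv V (L.ζ b i) +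
        aM * (c.lam i : ResidueField V))) = 0 := Finset.sum_eq_zero fun i _ => h4 i
      rw [Finset.sum_add_distrib, Finset.sum_add_distrib, ← Finset.mul_sum, ← Finset.mul_sum,
        ← Finset.mul_sum, hζs, hlams, mul_zero, mul_zero, add_zero, add_zero,
        Finset.sum_ite_eq' Finset.univ (L.m b), if_pos (Finset.mem_univ _), mul_one] at h5
      exact h5
    have h5 : ∀ i, aL * resv V (L.ζ b i) + aM * (c.lam i : ResidueField V) = 0 := by
      intro i
      have h6 := h4 i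
      rwa [hT0, zero_mul, zero_add] at h6
    have h6 : (c.lam 0 : ResidueField V) * resv V (L.ζ b c.i0.succ) -
        c.lam c.i0.succ * resv V (L.ζ b 0) = resv V (L.σ b) := by
      have h4 := (resv_aevalp V (L.ζ b) (L.vζ b) (MvPolynomial.C (c.lam 0 : ZMod p) *
        X c.i0.succ - MvPolynomial.C (c.lam c.i0.succ : ZMod p) * X 0)).2
      rw [map_sub, map_mul, map_mul, map_sub, map_mul, map_mul, aeval_C, aeval_C, aeval_X,
        aeval_X, aeval_C, aeval_C, aeval_X, aeval_X, map_intCast, map_intCast, map_intCast,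
        map_intCast, c.eqη, c.ηi0, mul_one] at h4
      exact h4.symm
    have h7 : resv V (L.σ b) ≠ 0 := (resv_ne_zero_iff hσ.le).mpr hσ
    have hL0 : aL = 0 := by
      have h8 : aL * resv V (L.σ b) = 0 := by
        rw [← h6]
        linear_combination (c.lam 0 : ResidueField V) * h5 c.i0.succ -
          (c.lam c.i0.succ : ResidueField V) * h5 0
      exact (mul_eq_zero.mp h8).resolve_right h7
    have hM0 : aM = 0 := by
      have h8 := h5 0
      rw [hL0, zero_mul, zero_add] at h8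
      exact (mul_eq_zero.mp h8).resolve_right (zc_ne V c.lam0)
    rintro (j | j | j | j)
    exacts [haT ▸ hT0, haL ▸ hL0, haM ▸ hM0, haS ▸ hS]

end CaseN

end Pool.Agent.H96.ZN
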