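import Pool.Agent.H96.ZN.LC

/-!
# Circuit blocks at the critical point
-/

set_option autoImplicit false
set_option linter.unusedSectionVars false

namespace Pool.Agent.H96.ZN

open MvPolynomial IsLocalRing Pool.Agent.H96.Reg Pool.Agent.H96.VL Pool.Agent.H96.W
open Pool.Agent.H96.Z (Ls Ds c2 x2 cl xl isRegular_of_terms rel_two rel_lin Ls_two Ds_two Ls_tt
  Ds_tt Ls_G Ds_G Ls_U Ds_U Ls_V Ds_V Ls_lin Ds_lin mon_zero' cring abs_single abs_zero_le abs_fz_le
  cS sum_cS)
open Pool.Agent.H96.W2 (BX mem_BX zero_mem_BX single_mem_BX single_one_mem_BX neg_mem_BX)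
open Pool.Agent.H96.S (cond_t cond_f zc0 zc_ne resv_aevalp sum_single_eq sum_zero_eq)

/-- The polynomials of the second order. -/
structure Ci (p : ℕ) {R : ℕ} (lam : Fin (R + 1) → ℤ) where
  Q : MvPolynomial (Tc R) (ZMod p)
  P : MvPolynomial (Tc R) (ZMod p)
  g : ∀ (B : Type) [Field B] [Algebra (ZMod p) B] (Y : Tc R → B),
    ∏ i, (1 + Y (Sum.inl ()) * Y (Sum.inr i) * (lam (Fin.succ i) : B)⁻¹) ^
        (lam (Fin.succ i)).toNat -
      ∏ i, (1 + Y (Sum.inl ()) * Y (Sum.inr i) * (lam (Fin.succ i) : B)⁻¹) ^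
        (-lam (Fin.succ i)).toNat =
      Y (Sum.inl ()) * (∑ i, if lam (Fin.succ i) = 0 then 0 else Y (Sum.inr i)) +
        Y (Sum.inl ()) ^ 2 * aeval Y Q ∧
    aeval Y P = ∏ i, (1 + Y (Sum.inl ()) * Y (Sum.inr i) *
      (lam (Fin.succ i) : B)⁻¹) ^ (-lam (Fin.succ i)).toNat
  s : ∀ (B : Type) [Field B] [Algebra (ZMod p) B] (Y : Tc R → B), Y (Sum.inl ()) = 0 →
    ((∑ i, if lam (Fin.succ i) = 0 then 0 else Y (Sum.inr i)) = 0 →
      2 * aeval Y Q = - ∑ i, Y (Sum.inr i) ^ 2 * (lam (Fin.succ i) : B)⁻¹ ∧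
      (∃ E : B, ∀ i, aeval Y (pderiv (Sum.inr i) Q) =
        if lam (Fin.succ i) = 0 then 0 else E - Y (Sum.inr i) * (lam (Fin.succ i) : B)⁻¹)) ∧
    aeval Y P = 1 ∧ ∀ l, l ≠ Sum.inl () → aeval Y (pderiv l P) = 0

theorem exists_ci (p : ℕ) [Fact p.Prime] {R : ℕ} (lam : Fin (R + 1) → ℤ)
    (hl : ∀ i, lam i = 0 ∨ ¬ (p : ℤ) ∣ lam i) : Nonempty (Ci p lam) := by
  obtain ⟨Q, P, h1, h2⟩ := exists_circuit (p := p) (fun i : Fin R => lam i.succ)
    (fun i => hl i.succ) (Sum.inl () : Tc R)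
    (fun i => Sum.inr i) (fun i j h => Sum.inr_injective h)
    fun i h => Sum.inr_ne_inl h
  exact ⟨⟨Q, P, h1, h2⟩⟩

variable {p : ℕ} [Fact p.Prime] {K : Type} [Field K] [Algebra (ZMod p) K]
  {V : ValuationSubring K} {A I Dd Nn B : Type} [Fintype A] [DecidableEq A] [Fintype Nn]
  [DecidableEq Nn] [Fintype Dd] [DecidableEq Dd] [Fintype B] [DecidableEq B] {R : B → ℕ} {N : ℕ}
  {Nw : Fin N → ℕ} {ew : Fin N → Zx R → ℤ} {M M' : ℕ}
  {L : LD p V A I Dd Nn B R Nw ew M}

/-- The variables of a block. -/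
def emb (Nn Dd : Type) {B : Type} {R : B → ℕ} (b : B) : Tc (R b) → (Nn ⊕ Dd) ⊕ Θx R :=
  fun θ => Sum.inr ⟨b, θ⟩

theorem emb_inj (b : B) : Function.Injective (emb Nn Dd (R := R) b) := by
  intro θ θ' h
  have h1 := Sum.inr_injective h
  simpa using h1

theorem pderiv_emb {b b' : B} (hb : b' ≠ b) (P : MvPolynomial (Tc (R b)) (ZMod p))
    (θ : Tc (R b')) :
    pderiv (Sum.inr ⟨b', θ⟩) (rename (emb Nn Dd (R := R) b) P) = 0 := by
  classical
  apply pderiv_eq_zero_of_notMem_vars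
  intro h
  have h2 := vars_rename (emb Nn Dd (R := R) b) P h
  obtain ⟨x, -, hx⟩ := Finset.mem_image.mp h2
  exact hb (congrArg Sigma.fst (Sum.inr_injective hx)).symm

theorem vint (x : ℤ) : V.valuation (x : K) ≤ 1 :=
  (V.valuation_le_one_iff _).mpr (intCast_mem _ x)

theorem vlam [Algebra (ZMod p) (ResidueField V)] {x : ℤ} (hx : ¬ (p : ℤ) ∣ x) :
    V.valuation (x : K) = 1 := by
  rw [← resv_ne_zero_iff (vint x), resv_intCast]
  exact zc_ne V hx

theorem lam_ne [Algebra (ZMod p) (ResidueField V)] {x : ℤ} (hx : ¬ (p : ℤ) ∣ x) :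
    (x : K) ≠ 0 := by
  intro h
  have h1 := vlam (V := V) hx
  rw [h, map_zero] at h1
  exact zero_ne_one h1

/-- The values of the variables at the critical point. -/
def Circ.YC {b : B} (c : Circ L b) : Tc (R b) → K :=
  Sum.elim (fun _ => L.σ b / L.ζ b 0) c.η

/-- The values at the variables of the block. -/
theorem comp_emb {b : B} (c : Circ L b) {Y : Θx R → K} (hY : ∀ θ, Y ⟨b, θ⟩ = c.YC θ) :
    (Sum.elim L.y Y) ∘ emb Nn Dd b = c.YC := funext fun θ => hY θ

section Facts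

variable [Algebra (ZMod p) (ResidueField V)] {b : B} (c : Circ L b)

theorem lam0_ne : c.lam 0 ≠ 0 := by
  intro h
  apply c.lam0
  rw [h]
  exact dvd_zero _

theorem lamp_of {i : Fin (R b + 1)} (h : c.lam i ≠ 0) : ¬ (p : ℤ) ∣ c.lam i :=
  (c.lamp i).resolve_left h

/-- The residues of the forms are proportional to the exponents. -/
theorem resv_forms (hσ : V.valuation (L.σ b) < 1) (i : Fin (R b)) :
    (c.lam 0 : ResidueField V) * resv V (L.ζ b i.succ) = c.lam i.succ * resv V (L.ζ b 0) := by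
  have h4 := (resv_aevalp V (L.ζ b) (L.vζ b) (MvPolynomial.C (c.lam 0 : ZMod p) * X i.succ -
    MvPolynomial.C (c.lam i.succ : ZMod p) * X 0)).2
  rw [map_sub, map_mul, map_mul, map_sub, map_mul, map_mul, aeval_C, aeval_C, aeval_X,
    aeval_X, aeval_C, aeval_C, aeval_X, aeval_X, map_intCast, map_intCast, map_intCast,
    map_intCast, c.eqη] at h4
  have h5 : V.valuation (L.σ b * c.η i) < 1 := by
    rw [map_mul]
    exact mul_lt_one_of_lt_of_le hσ (c.vη i)
  rw [(resv_eq_zero_iff h5.le).mpr h5] at h4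
  exact (sub_eq_zero.mp h4.symm)

include c in
theorem vζ_zero (hσ : V.valuation (L.σ b) < 1) : V.valuation (L.ζ b 0) = 1 := by
  rw [← resv_ne_zero_iff (L.vζ b 0)]
  intro h0
  have h1 : ∀ i : Fin (R b + 1), resv V (L.ζ b i) = 0 := by
    intro i
    refine Fin.cases h0 (fun i => ?_) i
    have h2 := resv_forms c hσ i
    rw [h0, mul_zero] at h2
    exact (mul_eq_zero.mp h2).resolve_left (zc_ne V c.lam0)
  have h2 := h1 (L.m b)
  rw [L.ζm, resv_one] at h2
  exact one_ne_zero h2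

theorem vζ_one (hσ : V.valuation (L.σ b) < 1) (i : Fin (R b + 1)) :
    c.lam i ≠ 0 → V.valuation (L.ζ b i) = 1 := by
  have h0 := vζ_zero c hσ
  refine Fin.cases (fun _ => h0) (fun i => ?_) i
  intro hi
  rw [← resv_ne_zero_iff (L.vζ _ _)] at h0 ⊢
  intro h1
  have h2 := resv_forms c hσ i
  rw [h1, mul_zero] at h2
  rcases mul_eq_zero.mp h2.symm with h3 | h3
  · exact zc_ne V (lamp_of c hi) h3
  · exact h0 h3

/-- The form of a vanishing exponent. -/
theorem eq_zero_form {i : Fin (R b)} (hi : c.lam i.succ = 0) :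
    (c.lam 0 : K) * L.ζ b i.succ = L.σ b * c.η i := by
  have h1 := c.eqη i
  rw [hi, Int.cast_zero, zero_mul, sub_zero] at h1
  exact h1

theorem vζ_form {i : Fin (R b)} (hi : c.lam i.succ = 0) :
    V.valuation (L.ζ b i.succ) = V.valuation (L.σ b) * V.valuation (c.η i) := by
  have h1 := congrArg V.valuation (eq_zero_form c hi)
  rw [map_mul, map_mul, vlam c.lam0, one_mul] at h1
  exact h1

theorem lam_m (hσ : V.valuation (L.σ b) < 1) : c.lam (L.m b) ≠ 0 := by
  intro h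
  rcases Fin.eq_zero_or_eq_succ (L.m b) with hm | ⟨m, hm⟩
  · rw [hm] at h
    exact lam0_ne c h
  · rw [hm] at h
    have h1 := vζ_form c h
    rw [← hm, L.ζm, map_one] at h1
    have h2 : V.valuation (L.σ b) * V.valuation (c.η m) < 1 :=
      mul_lt_one_of_lt_of_le hσ (c.vη m)
    rw [← h1] at h2
    exact lt_irrefl _ h2

include c in
theorem vω (hσ : V.valuation (L.σ b) < 1) : V.valuation (L.σ b / L.ζ b 0) < 1 := by
  rw [map_div₀, vζ_zero c hσ, div_one]
  exact hσ

theorem vYC (hσ : V.valuation (L.σ b) < 1) (θ : Tc (R b)) : V.valuation (c.YC θ) ≤ 1 := by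
  rcases θ with θ | i
  · exact (vω c hσ).le
  · exact c.vη i

theorem eq_form (i : Fin (R b)) : (c.lam 0 : K) * L.ζ b i.succ =
    L.ζ b 0 * (c.lam i.succ + L.σ b / L.ζ b 0 * c.η i) := by
  have h1 := c.eqη i
  have h2 := L.ζ0 b 0
  field_simp
  linear_combination h1

theorem sum_η : ∑ i, c.η i = 0 := by
  have h1 : L.σ b * ∑ i, c.η i = 0 := by
    rw [Finset.mul_sum, ← Finset.sum_congr rfl fun i _ => c.eqη i, Finset.sum_sub_distrib,
      ← Finset.mul_sum, ← Finset.sum_mul]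
    have h2 := L.ζs b
    rw [Fin.sum_univ_succ] at h2
    have h3 : (c.lam 0 : K) + ∑ i : Fin (R b), (c.lam i.succ : K) = 0 := by
      have h4 := congrArg (Int.cast : ℤ → K) c.lams
      rw [Int.cast_sum, Int.cast_zero, Fin.sum_univ_succ] at h4
      exact h4
    linear_combination (c.lam 0 : K) * h2 - L.ζ b 0 * h3
  exact (mul_eq_zero.mp h1).resolve_left (L.σ0 b)

/-- The coefficients of the linear part of the relation of the second order. -/
def Circ.fJ (c : Circ L b) (i : Fin (R b + 1)) : ZMod p := if c.lam i = 0 then -(c.lam 0 : ZMod p)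
  else 0

theorem sum_fJ : ∑ i, algebraMap (ZMod p) K (c.fJ i) * (L.ζ b i / L.ζ b 0) =
    L.σ b / L.ζ b 0 * ∑ i, if c.lam (Fin.succ i) = 0 then 0 else c.η i := by
  have h1 : ∀ i : Fin (R b), algebraMap (ZMod p) K (c.fJ i.succ) * (L.ζ b i.succ / L.ζ b 0) =
      L.σ b / L.ζ b 0 * ((if c.lam (Fin.succ i) = 0 then 0 else c.η i) - c.η i) := by
    intro i
    by_cases hi : c.lam i.succ = 0
    · have h2 := eq_zero_form c hi
      rw [Circ.fJ, if_pos hi, if_pos hi, map_neg, map_intCast]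
      have h3 := L.ζ0 b 0
      field_simp
      linear_combination -h2
    · rw [Circ.fJ, if_neg hi, if_neg hi, map_zero, zero_mul, sub_self, mul_zero]
  rw [Fin.sum_univ_succ, Finset.sum_congr rfl fun i _ => h1 i, ← Finset.mul_sum,
    Finset.sum_sub_distrib, sum_η c, sub_zero, Circ.fJ, if_neg (lam0_ne c), map_zero, zero_mul,
    zero_add]

/-- The relation of the second order. -/
theorem rel_second (q : Ci p c.lam) :
    ∑ i, algebraMap (ZMod p) K (c.fJ i) * (L.ζ b i / L.ζ b 0) +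
      (L.σ b / L.ζ b 0) ^ 2 * aeval c.YC q.Q =
    cond c.dn (L.y c.qd * mon L.t c.κd) 0 * aeval c.YC q.P := by
  obtain ⟨h1, h2⟩ := q.g K c.YC
  have hl : ∀ i, c.lam i ≠ 0 → (c.lam i : K) ≠ 0 := fun i hi => lam_ne (V := V) (lamp_of c hi)
  have hl0 : (c.lam 0 : K) ≠ 0 := lam_ne (V := V) c.lam0
  have hu : ∀ i : Fin (R b), c.lam i.succ ≠ 0 → (c.lam i.succ : K) *
      (1 + L.σ b / L.ζ b 0 * c.η i * (c.lam i.succ : K)⁻¹) =
      c.lam i.succ + L.σ b / L.ζ b 0 * c.η i := by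
    intro i hi
    have h3 := hl i.succ hi
    field_simp
  have hu0 : ∀ i : Fin (R b), c.lam i.succ ≠ 0 →
      1 + L.σ b / L.ζ b 0 * c.η i * (c.lam i.succ : K)⁻¹ ≠ 0 := by
    intro i hi h3
    have h4 := eq_form c i
    rw [← hu i hi, h3, mul_zero, mul_zero] at h4
    exact mul_ne_zero hl0 (L.ζ0 _ _) h4
  have h3 := mon_circuit c.lam (L.ζ b)
    (fun i => 1 + L.σ b / L.ζ b 0 * c.η i * (c.lam i.succ : K)⁻¹) hl0
    (L.ζ0 b 0) hu0 c.lams fun i hi => by rw [hu i hi]; exact eq_form c i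
  have h3' : (∏ i, L.ζ b i ^ c.lam i) = mon (L.ζ b) c.lam := rfl
  rw [h3', c.eqd] at h3
  have hc0 : (∏ i, (c.lam i : K) ^ c.lam i) ≠ 0 :=
    Finset.prod_ne_zero_iff.mpr fun i _ => by
      by_cases hi : c.lam i = 0
      · rw [hi, zpow_zero]; exact one_ne_zero
      · exact zpow_ne_zero _ (hl i hi)
  rw [mul_assoc] at h3
  have h4 := mul_left_cancel₀ hc0 h3
  rw [sum_fJ c]
  refine h1.symm.trans ?_
  rw [h2]
  show (∏ i : Fin (R b), (1 + L.σ b / L.ζ b 0 * c.η i * (c.lam i.succ : K)⁻¹) ^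
      (c.lam i.succ).toNat) -
    ∏ i : Fin (R b), (1 + L.σ b / L.ζ b 0 * c.η i * (c.lam i.succ : K)⁻¹) ^
      (-c.lam i.succ).toNat = _ *
      ∏ i : Fin (R b), (1 + L.σ b / L.ζ b 0 * c.η i * (c.lam i.succ : K)⁻¹) ^
        (-c.lam i.succ).toNat
  rw [← h4]
  ring

/-- The point of the residue field. -/
noncomputable abbrev Circ.yr : Tc (R b) → ResidueField V := fun θ => resv V (c.YC θ)

theorem yr_ω (hσ : V.valuation (L.σ b) < 1) : c.yr (Sum.inl ()) = 0 :=
  (resv_eq_zero_iff (vω c hσ).le).mpr (vω c hσ)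

theorem yr_sum : ∑ i, c.yr (Sum.inr i) = 0 := by
  have h4 := (resv_aevalp V c.η c.vη (∑ i, X i : MvPolynomial (Fin (R b)) (ZMod p))).2
  rw [map_sum, map_sum] at h4
  simp only [aeval_X] at h4
  rw [sum_η c, resv_zero] at h4
  exact h4.symm

theorem yr_i0 : c.yr (Sum.inr c.i0) = 1 := by
  show resv V (c.η c.i0) = 1
  rw [c.ηi0, resv_one]

theorem lam0_res : (c.lam 0 : ResidueField V) ≠ 0 := zc_ne V c.lam0

theorem lams_res : ∑ i, (c.lam i : ResidueField V) = 0 := by
  rw [← Int.cast_sum, c.lams, Int.cast_zero]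

theorem lam_res_iff (i : Fin (R b + 1)) : (c.lam i : ResidueField V) = 0 ↔ c.lam i = 0 := by
  constructor
  · intro h
    by_contra h1
    exact zc_ne V (lamp_of c h1) h
  · intro h
    rw [h, Int.cast_zero]

theorem sum_nz (h : ∀ i, c.lam (Fin.succ i) = 0 → c.yr (Sum.inr i) = 0) :
    (∑ i, if c.lam (Fin.succ i) = 0 then 0 else c.yr (Sum.inr i)) = 0 := by
  refine Eq.trans (Finset.sum_congr rfl fun i _ => ?_) (yr_sum c)
  split_ifs with hi
  · exact (h i hi).symm
  · rfl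

theorem Q_ne (hσ : V.valuation (L.σ b) < 1) (q : Ci p c.lam)
    (h : ∀ i, c.lam (Fin.succ i) = 0 → c.yr (Sum.inr i) = 0) : q.Q ≠ 0 := by
  intro h0
  obtain ⟨h2, E, hE⟩ := (q.s _ c.yr (yr_ω c hσ)).1 (sum_nz c h)
  rw [h0] at hE
  rw [h0, map_zero, mul_zero] at h2
  have h1 := crit (fun i => (c.lam i : ResidueField V)) (lam0_res c) (lams_res c) c.i0
    (fun i => c.yr (Sum.inr i))
    (yr_sum c) (yr_i0 c) 0 0 1 E (by
      rw [one_mul]
      exact neg_eq_zero.mp h2.symm) (fun i => by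
      have h3 := hE i
      rw [map_zero, map_zero] at h3
      by_cases hi : c.lam i.succ = 0
      · exact Or.inl ⟨(lam_res_iff c _).mpr hi, h i hi⟩
      · refine Or.inr ⟨fun h5 => hi ((lam_res_iff c _).mp h5), ?_⟩
        rw [if_neg hi] at h3
        rw [zero_mul, add_zero, one_mul, zero_add, h3])
  exact one_ne_zero h1.2.2

theorem vP (hσ : V.valuation (L.σ b) < 1) (q : Ci p c.lam) :
    V.valuation (aeval c.YC q.P) = 1 := by
  have h1 := resv_aevalp V c.YC (vYC c hσ) q.P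
  rw [← resv_ne_zero_iff h1.1, h1.2, (q.s _ c.yr (yr_ω c hσ)).2.1]
  exact one_ne_zero

end Facts

section Lead

variable [Algebra (ZMod p) (ResidueField V)] {b : B} (c : Circ L b) (q : Ci p c.lam)

/-- The exponents of the quotients of forms. -/
def gJ (A : Type) {B : Type} [DecidableEq B] (R : B → ℕ) (N : ℕ) (b : B) (s : Zx R) :
    Ix A R N → ℤ := EV 0 (Pi.single s 1 - Pi.single ⟨b, 0⟩ 1) 0 0

/-- The exponent of the square. -/
def uJ (A : Type) {B : Type} [DecidableEq B] (R : B → ℕ) (N : ℕ) (b : B) : Ix A R N → ℤ :=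
  EV 0 (Pi.single ⟨b, 0⟩ (-2)) (Pi.single b 2) 0

/-- The coefficients of the relation of the second order. -/
noncomputable def Circ.cJ : Tx R → L.Po :=
  c3 (xt b c.fJ) (rename (emb Nn Dd b) q.Q)
    (cond c.dn (-(X (Sum.inl c.qd) * rename (emb Nn Dd b) q.P)) 0)

/-- The exponents of the relation of the second order. -/
def Circ.xJ : Tx R → Ix A R N → ℤ := x3 (gJ A R N b) (uJ A R N b) (EV c.κd 0 0 0)

theorem mon_gJ (i : Fin (R b + 1)) :
    mon L.τ (gJ A R N b ⟨b, i⟩) = L.ζ b i / L.ζ b 0 := L.mon_zz b i 0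

theorem mon_uJ (L : LD p V A I Dd Nn B R Nw ew M) (b : B) :
    mon L.τ (uJ A R N b) = (L.σ b / L.ζ b 0) ^ 2 := by
  rw [uJ, L.mon_sz]
  exact zpow_natCast _ 2

theorem relJ {Y : Θx R → K} (hY : ∀ θ, Y ⟨b, θ⟩ = c.YC θ) :
    ∑ s, aeval (Sum.elim L.y Y) (c.cJ q s) * mon L.τ (c.xJ s) = 0 := by
  refine (rel_three (y := Sum.elim L.y Y) _ _ _ _ _ _).trans ?_
  rw [sum_xt b _ fun s => mon L.τ (gJ A R N b s), mon_uJ L b, L.mon_t, aeval_rename,
    comp_emb c hY]
  simp only [mon_gJ]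
  have h1 := rel_second c q
  rcases Bool.eq_false_or_eq_true c.dn with h | h
  · rw [cond_t h] at h1 ⊢
    rw [map_neg, map_mul, aeval_X, Sum.elim_inl, aeval_rename, comp_emb c hY]
    linear_combination h1
  · rw [cond_f h] at h1 ⊢
    rw [map_zero]
    linear_combination h1

/-- A leading term of the relation of the second order. -/
structure JL (s₀ : Tx R) : Prop where
  ok : c.cJ q s₀ ≠ 0
  dom : ∀ s, c.cJ q s ≠ 0 → V.valuation (mon L.τ (c.xJ s)) ≤ V.valuation (mon L.τ (c.xJ s₀))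
  alt : (resv V (mon L.τ (uJ A R N b) / mon L.τ (c.xJ s₀)) = 1 ∧
      ∀ i, c.lam (Fin.succ i) = 0 → c.yr (Sum.inr i) = 0) ∨
    (resv V (mon L.τ (uJ A R N b) / mon L.τ (c.xJ s₀)) = 0 ∧ ∃ i : Fin (R b),
      c.lam i.succ = 0 ∧ resv V (mon L.τ (gJ A R N b ⟨b, i.succ⟩) / mon L.τ (c.xJ s₀)) = 1)

theorem exists_JL (hσ : V.valuation (L.σ b) < 1) : ∃ s₀, JL c q s₀ := by
  classical
  -- the value of the last term
  have hd : ∀ B : V.ValueGroup, (∀ i : Fin (R b), c.lam i.succ = 0 →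
      V.valuation (L.ζ b i.succ / L.ζ b 0) ≤ B) → V.valuation ((L.σ b / L.ζ b 0) ^ 2) ≤ B →
      c.dn = true → V.valuation (mon L.t c.κd) ≤ B := by
    intro B h1 h2 h3
    have h4 := congrArg V.valuation (rel_second c q)
    rw [cond_t h3, map_mul, map_mul, c.vqd, one_mul, vP c hσ q, mul_one] at h4
    rw [← h4]
    refine (V.valuation.map_add _ _).trans (max_le ?_ ?_)
    · refine V.valuation.map_sum_le fun i _ => ?_
      refine Fin.cases ?_ (fun i => ?_) i
      · rw [Circ.fJ, if_neg (lam0_ne c), map_zero, zero_mul, map_zero]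
        exact zero_le
      · by_cases hi : c.lam i.succ = 0
        · rw [Circ.fJ, if_pos hi, map_neg, map_intCast, neg_mul, Valuation.map_neg, map_mul,
            vlam c.lam0, one_mul]
          exact h1 i hi
        · rw [Circ.fJ, if_neg hi, map_zero, zero_mul, map_zero]
          exact zero_le
    · rw [map_mul]
      exact (mul_le_of_le_one_right' (resv_aevalp V _ (vYC c hσ) q.Q).1).trans h2
  have hω0 : (L.σ b / L.ζ b 0) ^ 2 ≠ 0 := pow_ne_zero _ (div_ne_zero (L.σ0 b) (L.ζ0 b 0))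
  have hvω0 : V.valuation ((L.σ b / L.ζ b 0) ^ 2) ≠ 0 := (Valuation.ne_zero_iff _).mpr hω0
  by_cases hc : ∀ i : Fin (R b), c.lam i.succ = 0 →
      V.valuation (L.ζ b i.succ / L.ζ b 0) ≤ V.valuation ((L.σ b / L.ζ b 0) ^ 2)
  · have hy : ∀ i, c.lam (Fin.succ i) = 0 → c.yr (Sum.inr i) = 0 := by
      intro i hi
      have h1 := hc i hi
      rw [map_div₀, vζ_zero c hσ, div_one, vζ_form c hi, pow_two, map_mul, map_div₀,
        vζ_zero c hσ, div_one] at h1
      have h2 : V.valuation (c.η i) ≤ V.valuation (L.σ b) :=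
        le_of_mul_le_mul_left h1 (zero_lt_iff.mpr ((Valuation.ne_zero_iff _).mpr (L.σ0 b)))
      have h3 : V.valuation (c.η i) < 1 := h2.trans_lt hσ
      exact (resv_eq_zero_iff h3.le).mpr h3
    refine ⟨Sum.inr true, ?_, ?_, Or.inl ⟨?_, hy⟩⟩
    · show rename (emb Nn Dd b) q.Q ≠ 0
      rw [Ne, map_eq_zero_iff _ (rename_injective _ (emb_inj b))]
      exact Q_ne c hσ q hy
    · rintro (s | _ | _) hs
      · show V.valuation (mon L.τ (gJ A R N b s)) ≤ V.valuation (mon L.τ (uJ A R N b))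
        obtain ⟨b', i⟩ := s
        have hb : b' = b := by
          by_contra hb
          apply hs
          show MvPolynomial.C (xt b c.fJ ⟨b', i⟩) = 0
          rw [xt_ne hb, map_zero]
        subst hb
        have hi : c.lam i = 0 := by
          by_contra hi
          apply hs
          show MvPolynomial.C (xt b' c.fJ ⟨b', i⟩) = 0
          rw [xt_self, Circ.fJ, if_neg hi, map_zero]
        rcases Fin.eq_zero_or_eq_succ i with h0 | ⟨k, hk⟩
        · rw [h0] at hi
          exact absurd hi (lam0_ne c)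
        · subst hk
          rw [mon_gJ, mon_uJ]
          exact hc k hi
      · show V.valuation (mon L.τ (EV c.κd 0 0 0)) ≤ V.valuation (mon L.τ (uJ A R N b))
        have h2 : c.dn = true := by
          rcases Bool.eq_false_or_eq_true c.dn with h | h
          · exact h
          · exfalso
            apply hs
            show cond c.dn _ (0 : L.Po) = 0
            rw [cond_f h]
        rw [L.mon_t, mon_uJ]
        exact hd _ hc le_rfl h2
      · exact le_rfl
    · show resv V (mon L.τ (uJ A R N b) / mon L.τ (uJ A R N b)) = 1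
      rw [div_self (mon_ne_zero L.τ_ne_zero _), resv_one]
  · push Not at hc
    obtain ⟨i1, hi1, hi1'⟩ := hc
    obtain ⟨j, hj, hjm⟩ := Finset.exists_max_image
      (Finset.univ.filter fun i : Fin (R b) => c.lam i.succ = 0)
      (fun i => V.valuation (L.ζ b i.succ / L.ζ b 0))
      ⟨i1, Finset.mem_filter.mpr ⟨Finset.mem_univ _, hi1⟩⟩
    have hj0 : c.lam j.succ = 0 := (Finset.mem_filter.mp hj).2
    have hm : ∀ i : Fin (R b), c.lam i.succ = 0 → V.valuation (L.ζ b i.succ / L.ζ b 0) ≤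
        V.valuation (L.ζ b j.succ / L.ζ b 0) := fun i hi =>
      hjm i (Finset.mem_filter.mpr ⟨Finset.mem_univ _, hi⟩)
    have hlt : V.valuation ((L.σ b / L.ζ b 0) ^ 2) < V.valuation (L.ζ b j.succ / L.ζ b 0) :=
      hi1'.trans_le (hm i1 hi1)
    have hx : c.xJ (Sum.inl ⟨b, j.succ⟩) = gJ A R N b ⟨b, j.succ⟩ := rfl
    refine ⟨Sum.inl ⟨b, j.succ⟩, ?_, ?_, Or.inr ⟨?_, j, hj0, ?_⟩⟩
    · show MvPolynomial.C (xt b c.fJ ⟨b, j.succ⟩) ≠ 0
      rw [xt_self, Circ.fJ, if_pos hj0, Ne, MvPolynomial.C_eq_zero, neg_eq_zero,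
        ZMod.intCast_zmod_eq_zero_iff_dvd]
      exact c.lam0
    · rw [hx, mon_gJ]
      rintro (s | _ | _) hs
      · show V.valuation (mon L.τ (gJ A R N b s)) ≤ _
        obtain ⟨b', i⟩ := s
        have hb : b' = b := by
          by_contra hb
          apply hs
          show MvPolynomial.C (xt b c.fJ ⟨b', i⟩) = 0
          rw [xt_ne hb, map_zero]
        subst hb
        have hi : c.lam i = 0 := by
          by_contra hi
          apply hs
          show MvPolynomial.C (xt b' c.fJ ⟨b', i⟩) = 0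
          rw [xt_self, Circ.fJ, if_neg hi, map_zero]
        rcases Fin.eq_zero_or_eq_succ i with h0 | ⟨k, hk⟩
        · rw [h0] at hi
          exact absurd hi (lam0_ne c)
        · subst hk
          rw [mon_gJ]
          exact hm k hi
      · show V.valuation (mon L.τ (EV c.κd 0 0 0)) ≤ _
        have h2 : c.dn = true := by
          rcases Bool.eq_false_or_eq_true c.dn with h | h
          · exact h
          · exfalso
            apply hs
            show cond c.dn _ (0 : L.Po) = 0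
            rw [cond_f h]
        rw [L.mon_t]
        exact hd _ hm hlt.le h2
      · show V.valuation (mon L.τ (uJ A R N b)) ≤ _
        rw [mon_uJ]
        exact hlt.le
    · rw [hx, mon_gJ, mon_uJ]
      have h1 : V.valuation ((L.σ b / L.ζ b 0) ^ 2 / (L.ζ b j.succ / L.ζ b 0)) < 1 := by
        rw [map_div₀]
        exact (div_lt_one₀ ((zero_le).trans_lt hlt)).mpr hlt
      exact (resv_eq_zero_iff h1.le).mpr h1
    · rw [hx, div_self (mon_ne_zero L.τ_ne_zero _), resv_one]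

end Lead

end Pool.Agent.H96.ZN
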