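import Pool.Agent.H96.ZN.LD

/-!
# The relations of a circuit block at the critical point are suitable
-/

set_option autoImplicit false
set_option linter.unusedSectionVars false

namespace Pool.Agent.H96.ZN

open MvPolynomial IsLocalRing Pool.Agent.H96.Reg Pool.Agent.H96.VL Pool.Agent.H96.W
open Pool.Agent.H96.Z (Ls Ds c2 x2 cl xl isRegular_of_terms rel_two rel_lin Ls_two Ds_two Ls_tt
  Ds_tt Ls_ff Ds_ff Ls_G Ds_G Ls_U Ds_U Ls_V Ds_V Ls_lin Ds_lin mon_zero' cring abs_single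
  abs_zero_le abs_fz_le cS sum_cS)
open Pool.Agent.H96.W2 (BX mem_BX zero_mem_BX single_mem_BX single_one_mem_BX neg_mem_BX)
open Pool.Agent.H96.S (cond_t cond_f zc0 zc_ne resv_aevalp sum_single_eq sum_zero_eq)

/-- The index set of the relations of a block at the critical point. -/
abbrev Sc (R : ℕ) : Type := Unit ⊕ (Fin R ⊕ (Unit ⊕ (Unit ⊕ (Unit ⊕ Unit))))

theorem sum_Sc {r : ℕ} {β : Type} [AddCommMonoid β] (g : Sc r → β) : ∑ j, g j =
    g (Sum.inl ()) + (∑ i, g (Sum.inr (Sum.inl i)) + (g (Sum.inr (Sum.inr (Sum.inl ()))) +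
      (g (Sum.inr (Sum.inr (Sum.inr (Sum.inl ())))) +
        (g (Sum.inr (Sum.inr (Sum.inr (Sum.inr (Sum.inl ()))))) +
          g (Sum.inr (Sum.inr (Sum.inr (Sum.inr (Sum.inr ()))))))))) := by
  have hu : ∀ g : Unit → β, ∑ u, g u = g () := fun g => by
    rw [Finset.univ_unique, Finset.sum_singleton]
  rw [Fintype.sum_sum_type, Fintype.sum_sum_type, Fintype.sum_sum_type, Fintype.sum_sum_type,
    Fintype.sum_sum_type, hu, hu, hu, hu, hu]

section Final

variable {F : Type} [Field F] {R : ℕ}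

/-- The independence of the differentials. -/
theorem final (lam : Fin (R + 1) → F) (hl : lam 0 ≠ 0) (hs : ∑ i, lam i = 0)
    (z : Fin R → Prop) [DecidablePred z] (hzl : ∀ i, lam (Fin.succ i) = 0 ↔ z i)
    (i0 : Fin R) (y : Fin R → F) (hy : ∑ i, y i = 0) (hy0 : y i0 = 1)
    (m : Fin (R + 1)) (hm : lam m ≠ 0) (aT : F) (aZ : Fin R → F) (aL aX aJ Q c : F)
    (f G r : Fin R → F) (hr : ∀ i, ¬ z i → r i ≠ 0)
    (hf : ∀ i, ¬ z i → f i = 0)
    (hS : ∑ i, (if z i then -(aZ i * y i) else 0) + aJ * (2 * Q * c) = 0)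
    (hz0 : aT * (if 0 = m then 1 else 0) +
      ∑ i, (if z i then 0 else aZ i * (-lam (Fin.succ i) * r i)) +
        aJ * (-(∑ i, f i) - 2 * Q * c) = 0)
    (hz : ∀ i, aT * (if Fin.succ i = m then 1 else 0) +
      (if z i then aZ i * y i else aZ i * lam 0) + aJ * f i = 0)
    (hY : ∀ i, (if z i then -aZ i else 0) + aL +
      aX * (if i = i0 then 1 else 0) + aJ * G i = 0)
    (halt : (c = 1 ∧ (∀ i, z i → y i = 0) ∧
        2 * Q = - ∑ i, y i ^ 2 * (lam (Fin.succ i))⁻¹ ∧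
        ∃ E, ∀ i, G i = if z i then 0 else E - y i * (lam (Fin.succ i))⁻¹) ∨
      (c = 0 ∧ (∀ i, G i = 0) ∧ ∃ i, z i ∧ f i ≠ 0)) :
    aT = 0 ∧ (∀ i, aZ i = 0) ∧ aL = 0 ∧ aX = 0 ∧ aJ = 0 := by
  classical
  have hzl' : ∀ i, ¬ z i → lam (Fin.succ i) ≠ 0 := fun i hi h => hi ((hzl i).mp h)
  have hms : ∀ i, z i → Fin.succ i ≠ m := by
    rintro i hi rfl
    exact hm ((hzl i).mpr hi)
  -- the directions of the forms with vanishing exponents
  have hz1 : ∀ i, z i → aZ i * y i = -(aJ * f i) := by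
    intro i hi
    have h1 := hz i
    rw [if_neg (hms i hi), if_pos hi, mul_zero, zero_add] at h1
    linear_combination h1
  have hfs : ∑ i, (if z i then -(aZ i * y i) else 0) = aJ * ∑ i, f i := by
    rw [Finset.mul_sum]
    refine Finset.sum_congr rfl fun i _ => ?_
    by_cases hi : z i
    · rw [if_pos hi, hz1 i hi, neg_neg]
    · rw [if_neg hi, hf i hi, mul_zero]
  rw [hfs] at hS
  have hz2 : ∀ i, ¬ z i → aT * (if Fin.succ i = m then 1 else 0) +
      aZ i * lam 0 = 0 := by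
    intro i hi
    have h1 := hz i
    rw [if_neg hi, hf i hi, mul_zero, add_zero] at h1
    exact h1
  have hz3 : aT * (if 0 = m then 1 else 0) +
      ∑ i, (if z i then 0 else aZ i * (-lam (Fin.succ i) * r i)) = 0 := by
    linear_combination hz0 + hS
  have hZT : (∀ i, ¬ z i → aZ i = 0) ∧ aT = 0 := by
    rcases Fin.eq_zero_or_eq_succ m with hm' | ⟨k, hk⟩
    · have h4 : ∀ i, ¬ z i → aZ i = 0 := by
        intro i hi
        have h5 := hz2 i hi
        rw [if_neg (by rw [hm']; exact Fin.succ_ne_zero i), mul_zero, zero_add] at h5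
        exact (mul_eq_zero.mp h5).resolve_right hl
      refine ⟨h4, ?_⟩
      rw [if_pos hm'.symm, mul_one, sum_zero_eq _ fun j => by
        split_ifs with hj
        · rfl
        · rw [h4 j hj, zero_mul], add_zero] at hz3
      exact hz3
    · have h4 : ∀ i, ¬ z i → i ≠ k → aZ i = 0 := by
        intro i hi hik
        have h5 := hz2 i hi
        rw [if_neg (by rw [hk]; exact fun h => hik (Fin.succ_injective _ h)), mul_zero,
          zero_add] at h5
        exact (mul_eq_zero.mp h5).resolve_right hl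
      have hmk : ¬ z k := fun h => hms k h hk.symm
      have h5 : aZ k = 0 := by
        rw [if_neg (by rw [hk]; exact Ne.symm (Fin.succ_ne_zero k)), mul_zero, zero_add,
          sum_single_eq _ k fun j hj => by
            split_ifs with hj'
            · rfl
            · rw [h4 j hj' hj, zero_mul], if_neg hmk] at hz3
        exact (mul_eq_zero.mp hz3).resolve_right
          (mul_ne_zero (neg_ne_zero.mpr (hzl' k hmk)) (hr k hmk))
      refine ⟨fun i hi => ?_, ?_⟩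
      · by_cases hik : i = k
        · rw [hik, h5]
        · exact h4 i hi hik
      · have h6 := hz2 k hmk
        rw [if_pos hk.symm, h5, zero_mul, add_zero, mul_one] at h6
        exact h6
  obtain ⟨hZ0, hT0⟩ := hZT
  -- the last block
  rcases halt with ⟨hc, hy', hQ, E, hG⟩ | ⟨hc, hG, j, hj, hfj⟩
  · have hJf : aJ * ∑ i, f i = 0 := by
      rw [← hfs]
      refine Finset.sum_eq_zero fun i _ => ?_
      split_ifs with hi
      · rw [hy' i hi, mul_zero, neg_zero]
      · rfl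
    obtain ⟨hL0, hX0, hJ0⟩ := crit lam hl hs i0 y hy hy0 aL aX aJ E (by
      rw [hc, mul_one] at hS
      linear_combination hJf - hS + aJ * hQ) fun i => by
        by_cases hi : z i
        · exact Or.inl ⟨(hzl i).mpr hi, hy' i hi⟩
        · refine Or.inr ⟨hzl' i hi, ?_⟩
          have h1 := hY i
          rw [if_neg hi, hG i, if_neg hi, zero_add] at h1
          exact h1
    refine ⟨hT0, fun i => ?_, hL0, hX0, hJ0⟩
    by_cases hi : z i
    · have h1 := hY i
      rw [if_pos hi, hL0, hX0, hJ0, zero_mul, zero_mul, add_zero, add_zero, add_zero] at h1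
      exact neg_eq_zero.mp h1
    · exact hZ0 i hi
  · rw [hc, mul_zero, mul_zero, add_zero] at hS
    obtain ⟨hL0, hX0⟩ := crit' lam hl hs i0 y hy hy0 aL aX
      (fun i => if z i then aZ i * y i else 0) (by
        rw [← neg_eq_zero, ← Finset.sum_neg_distrib]
        refine Eq.trans (Finset.sum_congr rfl fun i _ => ?_) (hfs.trans hS)
        split_ifs
        · rfl
        · exact neg_zero) (fun i hi => by
        have hi' := (hzl i).mp hi
        rw [if_pos hi']
        have h1 := hY i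
        rw [if_pos hi', hG i, mul_zero, add_zero] at h1
        have h2 : aZ i = aL + aX * (if i = i0 then 1 else 0) := by linear_combination -h1
        rw [h2]) (fun i hi => if_neg fun h => hi ((hzl i).mpr h)) (fun i hi => by
        have h1 := hY i
        rw [if_neg (fun h => hi ((hzl i).mpr h)), hG i, mul_zero, add_zero, zero_add] at h1
        exact h1)
    have hZ1 : ∀ i, aZ i = 0 := by
      intro i
      by_cases hi : z i
      · have h1 := hY i
        rw [if_pos hi, hL0, hX0, hG i, zero_mul, mul_zero, add_zero, add_zero, add_zero] at h1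
        exact neg_eq_zero.mp h1
      · exact hZ0 i hi
    refine ⟨hT0, hZ1, hL0, hX0, ?_⟩
    have h1 := hz1 j hj
    rw [hZ1, zero_mul] at h1
    exact (mul_eq_zero.mp (neg_eq_zero.mp h1.symm)).resolve_right hfj

end Final

variable {p : ℕ} [Fact p.Prime] {K : Type} [Field K] [Algebra (ZMod p) K]
  {V : ValuationSubring K} {A I Dd Nn B : Type} [Fintype A] [DecidableEq A] [Fintype Nn]
  [DecidableEq Nn] [Fintype Dd] [DecidableEq Dd] [Fintype B] [DecidableEq B] {R : B → ℕ} {N : ℕ}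
  {Nw : Fin N → ℕ} {ew : Fin N → Zx R → ℤ} {M M' : ℕ}
  {L : LD p V A I Dd Nn B R Nw ew M}

section Defs

variable {b : B} (c : Circ L b) (q : Ci p c.lam)

/-- The second coefficient of the relation of a form. -/
noncomputable def Circ.kz (i : Fin (R b)) : L.Po :=
  if c.lam i.succ = 0 then -X (Sum.inr ⟨b, Sum.inr i⟩) else
    -(MvPolynomial.C (c.lam (Fin.succ i) : ZMod p) +
        X (Sum.inr ⟨b, Sum.inl ()⟩) * X (Sum.inr ⟨b, Sum.inr i⟩))

/-- The second exponent of the relation of a form. -/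
def Circ.ke (i : Fin (R b)) : Ix A R N → ℤ :=
  if c.lam i.succ = 0 then EV 0 0 (Pi.single b 1) 0 else gz A R N ⟨b, 0⟩

/-- The coefficients of the relations of the block. -/
noncomputable def Circ.kc : Sc (R b) → Tx R → L.Po :=
  Sum.elim (fun _ => c2 _ 1 (-1))
    (Sum.elim (fun i => c2 _ (MvPolynomial.C (c.lam 0 : ZMod p)) (c.kz i))
      (Sum.elim (fun _ => c2 _ 1 (-X (Sum.inr ⟨b, Sum.inl ()⟩)))
        (Sum.elim (fun _ => c2 _ (∑ i, X (Sum.inr ⟨b, Sum.inr i⟩)) 0)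
          (Sum.elim (fun _ => c2 _ (X (Sum.inr ⟨b, Sum.inr c.i0⟩) - 1) 0)
            fun _ => c.cJ q))))

/-- The exponents of the relations of the block. -/
def Circ.kx : Sc (R b) → Tx R → Ix A R N → ℤ :=
  Sum.elim (fun _ => x2 _ (gz A R N ⟨b, L.m b⟩) 0)
    (Sum.elim (fun i => x2 _ (gz A R N ⟨b, i.succ⟩) (c.ke i))
      (Sum.elim (fun _ => x2 _ (EV 0 (Pi.single ⟨b, 0⟩ (-1)) (Pi.single b 1) 0) 0)
        (Sum.elim (fun _ => x2 _ 0 0)
          (Sum.elim (fun _ => x2 _ 0 0)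
            fun _ => c.xJ))))

/-- The leading terms of the relations of the block. -/
def Circ.ks (s₀ : Tx R) : Sc (R b) → Tx R :=
  Sum.elim (fun _ => Sum.inr true) (Sum.elim (fun i => Sum.inr !decide (c.lam (Fin.succ i) = 0))
    (Sum.elim (fun _ => Sum.inr false) (Sum.elim (fun _ => Sum.inr true)
      (Sum.elim (fun _ => Sum.inr true) fun _ => s₀))))

end Defs

section Diff

variable [Algebra (ZMod p) (ResidueField V)] {b : B} (c : Circ L b) (q : Ci p c.lam)
  {Y : Θx R → K}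

theorem hω (hσ : V.valuation (L.σ b) < 1) (hY : ∀ θ, Y ⟨b, θ⟩ = c.YC θ) :
    resv V (Sum.elim L.y Y (Sum.inr ⟨b, Sum.inl ()⟩)) = 0 := by
  rw [Sum.elim_inr, hY]
  exact yr_ω c hσ

/-- The differential of the relation of a form. -/
theorem LsZ (hσ : V.valuation (L.σ b) < 1) (hY : ∀ θ, Y ⟨b, θ⟩ = c.YC θ) (i : Fin (R b))
    (s₀ : Tx R) (α : Ix A R N) :
    Ls V L.τ (Sum.elim L.y Y) (c.kc q (Sum.inr (Sum.inl i))) (c.kx (Sum.inr (Sum.inl i)))
      (c.ks s₀ (Sum.inr (Sum.inl i))) α =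
      if c.lam i.succ = 0 then
        c.yr (Sum.inr i) * ((gz A R N ⟨b, i.succ⟩ α : ℤ) : ResidueField V) -
          c.yr (Sum.inr i) * ((EV (A := A) (R := R) (N := N) 0 0 (Pi.single b 1) 0 α : ℤ) :
            ResidueField V)
      else (c.lam 0 : ResidueField V) * ((gz A R N ⟨b, i.succ⟩ α : ℤ) : ResidueField V) +
        (-(c.lam i.succ : ResidueField V)) * resv V (L.ζ b 0 / L.ζ b i.succ) *
          ((gz A R N ⟨b, 0⟩ α : ℤ) : ResidueField V) := by
  show Ls V L.τ (Sum.elim L.y Y) (c2 _ (MvPolynomial.C (c.lam 0 : ZMod p)) (c.kz i))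
    (x2 _ (gz A R N ⟨b, i.succ⟩) (c.ke i)) (Sum.inr !decide (c.lam (Fin.succ i) = 0)) α = _
  by_cases hi : c.lam i.succ = 0
  · rw [Circ.kz, Circ.ke, if_pos hi, if_pos hi, if_pos hi, decide_eq_true hi]
    refine (Ls_ff L.τ_ne_zero _ _ _ _ α).trans ?_
    have h1 : (c.lam 0 : ResidueField V) * resv V (L.ζ b i.succ / L.σ b) =
        c.yr (Sum.inr i) := by
      have h2 := eq_zero_form c hi
      have h3 : V.valuation (L.ζ b i.succ / L.σ b) ≤ 1 := by
        rw [map_div₀, vζ_form c hi, mul_div_cancel_left₀ _ ((Valuation.ne_zero_iff _).mpr (L.σ0 b))]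
        exact c.vη i
      have h4 : c.η i = aeval (fun _ : Unit => L.ζ b i.succ / L.σ b)
          (MvPolynomial.C (c.lam 0 : ZMod p) * X () : MvPolynomial Unit (ZMod p)) := by
        rw [map_mul, aeval_C, aeval_X, map_intCast, mul_div_assoc', h2,
          mul_div_cancel_left₀ _ (L.σ0 b)]
      show _ = resv V (c.η i)
      rw [h4, (resv_aevalp V (fun _ : Unit => L.ζ b i.succ / L.σ b) (fun _ => h3) _).2, map_mul,
        aeval_C, aeval_X, map_intCast]
    rw [aeval_C, map_intCast, map_neg, aeval_X, Sum.elim_inr, hY, mon_gz, L.mon_s, h1]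
    show c.yr (Sum.inr i) * _ + -c.yr (Sum.inr i) * _ = _
    ring
  · rw [Circ.kz, Circ.ke, if_neg hi, if_neg hi, if_neg hi, decide_eq_false hi]
    refine (Ls_tt L.τ_ne_zero _ _ _ _ α).trans ?_
    rw [aeval_C, map_intCast, map_neg, map_add, aeval_C, map_intCast, map_mul, aeval_X,
      hω c hσ hY, zero_mul, add_zero, mon_gz, mon_gz]

theorem DsZo (i : Fin (R b)) (s₀ : Tx R) (b' : B) (θ : Tc (R b')) (hb : b' ≠ b) :
    Ds V L.τ (Sum.elim L.y Y) (c.kc q (Sum.inr (Sum.inl i))) (c.kx (Sum.inr (Sum.inl i)))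
      (c.ks s₀ (Sum.inr (Sum.inl i))) (Sum.inr ⟨b', θ⟩) = 0 := by
  refine (Ds_two _ _ _ _ _ _).trans ?_
  have h1 : pderiv (Sum.inr ⟨b', θ⟩) (c.kz i) = 0 := by
    rw [Circ.kz]
    split_ifs
    · rw [map_neg, pderiv_X,
        Pi.single_eq_of_ne (fun h => hb (congrArg Sigma.fst (Sum.inr_injective h)).symm), neg_zero]
    · rw [map_neg, map_add, pderiv_C, Derivation.leibniz, pderiv_X,
        pderiv_X, Pi.single_eq_of_ne (fun h => hb (congrArg Sigma.fst (Sum.inr_injective h)).symm),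
        Pi.single_eq_of_ne (fun h => hb (congrArg Sigma.fst (Sum.inr_injective h)).symm),
        smul_zero, smul_zero, add_zero, add_zero, neg_zero]
  rw [h1, pderiv_C, map_zero, zero_mul, zero_mul, add_zero]

theorem DsZy (hσ : V.valuation (L.σ b) < 1) (hY : ∀ θ, Y ⟨b, θ⟩ = c.YC θ) (i k : Fin (R b))
    (s₀ : Tx R) :
    Ds V L.τ (Sum.elim L.y Y) (c.kc q (Sum.inr (Sum.inl i))) (c.kx (Sum.inr (Sum.inl i)))
      (c.ks s₀ (Sum.inr (Sum.inl i))) (Sum.inr ⟨b, Sum.inr k⟩) =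
      if k = i then (if c.lam i.succ = 0 then -1 else 0) else 0 := by
  show Ds V L.τ (Sum.elim L.y Y) (c2 _ (MvPolynomial.C (c.lam 0 : ZMod p)) (c.kz i))
    (x2 _ (gz A R N ⟨b, i.succ⟩) (c.ke i)) (Sum.inr !decide (c.lam (Fin.succ i) = 0)) _ = _
  by_cases hi : c.lam i.succ = 0
  · rw [Circ.kz, if_pos hi, if_pos hi, decide_eq_true hi]
    refine (Ds_ff L.τ_ne_zero _ _ _ _ _).trans ?_
    rw [pderiv_C, map_zero, zero_mul, zero_add, map_neg, pderiv_X]
    by_cases hk : k = i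
    · rw [if_pos hk, hk, Pi.single_eq_same, map_neg, map_one]
    · rw [if_neg hk, Pi.single_eq_of_ne (fun h => hk (by simpa using h.symm)), neg_zero,
        map_zero]
  · rw [Circ.kz, if_neg hi, if_neg hi, ite_self, decide_eq_false hi]
    refine (Ds_tt L.τ_ne_zero _ _ _ _ _).trans ?_
    rw [pderiv_C, map_zero, zero_add, map_neg, map_add, pderiv_C, zero_add, Derivation.leibniz,
      pderiv_X, pderiv_X, Pi.single_eq_of_ne (i' := (Sum.inr ⟨b, Sum.inl ()⟩ : (Nn ⊕ Dd) ⊕ Θx R))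
        (fun h => by simp at h), smul_zero, add_zero, smul_eq_mul, map_neg, map_mul, aeval_X,
      hω c hσ hY, zero_mul, neg_zero, zero_mul]

/-- The ratio of a quotient of forms and the leading term. -/
noncomputable def Circ.ρ (s₀ : Tx R) (i : Fin (R b + 1)) : ResidueField V :=
  algebraMap (ZMod p) (ResidueField V) (c.fJ i) *
    resv V (mon L.τ (gJ A R N b ⟨b, i⟩) / mon L.τ (c.xJ s₀))

/-- The ratio of the square and the leading term. -/
noncomputable def Circ.cc (s₀ : Tx R) : ResidueField V :=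
  resv V (mon L.τ (uJ A R N b) / mon L.τ (c.xJ s₀))

theorem hev (hY : ∀ θ, Y ⟨b, θ⟩ = c.YC θ) (P : MvPolynomial (Tc (R b)) (ZMod p)) :
    aeval (fun l => resv V (Sum.elim L.y Y l)) (rename (emb Nn Dd b) P) = aeval c.yr P := by
  have hrr : (fun l => resv V (Sum.elim L.y Y l)) ∘ emb Nn Dd b = c.yr :=
    funext fun θ => congrArg (resv V) (hY θ)
  rw [aeval_rename, hrr]

/-- The differential of the relation of the second order. -/
theorem LsJ (hY : ∀ θ, Y ⟨b, θ⟩ = c.YC θ) (s₀ : Tx R) (α : Ix A R N) :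
    Ls V L.τ (Sum.elim L.y Y) (c.cJ q) c.xJ s₀ α =
      ∑ i, c.ρ s₀ i * ((gJ A R N b ⟨b, i⟩ α : ℤ) : ResidueField V) +
      (aeval c.yr q.Q * c.cc s₀ * ((uJ A R N b α : ℤ) : ResidueField V) +
      aeval (fun l => resv V (Sum.elim L.y Y l))
        (cond c.dn (-(X (Sum.inl c.qd) * rename (emb Nn Dd b) q.P)) 0 : L.Po) *
        resv V (mon L.τ (EV c.κd 0 0 0) / mon L.τ (c.xJ s₀)) *
        ((EV (A := A) (R := R) (N := N) c.κd 0 0 0 α : ℤ) : ResidueField V)) := by
  refine (Ls_three _ _ _ _ _ _ _ α).trans ?_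
  rw [hev c hY]
  congr 1
  simp only [mul_assoc]
  rw [sum_xt b c.fJ fun s => resv V (mon L.τ (gJ A R N b s) /
    mon L.τ (x3 (gJ A R N b) (uJ A R N b) (EV c.κd 0 0 0) s₀)) *
      ((gJ A R N b s α : ℤ) : ResidueField V)]
  refine Finset.sum_congr rfl fun i _ => ?_
  rw [Circ.ρ, mul_assoc]
  rfl

theorem DsJ_aux (hσ : V.valuation (L.σ b) < 1) (hY : ∀ θ, Y ⟨b, θ⟩ = c.YC θ) (l : (Nn ⊕ Dd) ⊕ Θx R)
    (hl : (∃ i, l = Sum.inr ⟨b, Sum.inr i⟩) ∨ ∃ b' θ, b' ≠ b ∧ l = Sum.inr ⟨b', θ⟩) :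
    aeval (fun l => resv V (Sum.elim L.y Y l)) (pderiv l
      (cond c.dn (-(X (Sum.inl c.qd) * rename (emb Nn Dd b) q.P)) 0 : L.Po)) = 0 := by
  have hd : ∀ i (P : MvPolynomial (Tc (R b)) (ZMod p)),
      pderiv (Sum.inr ⟨b, Sum.inr i⟩) (rename (emb Nn Dd b) P) =
        rename (emb Nn Dd b) (pderiv (Sum.inr i) P) := fun i P =>
    pderiv_rename (emb_inj b) (Sum.inr i) P
  rcases Bool.eq_false_or_eq_true c.dn with h | h
  · rw [cond_t h, map_neg, Derivation.leibniz, pderiv_X, smul_eq_mul, smul_eq_mul]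
    rcases hl with ⟨i, rfl⟩ | ⟨b', θ, hb, rfl⟩
    · rw [Pi.single_eq_of_ne Sum.inl_ne_inr, mul_zero, add_zero, map_neg, map_mul, hd,
        hev c hY, (q.s _ c.yr (yr_ω c hσ)).2.2 _ Sum.inr_ne_inl, mul_zero, neg_zero]
    · rw [Pi.single_eq_of_ne Sum.inl_ne_inr, mul_zero, add_zero, pderiv_emb hb, mul_zero,
        neg_zero, map_zero]
  · rw [cond_f h, map_zero, map_zero]

theorem DsJ (hσ : V.valuation (L.σ b) < 1) (hY : ∀ θ, Y ⟨b, θ⟩ = c.YC θ) (s₀ : Tx R)
    (i : Fin (R b)) :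
    Ds V L.τ (Sum.elim L.y Y) (c.cJ q) c.xJ s₀ (Sum.inr ⟨b, Sum.inr i⟩) =
      aeval c.yr (pderiv (Sum.inr i) q.Q) * c.cc s₀ := by
  refine (Ds_three _ _ _ _ _ _ _ _).trans ?_
  have hd : ∀ P : MvPolynomial (Tc (R b)) (ZMod p),
      pderiv (Sum.inr ⟨b, Sum.inr i⟩) (rename (emb Nn Dd b) P) =
        rename (emb Nn Dd b) (pderiv (Sum.inr i) P) := fun P =>
    pderiv_rename (emb_inj b) (Sum.inr i) P
  rw [DsJ_aux c q hσ hY _ (Or.inl ⟨i, rfl⟩), zero_mul, add_zero, hd, hev c hY]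
  rfl

theorem DsJo (hσ : V.valuation (L.σ b) < 1) (hY : ∀ θ, Y ⟨b, θ⟩ = c.YC θ) (s₀ : Tx R)
    (b' : B) (θ : Tc (R b')) (hb : b' ≠ b) :
    Ds V L.τ (Sum.elim L.y Y) (c.cJ q) c.xJ s₀ (Sum.inr ⟨b', θ⟩) = 0 := by
  refine (Ds_three _ _ _ _ _ _ _ _).trans ?_
  rw [DsJ_aux c q hσ hY _ (Or.inr ⟨b', θ, hb, rfl⟩), zero_mul, add_zero, pderiv_emb hb, map_zero,
    zero_mul]

end Diff

end Pool.Agent.H96.ZN
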