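import Pool.Agent.H96.ZN.LE

/-!
# The relations of a circuit block at the critical point are suitable: the proof
-/

set_option autoImplicit false
set_option linter.unusedSectionVars false

namespace Pool.Agent.H96.ZN

open MvPolynomial IsLocalRing Pool.Agent.H96.Reg Pool.Agent.H96.VL Pool.Agent.H96.W
open Pool.Agent.H96.Z (Ls Ds c2 x2 cl xl isRegular_of_terms rel_two rel_lin Ls_two Ds_two Ls_tt
  Ds_tt Ls_ff Ds_ff Ls_G Ds_G Ls_U Ds_U Ls_V Ds_V Ls_lin Ds_lin mon_zero' cring abs_single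
  abs_zero_le abs_fz_le cS sum_cS)
open Pool.Agent.H96.W2 (BX mem_BX zero_mem_BX single_mem_BX single_one_mem_BX neg_mem_BX)
open Pool.Agent.H96.S (cond_t cond_f zc0 zc_ne resv_aevalp sum_single_eq sum_zero_eq)

variable {p : ℕ} [Fact p.Prime] {K : Type} [Field K] [Algebra (ZMod p) K]
  {V : ValuationSubring K} {A I Dd Nn B : Type} [Fintype A] [DecidableEq A] [Fintype Nn]
  [DecidableEq Nn] [Fintype Dd] [DecidableEq Dd] [Fintype B] [DecidableEq B] {R : B → ℕ} {N : ℕ}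
  {Nw : Fin N → ℕ} {ew : Fin N → Zx R → ℤ} {M M' : ℕ}
  {L : LD p V A I Dd Nn B R Nw ew M}

section EvalJ

variable {b : B}

theorem gJ_w (b : B) (s : Zx R) (c : Fin N) : gJ A R N b s (Sum.inr (Sum.inr (Sum.inr c))) = 0 :=
  rfl

theorem gJ_s (b b' : B) (s : Zx R) : gJ A R N b s (Sum.inr (Sum.inr (Sum.inl b'))) = 0 :=
  rfl

theorem gJ_zo {b' : B} (hb : b' ≠ b) (i : Fin (R b + 1)) (j : Fin (R b' + 1)) :
    gJ A R N b ⟨b, i⟩ (Sum.inr (Sum.inl ⟨b', j⟩)) = 0 := by
  rw [gJ, EV_z, Pi.sub_apply, Pi.single_eq_of_ne (fun h => hb (congrArg Sigma.fst h)),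
    Pi.single_eq_of_ne (fun h => hb (congrArg Sigma.fst h)), sub_zero]

theorem gJ_z0 (i : Fin (R b)) : gJ A R N b ⟨b, i.succ⟩ (Sum.inr (Sum.inl ⟨b, 0⟩)) = -1 := by
  rw [gJ, EV_z, Pi.sub_apply, Pi.single_eq_of_ne (by simpa using (Fin.succ_ne_zero i).symm),
    Pi.single_eq_same, zero_sub]

theorem gJ_zk (i k : Fin (R b)) : gJ A R N b ⟨b, i.succ⟩ (Sum.inr (Sum.inl ⟨b, k.succ⟩)) =
    if i = k then 1 else 0 := by
  rw [gJ, EV_z, Pi.sub_apply, Pi.single_eq_of_ne (i := (⟨b, 0⟩ : Zx R)) (by simp), sub_zero]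
  by_cases h : i = k
  · rw [if_pos h, h, Pi.single_eq_same]
  · rw [if_neg h, Pi.single_eq_of_ne (by simpa using Ne.symm h)]

theorem gJ_mem (h2 : 2 ≤ M') (s : Zx R) : gJ A R N b s ∈ BX (Ix A R N) M' := by
  refine EV_mem abs_fz_le (fun i => ?_) abs_fz_le abs_fz_le
  have h3 : ∀ s' : Zx R, |(Pi.single s' 1 : Zx R → ℤ) i| ≤ 1 := by
    intro s'
    rw [Pi.single_apply]
    split_ifs
    · rw [abs_one]
    · rw [abs_zero]; exact zero_le_one
  have h4 : (2 : ℤ) ≤ M' := by exact_mod_cast h2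
  rw [Pi.sub_apply]
  have h5 := abs_sub ((Pi.single s 1 : Zx R → ℤ) i) ((Pi.single ⟨b, 0⟩ 1 : Zx R → ℤ) i)
  have h6 := h3 s
  have h7 := h3 ⟨b, 0⟩
  linarith

end EvalJ

section Bok

variable [Algebra (ZMod p) (ResidueField V)] {b : B} (c : Circ L b) (q : Ci p c.lam)
  {Y : Θx R → K}

theorem ρ_zero (s₀ : Tx R) : c.ρ s₀ 0 = 0 := by
  rw [Circ.ρ, Circ.fJ, if_neg (lam0_ne c), map_zero, zero_mul]

theorem ρ_nz (s₀ : Tx R) {i : Fin (R b + 1)} (h : c.lam i ≠ 0) : c.ρ s₀ i = 0 := by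
  rw [Circ.ρ, Circ.fJ, if_neg h, map_zero, zero_mul]

theorem LsJ_w (hY : ∀ θ, Y ⟨b, θ⟩ = c.YC θ) (s₀ : Tx R) (c' : Fin N) :
    Ls V L.τ (Sum.elim L.y Y) (c.cJ q) c.xJ s₀ (Sum.inr (Sum.inr (Sum.inr c'))) = 0 := by
  rw [LsJ c q hY, uJ, EV_w, EV_w, Pi.zero_apply, Int.cast_zero, mul_zero, mul_zero,
    add_zero, add_zero]
  exact Finset.sum_eq_zero fun i _ => by rw [gJ_w, Int.cast_zero, mul_zero]

theorem LsJ_so (hY : ∀ θ, Y ⟨b, θ⟩ = c.YC θ) (s₀ : Tx R) (b' : B) (hb : b' ≠ b) :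
    Ls V L.τ (Sum.elim L.y Y) (c.cJ q) c.xJ s₀ (Sum.inr (Sum.inr (Sum.inl b'))) = 0 := by
  rw [LsJ c q hY, uJ, EV_s, EV_s, Pi.single_eq_of_ne hb, Pi.zero_apply, Int.cast_zero, mul_zero,
    mul_zero, add_zero, add_zero]
  exact Finset.sum_eq_zero fun i _ => by rw [gJ_s, Int.cast_zero, mul_zero]

theorem LsJ_s (hY : ∀ θ, Y ⟨b, θ⟩ = c.YC θ) (s₀ : Tx R) :
    Ls V L.τ (Sum.elim L.y Y) (c.cJ q) c.xJ s₀ (Sum.inr (Sum.inr (Sum.inl b))) =
      2 * aeval c.yr q.Q * c.cc s₀ := by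
  rw [LsJ c q hY, uJ, EV_s, EV_s, Pi.single_eq_same, Pi.zero_apply, Int.cast_zero,
    mul_zero, add_zero, Finset.sum_eq_zero fun i _ => by rw [gJ_s, Int.cast_zero, mul_zero],
    zero_add, Int.cast_ofNat]
  ring

theorem LsJ_zo (hY : ∀ θ, Y ⟨b, θ⟩ = c.YC θ) (s₀ : Tx R) (b' : B) (i : Fin (R b' + 1))
    (hb : b' ≠ b) :
    Ls V L.τ (Sum.elim L.y Y) (c.cJ q) c.xJ s₀ (Sum.inr (Sum.inl ⟨b', i⟩)) = 0 := by
  rw [LsJ c q hY, uJ, EV_z, EV_z, Pi.single_eq_of_ne (fun h => hb (congrArg Sigma.fst h)),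
    Pi.zero_apply, Int.cast_zero, mul_zero, mul_zero, add_zero, add_zero]
  exact Finset.sum_eq_zero fun i _ => by rw [gJ_zo hb, Int.cast_zero, mul_zero]

theorem LsJ_z0 (hY : ∀ θ, Y ⟨b, θ⟩ = c.YC θ) (s₀ : Tx R) :
    Ls V L.τ (Sum.elim L.y Y) (c.cJ q) c.xJ s₀ (Sum.inr (Sum.inl ⟨b, 0⟩)) =
      -(∑ i : Fin (R b), c.ρ s₀ i.succ) - 2 * aeval c.yr q.Q * c.cc s₀ := by
  rw [LsJ c q hY, uJ, EV_z, EV_z, Pi.single_eq_same, Pi.zero_apply, Int.cast_zero,
    mul_zero, add_zero, Fin.sum_univ_succ, ρ_zero, zero_mul, zero_add,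
    Finset.sum_congr rfl fun i _ => by rw [gJ_z0, Int.cast_neg, Int.cast_one, mul_neg, mul_one],
    Finset.sum_neg_distrib, Int.cast_neg, Int.cast_ofNat]
  ring

theorem LsJ_zk (hY : ∀ θ, Y ⟨b, θ⟩ = c.YC θ) (s₀ : Tx R) (k : Fin (R b)) :
    Ls V L.τ (Sum.elim L.y Y) (c.cJ q) c.xJ s₀ (Sum.inr (Sum.inl ⟨b, k.succ⟩)) =
      c.ρ s₀ k.succ := by
  rw [LsJ c q hY, uJ, EV_z, EV_z, Pi.single_eq_of_ne (by simp), Pi.zero_apply, Int.cast_zero,
    mul_zero, mul_zero, add_zero, add_zero, Fin.sum_univ_succ, ρ_zero, zero_mul, zero_add,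
    sum_single_eq _ k fun i hi => by rw [gJ_zk, if_neg hi, Int.cast_zero, mul_zero], gJ_zk,
    if_pos rfl, Int.cast_one, mul_one]

/-- **The relations of a circuit block at the critical point.** -/
theorem bokC (h2 : 2 ≤ M') (hM : M ≤ M') (hσ : V.valuation (L.σ b) < 1)
    (hY : ∀ θ, Y ⟨b, θ⟩ = c.YC θ) {s₀ : Tx R} (hJL : JL c q s₀) :
    Bok L Y M' b (c.kc q) c.kx (c.ks s₀) := by
  classical
  have hL1 : |(1 : ℤ)| ≤ (M' : ℤ) := one_le_of h2
  have hL1' : |(-1 : ℤ)| ≤ (M' : ℤ) := by rwa [abs_neg]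
  have hL2 : |(2 : ℤ)| ≤ (M' : ℤ) := by
    rw [show |(2 : ℤ)| = ((2 : ℕ) : ℤ) from rfl]
    exact_mod_cast h2
  have hL2' : |(-2 : ℤ)| ≤ (M' : ℤ) := by rwa [abs_neg]
  have h3 : ∀ x : ℤ, |x| ≤ M → |x| ≤ M' := fun x hx => hx.trans (by exact_mod_cast hM)
  have hm0 := lam_m c hσ
  -- the differentials
  have hT : ∀ α, Ls V L.τ (Sum.elim L.y Y) (c.kc q (Sum.inl ())) (c.kx (Sum.inl ()))
      (c.ks s₀ (Sum.inl ())) α = ((gz A R N ⟨b, L.m b⟩ α : ℤ) : ResidueField V) :=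
    fun α => Ls_TT b α
  have hT' : ∀ l, Ds V L.τ (Sum.elim L.y Y) (c.kc q (Sum.inl ())) (c.kx (Sum.inl ()))
      (c.ks s₀ (Sum.inl ())) l = 0 := fun l => Ds_U L.τ_ne_zero l
  have hZ := LsZ c q hσ hY
  have hI : ∀ α, Ls V L.τ (Sum.elim L.y Y) (c.kc q (Sum.inr (Sum.inr (Sum.inl ()))))
      (c.kx (Sum.inr (Sum.inr (Sum.inl ())))) (c.ks s₀ (Sum.inr (Sum.inr (Sum.inl ())))) α =
      0 := by
    intro α
    refine Ls_V ?_ _ α
    rw [L.mon_sz, zpow_one]
    exact vω c hσ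
  have hI' : ∀ l, Ds V L.τ (Sum.elim L.y Y) (c.kc q (Sum.inr (Sum.inr (Sum.inl ()))))
      (c.kx (Sum.inr (Sum.inr (Sum.inl ())))) (c.ks s₀ (Sum.inr (Sum.inr (Sum.inl ())))) l =
      if l = Sum.inr ⟨b, Sum.inl ()⟩ then (-1 : ResidueField V) else 0 := fun l => Ds_V _ l
  have hΛ : ∀ α, Ls V L.τ (Sum.elim L.y Y) (c.kc q (Sum.inr (Sum.inr (Sum.inr (Sum.inl ())))))
      (c.kx (Sum.inr (Sum.inr (Sum.inr (Sum.inl ())))))
      (c.ks s₀ (Sum.inr (Sum.inr (Sum.inr (Sum.inl ()))))) α = 0 := fun α => Ls_G _ _ α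
  have hX : ∀ α, Ls V L.τ (Sum.elim L.y Y)
      (c.kc q (Sum.inr (Sum.inr (Sum.inr (Sum.inr (Sum.inl ()))))))
      (c.kx (Sum.inr (Sum.inr (Sum.inr (Sum.inr (Sum.inl ()))))))
      (c.ks s₀ (Sum.inr (Sum.inr (Sum.inr (Sum.inr (Sum.inl ())))))) α = 0 := fun α => Ls_G _ _ α
  have hΛ' : ∀ i, Ds V L.τ (Sum.elim L.y Y)
      (c.kc q (Sum.inr (Sum.inr (Sum.inr (Sum.inl ())))))
      (c.kx (Sum.inr (Sum.inr (Sum.inr (Sum.inl ())))))
      (c.ks s₀ (Sum.inr (Sum.inr (Sum.inr (Sum.inl ())))))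
      (Sum.inr ⟨b, Sum.inr i⟩) = 1 := by
    intro i
    refine (Ds_G _ _).trans ?_
    rw [map_sum, map_sum, Finset.sum_eq_single i]
    · rw [pderiv_X, Pi.single_eq_same, map_one]
    · intro j _ hj
      rw [pderiv_X, Pi.single_eq_of_ne (fun h => hj (by simpa using h)), map_zero]
    · intro h; exact absurd (Finset.mem_univ _) h
  have hΛo : ∀ b' θ, b' ≠ b → Ds V L.τ (Sum.elim L.y Y)
      (c.kc q (Sum.inr (Sum.inr (Sum.inr (Sum.inl ())))))
      (c.kx (Sum.inr (Sum.inr (Sum.inr (Sum.inl ())))))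
      (c.ks s₀ (Sum.inr (Sum.inr (Sum.inr (Sum.inl ())))))
      (Sum.inr ⟨b', θ⟩) = 0 := by
    intro b' θ hb
    refine (Ds_G _ _).trans ?_
    rw [map_sum, map_sum]
    refine Finset.sum_eq_zero fun i _ => ?_
    rw [pderiv_X, Pi.single_eq_of_ne
      (fun h => hb (congrArg Sigma.fst (Sum.inr_injective h)).symm), map_zero]
  have hX' : ∀ i, Ds V L.τ (Sum.elim L.y Y)
      (c.kc q (Sum.inr (Sum.inr (Sum.inr (Sum.inr (Sum.inl ()))))))
      (c.kx (Sum.inr (Sum.inr (Sum.inr (Sum.inr (Sum.inl ()))))))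
      (c.ks s₀ (Sum.inr (Sum.inr (Sum.inr (Sum.inr (Sum.inl ()))))))
      (Sum.inr ⟨b, Sum.inr i⟩) = if i = c.i0 then 1 else 0 := by
    intro i
    refine (Ds_G _ _).trans ?_
    rw [map_sub, ← MvPolynomial.C_1, pderiv_C, sub_zero, pderiv_X]
    by_cases hi : i = c.i0
    · rw [if_pos hi, hi, Pi.single_eq_same, map_one]
    · rw [if_neg hi, Pi.single_eq_of_ne (fun h => hi (by simpa using h.symm)), map_zero]
  have hXo : ∀ b' θ, b' ≠ b → Ds V L.τ (Sum.elim L.y Y)
      (c.kc q (Sum.inr (Sum.inr (Sum.inr (Sum.inr (Sum.inl ()))))))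
      (c.kx (Sum.inr (Sum.inr (Sum.inr (Sum.inr (Sum.inl ()))))))
      (c.ks s₀ (Sum.inr (Sum.inr (Sum.inr (Sum.inr (Sum.inl ()))))))
      (Sum.inr ⟨b', θ⟩) = 0 := by
    intro b' θ hb
    refine (Ds_G _ _).trans ?_
    rw [map_sub, ← MvPolynomial.C_1, pderiv_C, sub_zero, pderiv_X, Pi.single_eq_of_ne
      (fun h => hb (congrArg Sigma.fst (Sum.inr_injective h)).symm), map_zero]
  have hJ := LsJ c q hY s₀
  refine ⟨?_, ?_, ?_, ?_, ?_, ?_, ?_, ?_, ?_⟩
  · rintro (j | i | j | j | j | j) s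
    · rcases s with s | _ | _
      · exact zero_mem_BX
      · exact zero_mem_BX
      · exact gz_mem h2 _
    · rcases s with s | _ | _
      · exact zero_mem_BX
      · show c.ke i ∈ BX (Ix A R N) M'
        rw [Circ.ke]
        split_ifs
        · exact EV_mem abs_fz_le abs_fz_le (abs_single hL1 _) abs_fz_le
        · exact gz_mem h2 _
      · exact gz_mem h2 _
    · rcases s with s | _ | _
      · exact zero_mem_BX
      · exact zero_mem_BX
      · exact EV_mem abs_fz_le (abs_single hL1' _) (abs_single hL1 _) abs_fz_le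
    · rcases s with s | _ | _ <;> exact zero_mem_BX
    · rcases s with s | _ | _ <;> exact zero_mem_BX
    · rcases s with s | _ | _
      · exact gJ_mem h2 s
      · exact EV_mem (fun a => h3 _ (c.κdM a)) abs_fz_le abs_fz_le abs_fz_le
      · exact EV_mem abs_fz_le (abs_single hL2' _) (abs_single hL2 _) abs_fz_le
  · rintro (j | i | j | j | j | j)
    · refine (rel_two (y := Sum.elim L.y Y) _ _ _ _).trans ?_
      rw [mon_gz, L.ζm, mon_zero', map_neg, map_one]; ring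
    · refine (rel_two (y := Sum.elim L.y Y) _ _ _ _).trans ?_
      by_cases hi : c.lam i.succ = 0
      · rw [Circ.kz, Circ.ke, if_pos hi, if_pos hi, mon_gz, L.mon_s, aeval_C, map_intCast,
          map_neg, aeval_X, Sum.elim_inr, hY]
        show (c.lam 0 : K) * L.ζ b i.succ + -(c.η i) * L.σ b = 0
        linear_combination eq_zero_form c hi
      · rw [Circ.kz, Circ.ke, if_neg hi, if_neg hi,
          mon_gz, mon_gz, aeval_C, map_intCast, map_neg, map_add, aeval_C, map_intCast, map_mul,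
          aeval_X, aeval_X, Sum.elim_inr, Sum.elim_inr, hY, hY]
        show (c.lam 0 : K) * L.ζ b i.succ +
          -((c.lam i.succ : K) + L.σ b / L.ζ b 0 * c.η i) * L.ζ b 0 = 0
        linear_combination eq_form c i
    · refine (rel_two (y := Sum.elim L.y Y) _ _ _ _).trans ?_
      rw [L.mon_sz, zpow_one, mon_zero', map_one, map_neg, aeval_X, Sum.elim_inr, hY]
      show 1 * (L.σ b / L.ζ b 0) + -(L.σ b / L.ζ b 0) * 1 = 0
      ring
    · refine (rel_two (y := Sum.elim L.y Y) _ _ _ _).trans ?_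
      rw [map_zero, zero_mul, add_zero, map_sum]
      simp only [aeval_X, Sum.elim_inr, hY]
      have h1 : ∑ i, c.YC (Sum.inr i) = 0 := sum_η c
      rw [h1, zero_mul]
    · refine (rel_two (y := Sum.elim L.y Y) _ _ _ _).trans ?_
      rw [map_zero, zero_mul, add_zero, map_sub, aeval_X, map_one, Sum.elim_inr, hY]
      show (c.η c.i0 - 1) * _ = 0
      rw [c.ηi0, sub_self, zero_mul]
    · exact relJ c q hY
  · rintro (j | i | j | j | j | j)
    · exact Or.inl one_ne_zero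
    · left
      show c2 (Zx R) (MvPolynomial.C (c.lam 0 : ZMod p)) (c.kz i)
        (Sum.inr !decide (c.lam (Fin.succ i) = 0)) ≠ 0
      by_cases hi : c.lam i.succ = 0
      · rw [decide_eq_true hi, Circ.kz, if_pos hi]
        exact neg_ne_zero.mpr (X_ne_zero _)
      · rw [decide_eq_false hi]
        show MvPolynomial.C (c.lam 0 : ZMod p) ≠ 0
        rw [Ne, MvPolynomial.C_eq_zero, ZMod.intCast_zmod_eq_zero_iff_dvd]
        exact c.lam0
    · exact Or.inl (neg_ne_zero.mpr (X_ne_zero _))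
    · left
      show (∑ i, X (Sum.inr ⟨b, Sum.inr i⟩) : L.Po) ≠ 0
      intro h
      have h1 := congrArg (aeval (fun l => if l = (Sum.inr ⟨b, Sum.inr c.i0⟩ :
        (Nn ⊕ Dd) ⊕ Θx R) then (1 : ZMod p) else 0)) h
      rw [map_zero, map_sum] at h1
      simp only [aeval_X] at h1
      rw [Finset.sum_eq_single c.i0] at h1
      · rw [if_pos rfl] at h1
        exact one_ne_zero h1
      · intro i _ hi
        rw [if_neg (fun h => hi (by simpa using h))]
      · intro h; exact absurd (Finset.mem_univ _) h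
    · left
      show (X (Sum.inr ⟨b, Sum.inr c.i0⟩) - 1 : L.Po) ≠ 0
      intro h
      have h1 := congrArg (aeval (fun _ => (0 : ZMod p))) h
      rw [map_zero, map_sub, aeval_X, map_one, zero_sub] at h1
      exact one_ne_zero (neg_eq_zero.mp h1)
    · exact Or.inl hJL.ok
  · rintro (j | i | j | j | j | j) s hs
    · rcases s with s | _ | _
      · exact absurd rfl hs
      · show V.valuation (mon L.τ 0) ≤ V.valuation (mon L.τ (gz A R N ⟨b, L.m b⟩))
        rw [mon_zero', mon_gz, L.ζm]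
      · exact le_rfl
    · show V.valuation (mon L.τ (x2 (Zx R) (gz A R N ⟨b, i.succ⟩) (c.ke i) s)) ≤
        V.valuation (mon L.τ (x2 (Zx R) (gz A R N ⟨b, i.succ⟩) (c.ke i)
          (Sum.inr !decide (c.lam (Fin.succ i) = 0))))
      by_cases hi : c.lam i.succ = 0
      · rw [decide_eq_true hi]
        rcases s with s | _ | _
        · exact absurd rfl hs
        · exact le_rfl
        · show V.valuation (mon L.τ (gz A R N ⟨b, i.succ⟩)) ≤ V.valuation (mon L.τ (c.ke i))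
          rw [Circ.ke, if_pos hi, mon_gz, L.mon_s, vζ_form c hi]
          exact mul_le_of_le_one_right' (c.vη i)
      · rw [decide_eq_false hi]
        rcases s with s | _ | _
        · exact absurd rfl hs
        · show V.valuation (mon L.τ (c.ke i)) ≤ V.valuation (mon L.τ (gz A R N ⟨b, i.succ⟩))
          rw [Circ.ke, if_neg hi, mon_gz, mon_gz, vζ_one c hσ _ hi, vζ_zero c hσ]
        · exact le_rfl
    · rcases s with s | _ | _
      · exact absurd rfl hs
      · exact le_rfl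
      · show V.valuation (mon L.τ (EV 0 (Pi.single ⟨b, 0⟩ (-1)) (Pi.single b 1) 0)) ≤
          V.valuation (mon L.τ 0)
        rw [L.mon_sz, zpow_one, mon_zero', map_one]
        exact (vω c hσ).le
    · rcases s with s | _ | _
      · exact absurd rfl hs
      · exact absurd rfl hs
      · exact le_rfl
    · rcases s with s | _ | _
      · exact absurd rfl hs
      · exact absurd rfl hs
      · exact le_rfl
    · exact hJL.dom s hs
  · rintro (j | i | j | j | j | j) c'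
    · exact (hT _).trans (zc0 V)
    · refine (hZ _ _ _).trans ?_
      rw [gz, gz, EV_w, EV_w, EV_w, Pi.zero_apply, Int.cast_zero, mul_zero, mul_zero, mul_zero,
        add_zero, sub_zero, ite_self]
    · exact hI _
    · exact hΛ _
    · exact hX _
    · exact LsJ_w c q hY s₀ c'
  · rintro (j | i | j | j | j | j) b' i' hb
    · refine (hT _).trans ?_
      rw [gz_ne (fun h => hb (congrArg Sigma.fst h)), Int.cast_zero]
    · refine (hZ _ _ _).trans ?_
      rw [gz_ne (fun h => hb (congrArg Sigma.fst h)), gz_ne (fun h => hb (congrArg Sigma.fst h)),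
        EV_z, Pi.zero_apply,
        Int.cast_zero, mul_zero, mul_zero, mul_zero, add_zero, sub_zero, ite_self]
    · exact hI _
    · exact hΛ _
    · exact hX _
    · exact LsJ_zo c q hY s₀ b' i' hb
  · rintro (j | i | j | j | j | j) b' hb
    · exact (hT _).trans (zc0 V)
    · refine (hZ _ _ _).trans ?_
      rw [gz, gz, EV_s, EV_s, EV_s, Pi.zero_apply, Pi.single_eq_of_ne hb, Int.cast_zero, mul_zero,
        mul_zero, mul_zero, add_zero, sub_zero, ite_self]
    · exact hI _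
    · exact hΛ _
    · exact hX _
    · exact LsJ_so c q hY s₀ b' hb
  · rintro (j | i | j | j | j | j) b' θ hb
    · exact hT' _
    · exact DsZo c q _ _ _ _ hb
    · refine (hI' _).trans ?_
      rw [if_neg (fun h => hb (congrArg Sigma.fst (Sum.inr_injective h)))]
    · exact hΛo _ _ hb
    · exact hXo _ _ hb
    · exact DsJo c q hσ hY s₀ b' θ hb
  · intro a h1 h2' h3'
    have hJs := LsJ_s c q hY s₀
    have hJ0 := LsJ_z0 c q hY s₀
    have hJk := LsJ_zk c q hY s₀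
    obtain ⟨aT, haT⟩ : ∃ f, f = a (Sum.inl ()) := ⟨_, rfl⟩
    obtain ⟨aZ, haZ⟩ : ∃ f : Fin (R b) → ResidueField V, f = fun i => a (Sum.inr (Sum.inl i)) :=
      ⟨_, rfl⟩
    obtain ⟨aI, haI⟩ : ∃ f, f = a (Sum.inr (Sum.inr (Sum.inl ()))) := ⟨_, rfl⟩
    obtain ⟨aL, haL⟩ : ∃ f, f = a (Sum.inr (Sum.inr (Sum.inr (Sum.inl ())))) := ⟨_, rfl⟩
    obtain ⟨aX, haX⟩ : ∃ f, f = a (Sum.inr (Sum.inr (Sum.inr (Sum.inr (Sum.inl ()))))) := ⟨_, rfl⟩
    obtain ⟨aJ, haJ⟩ : ∃ f, f = a (Sum.inr (Sum.inr (Sum.inr (Sum.inr (Sum.inr ()))))) := ⟨_, rfl⟩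
    have haZ' : ∀ i, a (Sum.inr (Sum.inl i)) = aZ i := fun i => by rw [haZ]
    have hJc : c.kc q (Sum.inr (Sum.inr (Sum.inr (Sum.inr (Sum.inr ()))))) = c.cJ q := rfl
    have hJx : c.kx (Sum.inr (Sum.inr (Sum.inr (Sum.inr (Sum.inr ()))))) = c.xJ := rfl
    have hJ₀ : c.ks s₀ (Sum.inr (Sum.inr (Sum.inr (Sum.inr (Sum.inr ()))))) = s₀ := rfl
    -- the direction of `σ`
    have hS : ∑ i, (if c.lam (Fin.succ i) = 0 then -(aZ i * c.yr (Sum.inr i)) else 0) +
        aJ * (2 * aeval c.yr q.Q * c.cc s₀) = 0 := by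
      rw [sum_Sc, hT, hI, hΛ, hX, hJc, hJx, hJ₀, hJs, ← haJ, mul_zero, mul_zero, mul_zero,
        zero_add, zero_add, zero_add,
        show gz A R N ⟨b, L.m b⟩ (Sum.inr (Sum.inr (Sum.inl b))) = 0 from rfl, Int.cast_zero,
        mul_zero, zero_add] at h2'
      refine Eq.trans ?_ h2'
      congr 1
      refine Finset.sum_congr rfl fun i _ => ?_
      rw [haZ', hZ]
      by_cases hi : c.lam i.succ = 0
      · rw [if_pos hi, if_pos hi, gz, EV_s, EV_s, Pi.single_eq_same, Pi.zero_apply,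
          Int.cast_zero, Int.cast_one]
        ring
      · rw [if_neg hi, if_neg hi, gz, gz, EV_s, EV_s, Pi.zero_apply, Int.cast_zero]
        ring
    -- the direction of the first form
    have hz0 : aT * (if 0 = L.m b then 1 else 0) +
        ∑ i : Fin (R b), (if c.lam i.succ = 0 then 0 else aZ i * (-(c.lam i.succ : ResidueField V) *
          resv V (L.ζ b 0 / L.ζ b i.succ))) +
        aJ * (-(∑ i : Fin (R b), c.ρ s₀ i.succ) - 2 * aeval c.yr q.Q * c.cc s₀) = 0 := by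
      have h4 := h1 0
      rw [sum_Sc, hT, hI, hΛ, hX, hJc, hJx, hJ₀, hJ0, ← haJ, ← haT, mul_zero, mul_zero, mul_zero,
        zero_add, zero_add, zero_add, ← add_assoc] at h4
      refine Eq.trans ?_ h4
      congr 1
      congr 1
      · congr 1
        by_cases hi : 0 = L.m b
        · rw [if_pos hi, ← hi, gz_self, Int.cast_one]
        · rw [if_neg hi, gz_ne (fun h => hi (by simpa using h)), Int.cast_zero]
      · refine Finset.sum_congr rfl fun i _ => ?_
        have h5 : gz A R N ⟨b, i.succ⟩ (Sum.inr (Sum.inl ⟨b, 0⟩)) = 0 := by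
          rw [gz_ne]
          simpa using (Fin.succ_ne_zero i).symm
        rw [haZ', hZ]
        by_cases hi : c.lam i.succ = 0
        · rw [if_pos hi, if_pos hi, h5, EV_z, Pi.zero_apply, Int.cast_zero]
          ring
        · rw [if_neg hi, if_neg hi, h5, gz_self, Int.cast_zero, Int.cast_one]
          ring
    -- the directions of the other forms
    have hz : ∀ k : Fin (R b), aT * (if k.succ = L.m b then 1 else 0) +
        (if c.lam k.succ = 0 then aZ k * c.yr (Sum.inr k) else aZ k * (c.lam 0 : ResidueField V)) +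
        aJ * c.ρ s₀ k.succ = 0 := by
      intro k
      have h4 := h1 k.succ
      rw [sum_Sc, hT, hI, hΛ, hX, hJc, hJx, hJ₀, hJk, ← haJ, ← haT, mul_zero, mul_zero, mul_zero,
        zero_add, zero_add, zero_add, ← add_assoc, sum_single_eq _ k fun i hi => by
          rw [hZ, gz_ne (s := ⟨b, i.succ⟩) (by simpa using Ne.symm hi), gz_ne (s := ⟨b, 0⟩)
            (by simp), EV_z, Pi.zero_apply, Int.cast_zero, mul_zero, mul_zero, mul_zero,
            add_zero, sub_zero, ite_self, mul_zero]] at h4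
      refine Eq.trans ?_ h4
      congr 1
      congr 1
      · congr 1
        by_cases hi : k.succ = L.m b
        · rw [if_pos hi, ← hi, gz_self, Int.cast_one]
        · rw [if_neg hi, gz_ne (fun h => hi (by simpa using h)), Int.cast_zero]
      · rw [haZ', hZ, gz_self, gz_ne (s := ⟨b, 0⟩) (by simp), EV_z, Pi.zero_apply, Int.cast_zero,
          Int.cast_one]
        by_cases hi : c.lam k.succ = 0
        · rw [if_pos hi, if_pos hi]
          ring
        · rw [if_neg hi, if_neg hi]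
          ring
    -- the directions of the `y`
    have hy : ∀ i : Fin (R b), (if c.lam i.succ = 0 then -aZ i else 0) + aL +
        aX * (if i = c.i0 then 1 else 0) +
        aJ * (aeval c.yr (pderiv (Sum.inr i) q.Q) * c.cc s₀) = 0 := by
      intro k
      have h4 := h3' (Sum.inr k)
      rw [sum_Sc, hT', hI', hΛ', hX', hJc, hJx, hJ₀, DsJ c q hσ hY, if_neg (by simp), mul_zero,
        mul_zero, zero_add, zero_add, mul_one, ← haL, ← haX, ← haJ,
        sum_single_eq _ k fun i hi => by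
          rw [DsZy c q hσ hY, if_neg (Ne.symm hi), mul_zero], DsZy c q hσ hY, if_pos rfl,
        haZ'] at h4
      refine Eq.trans ?_ h4
      by_cases hi : c.lam k.succ = 0
      · rw [if_pos hi, if_pos hi]
        ring
      · rw [if_neg hi, if_neg hi]
        ring
    obtain ⟨hT0, hZ0, hL0, hX0, hJ0'⟩ := final (fun i => (c.lam i : ResidueField V)) (lam0_res c)
      (lams_res c) (fun i => c.lam (Fin.succ i) = 0) (fun i => lam_res_iff c _) c.i0
      (fun i => c.yr (Sum.inr i)) (yr_sum c) (yr_i0 c) (L.m b)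
      (fun h => hm0 ((lam_res_iff c _).mp h)) aT aZ aL aX aJ (aeval c.yr q.Q) (c.cc s₀)
      (fun i => c.ρ s₀ i.succ) (fun i => aeval c.yr (pderiv (Sum.inr i) q.Q) * c.cc s₀)
      (fun i => resv V (L.ζ b 0 / L.ζ b i.succ)) (fun i hi => by
        have h6 : V.valuation (L.ζ b 0 / L.ζ b i.succ) = 1 := by
          rw [map_div₀, vζ_zero c hσ, vζ_one c hσ _ hi, div_one]
        exact (resv_ne_zero_iff h6.le).mpr h6) (fun i hi => ρ_nz c s₀ hi) hS hz0 hz hy (by
        rcases hJL.alt with ⟨h4, h5⟩ | ⟨h4, i, hi, h5⟩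
        · left
          obtain ⟨hQ, E, hE⟩ := (q.s _ c.yr (yr_ω c hσ)).1 (sum_nz c h5)
          refine ⟨h4, h5, hQ, E, fun i => ?_⟩
          have h6 : c.cc s₀ = 1 := h4
          rw [h6, mul_one]
          exact hE i
        · right
          have h6 : c.cc s₀ = 0 := h4
          refine ⟨h4, fun i => by rw [h6, mul_zero], i, hi, ?_⟩
          show c.ρ s₀ i.succ ≠ 0
          rw [Circ.ρ, h5, mul_one, Circ.fJ, if_pos hi, map_neg, map_intCast]
          exact neg_ne_zero.mpr (lam0_res c))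
    have hI0 : aI = 0 := by
      have h4 := h3' (Sum.inl ())
      rw [sum_Sc, sum_zero_eq _ fun j => by rw [haZ', hZ0, zero_mul], hT', hI', if_pos rfl, ← haL,
        ← haX, ← haJ, hL0, hX0, hJ0', zero_mul, zero_mul, zero_mul, mul_zero, add_zero, add_zero,
        add_zero, zero_add, zero_add, ← haI, mul_neg, mul_one] at h4
      exact neg_eq_zero.mp h4
    rintro (j | i | j | j | j | j)
    · exact haT ▸ hT0
    · rw [haZ']
      exact hZ0 i
    exacts [haI ▸ hI0, haL ▸ hL0, haX ▸ hX0, haJ ▸ hJ0']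

end Bok

end Pool.Agent.H96.ZN
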