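import Pool.Agent.H96.ZN.LB

/-!
# The relations of a block away from the critical point
-/

set_option autoImplicit false
set_option linter.unusedSectionVars false

namespace Pool.Agent.H96.ZN

open MvPolynomial IsLocalRing Pool.Agent.H96.Reg Pool.Agent.H96.VL Pool.Agent.H96.W
open Pool.Agent.H96.Z (Ls Ds c2 x2 cl xl isRegular_of_terms rel_two rel_lin Ls_two Ds_two Ls_tt
  Ds_tt Ls_G Ds_G Ls_U Ds_U Ls_V Ds_V Ls_lin Ds_lin mon_zero' cring abs_single abs_zero_le abs_fz_le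
  cS sum_cS)
open Pool.Agent.H96.W2 (BX mem_BX zero_mem_BX single_mem_BX single_one_mem_BX neg_mem_BX)
open Pool.Agent.H96.S (cond_t cond_f zc0 zc_ne resv_aevalp sum_single_eq sum_zero_eq)

variable {p : ℕ} [Fact p.Prime] {K : Type} [Field K] [Algebra (ZMod p) K]
  {V : ValuationSubring K} {A I Dd Nn B : Type} [Fintype A] [DecidableEq A] [Fintype Nn]
  [DecidableEq Nn] [Fintype Dd] [DecidableEq Dd] [Fintype B] [DecidableEq B] {R : B → ℕ} {N : ℕ}
  {Nw : Fin N → ℕ} {ew : Fin N → Zx R → ℤ} {M M' : ℕ}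
  {L : LD p V A I Dd Nn B R Nw ew M}

/-- The exponent of a form. -/
def gz (A : Type) {B : Type} [DecidableEq B] (R : B → ℕ) (N : ℕ) (s : Zx R) : Ix A R N → ℤ :=
  EV 0 (Pi.single s 1) 0 0

theorem mon_gz (s : Zx R) : mon L.τ (gz A R N s) = L.ζ s.1 s.2 := L.mon_zi s.1 s.2

theorem one_le_of (h : 2 ≤ M') : |(1 : ℤ)| ≤ (M' : ℤ) := by
  rw [abs_one]
  exact_mod_cast (show 1 ≤ M' from (by decide : 1 ≤ 2).trans h)

theorem gz_mem (h : 2 ≤ M') (s : Zx R) : gz A R N s ∈ BX (Ix A R N) M' :=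
  EV_mem abs_fz_le (abs_single (one_le_of h) _) abs_fz_le abs_fz_le

theorem gz_self (s : Zx R) : gz A R N s (Sum.inr (Sum.inl s)) = 1 := by
  rw [gz, EV_z, Pi.single_eq_same]

theorem gz_ne {s s' : Zx R} (h : s' ≠ s) : gz A R N s (Sum.inr (Sum.inl s')) = 0 := by
  rw [gz, EV_z, Pi.single_eq_of_ne h]

theorem sum_gz {β : Type} [CommRing β] (f : Zx R → β) (s : Zx R) :
    ∑ j, f j * ((gz A R N j (Sum.inr (Sum.inl s)) : ℤ) : β) = f s := by
  classical
  rw [Finset.sum_eq_single s]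
  · rw [gz_self, Int.cast_one, mul_one]
  · intro j _ hj
    rw [gz_ne (Ne.symm hj), Int.cast_zero, mul_zero]
  · intro h; exact absurd (Finset.mem_univ _) h

theorem sum_gz0 {β : Type} [CommRing β] (f : Zx R → β) {α : Ix A R N}
    (hα : ∀ j, gz A R N j α = 0) :
    ∑ j, f j * ((gz A R N j α : ℤ) : β) = 0 :=
  Finset.sum_eq_zero fun j _ => by rw [hα, Int.cast_zero, mul_zero]

theorem sum_xt {β : Type} [Field β] [Algebra (ZMod p) β] (b : B)
    (f : Fin (R b + 1) → ZMod p) (g : Zx R → β) :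
    ∑ s, algebraMap (ZMod p) β (xt b f s) * g s =
      ∑ i, algebraMap (ZMod p) β (f i) * g ⟨b, i⟩ := by
  rw [Fintype.sum_sigma, Finset.sum_eq_single b]
  · exact Finset.sum_congr rfl fun i _ => by rw [xt_self]
  · intro b' _ hb
    exact Finset.sum_eq_zero fun i _ => by rw [xt_ne hb, map_zero, zero_mul]
  · intro h; exact absurd (Finset.mem_univ _) h

theorem sum_unit {β : Type} [AddCommMonoid β] (g : Unit → β) : ∑ u, g u = g () := by
  rw [Finset.univ_unique, Finset.sum_singleton]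

/-- The relations of a block without additional variables are suitable. -/
structure Pok (L : LD p V A I Dd Nn B R Nw ew M) [Algebra (ZMod p) (ResidueField V)]
    (Y : Θx R → K) (M' : ℕ) (b : B) {S : Type} [Fintype S]
    (c : S → Tx R → L.Po) (x : S → Tx R → Ix A R N → ℤ) (s₀ : S → Tx R) :
    Prop where
  mem : ∀ j s, x j s ∈ BX (Ix A R N) M'
  rel : ∀ j, ∑ s, aeval (Sum.elim L.y Y) (c j s) * mon L.τ (x j s) = 0
  ok : ∀ j, c j (s₀ j) ≠ 0 ∨ ∀ s, c j s = 0
  dom : ∀ j s, c j s ≠ 0 → V.valuation (mon L.τ (x j s)) ≤ V.valuation (mon L.τ (x j (s₀ j)))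
  w : ∀ j c', Ls V L.τ (Sum.elim L.y Y) (c j) (x j) (s₀ j) (Sum.inr (Sum.inr (Sum.inr c'))) = 0
  zo : ∀ j b' i, b' ≠ b →
    Ls V L.τ (Sum.elim L.y Y) (c j) (x j) (s₀ j) (Sum.inr (Sum.inl ⟨b', i⟩)) = 0
  so : ∀ j b', b' ≠ b →
    Ls V L.τ (Sum.elim L.y Y) (c j) (x j) (s₀ j) (Sum.inr (Sum.inr (Sum.inl b'))) = 0
  th : ∀ j θ, Ds V L.τ (Sum.elim L.y Y) (c j) (x j) (s₀ j) (Sum.inr θ) = 0
  ind : ∀ a : S → ResidueField V,
    (∀ i, ∑ j, a j * Ls V L.τ (Sum.elim L.y Y) (c j) (x j) (s₀ j) (Sum.inr (Sum.inl ⟨b, i⟩)) = 0) →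
    (∑ j, a j * Ls V L.τ (Sum.elim L.y Y) (c j) (x j) (s₀ j) (Sum.inr (Sum.inr (Sum.inl b))) = 0) →
    ∀ j, a j = 0

section Pok

variable [Algebra (ZMod p) (ResidueField V)] {Y : Θx R → K} {b : B} {S : Type} [Fintype S]

/-- The coefficients with the trivial variables. -/
noncomputable def dc (L : LD p V A I Dd Nn B R Nw ew M) (b : B) (c : S → Tx R → L.Po) :
    Tc (R b) ⊕ S → Tx R → L.Po :=
  Sum.elim (fun θ => c2 _ (X (Sum.inr ⟨b, θ⟩)) 0) c

/-- The exponents with the trivial variables. -/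
def dx (b : B) (x : S → Tx R → Ix A R N → ℤ) : Tc (R b) ⊕ S → Tx R → Ix A R N → ℤ :=
  Sum.elim (fun _ => x2 _ 0 0) x

/-- The leading terms with the trivial variables. -/
def ds (b : B) (s₀ : S → Tx R) : Tc (R b) ⊕ S → Tx R := Sum.elim (fun _ => Sum.inr true) s₀

theorem bok_of_pok (hY : ∀ θ, Y ⟨b, θ⟩ = 0) {c : S → Tx R → L.Po}
    {x : S → Tx R → Ix A R N → ℤ} {s₀ : S → Tx R} (hP : Pok L Y M' b c x s₀) :
    Bok L Y M' b (dc L b c) (dx b x) (ds b s₀) := by
  classical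
  have hU : ∀ θ α, Ls V L.τ (Sum.elim L.y Y) (dc L b c (Sum.inl θ)) (dx b x (Sum.inl θ))
      (ds b s₀ (Sum.inl θ)) α = 0 := fun i α => Ls_G _ _ α
  have hU' : ∀ θ l, Ds V L.τ (Sum.elim L.y Y) (dc L b c (Sum.inl θ)) (dx b x (Sum.inl θ))
      (ds b s₀ (Sum.inl θ)) l = if l = Sum.inr ⟨b, θ⟩ then 1 else 0 := by
    intro i l
    refine (Ds_G _ _).trans ?_
    rw [pderiv_X, Pi.single_apply]
    by_cases hl : l = Sum.inr ⟨b, i⟩
    · rw [if_pos hl.symm, if_pos hl, map_one]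
    · rw [if_neg (Ne.symm hl), if_neg hl, map_zero]
  refine ⟨?_, ?_, ?_, ?_, ?_, ?_, ?_, ?_, ?_⟩
  · rintro (θ | j) s
    · rcases s with s | _ | _ <;> exact zero_mem_BX
    · exact hP.mem j s
  · rintro (θ | j)
    · refine (rel_two (y := Sum.elim L.y Y) _ _ _ _).trans ?_
      rw [aeval_X, map_zero, zero_mul, add_zero, Sum.elim_inr, hY, zero_mul]
    · exact hP.rel j
  · rintro (θ | j)
    · exact Or.inl (X_ne_zero _)
    · exact hP.ok j
  · rintro (θ | j) s hs
    · rcases s with s | _ | _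
      · exact absurd rfl hs
      · exact absurd rfl hs
      · exact le_rfl
    · exact hP.dom j s hs
  · rintro (θ | j) c'
    · exact hU _ _
    · exact hP.w j c'
  · rintro (θ | j) b' i hb
    · exact hU _ _
    · exact hP.zo j b' i hb
  · rintro (θ | j) b' hb
    · exact hU _ _
    · exact hP.so j b' hb
  · rintro (θ | j) b' θ' hb
    · rw [hU', if_neg (fun h => hb (congrArg Sigma.fst (Sum.inr_injective h)))]
    · exact hP.th j _
  · intro a h1 h2 h3
    have h4 : ∀ j, a (Sum.inr j) = 0 := by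
      refine hP.ind (fun j => a (Sum.inr j)) (fun i => ?_) ?_
      · have h5 := h1 i
        rwa [Fintype.sum_sum_type, sum_zero_eq _ fun θ => by rw [hU, mul_zero], zero_add] at h5
      · rwa [Fintype.sum_sum_type, sum_zero_eq _ fun θ => by rw [hU, mul_zero], zero_add] at h2
    rintro (θ | j)
    · have h5 := h3 θ
      rw [Fintype.sum_sum_type, sum_zero_eq (fun j : S => a (Sum.inr j) * _) fun j => by
        rw [h4, zero_mul], add_zero, sum_single_eq _ θ fun θ' hθ => by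
          rw [hU', if_neg (fun h => hθ (by simpa using h.symm)), mul_zero], hU', if_pos rfl,
        mul_one] at h5
      exact h5
    · exact h4 j

end Pok

theorem Ls_TT [Algebra (ZMod p) (ResidueField V)] {Y : Θx R → K} (b : B) (α : Ix A R N) :
    Ls V L.τ (Sum.elim L.y Y) (c2 (Zx R) (1 : L.Po) (-1)) (x2 (Zx R) (gz A R N ⟨b, L.m b⟩) 0)
      (Sum.inr true) α = ((gz A R N ⟨b, L.m b⟩ α : ℤ) : ResidueField V) :=
  Ls_U L.τ_ne_zero α

section Lin

variable [Algebra (ZMod p) (ResidueField V)] {Y : Θx R → K}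

/-- The sum of the forms: the residues. -/
theorem resv_ζs (L : LD p V A I Dd Nn B R Nw ew M) (b : B) : ∑ i, resv V (L.ζ b i) = 0 := by
  have h4 := (resv_aevalp V (L.ζ b) (L.vζ b)
    (∑ i, X i : MvPolynomial (Fin (R b + 1)) (ZMod p))).2
  rw [map_sum, map_sum] at h4
  simp only [aeval_X] at h4
  rw [← h4, L.ζs]
  exact resv_zero

/-- The differential of the linear relation. -/
theorem Ls_L (b : B) (α : Ix A R N) :
    Ls V L.τ (Sum.elim L.y Y) (cl (xt b fun _ => (1 : ZMod p)) (0 : L.Po)) (xl (gz A R N) 0)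
      (Sum.inl ⟨b, L.m b⟩) α =
      ∑ s, (algebraMap (ZMod p) (ResidueField V) (xt b (fun _ => 1) s) *
        resv V (L.ζ s.1 s.2)) * ((gz A R N s α : ℤ) : ResidueField V) := by
  refine (Ls_lin _ _ _ _ _ α).trans ?_
  rw [map_zero, zero_mul, zero_mul, add_zero]
  refine Finset.sum_congr rfl fun j _ => ?_
  have h1 : xl (gz A R N) 0 (Sum.inl ⟨b, L.m b⟩) = gz A R N ⟨b, L.m b⟩ := rfl
  rw [h1, mon_gz, mon_gz, L.ζm, div_one]

theorem rel_L (b : B) : ∑ s, aeval (Sum.elim L.y Y)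
    (cl (xt b fun _ => (1 : ZMod p)) (0 : L.Po) s) * mon L.τ (xl (gz A R N) 0 s) = 0 := by
  refine (rel_lin (y := Sum.elim L.y Y) _ _ _ _).trans ?_
  rw [map_zero, zero_mul, add_zero, sum_xt b _ fun s => mon L.τ (gz A R N s), ← L.ζs b]
  refine Finset.sum_congr rfl fun i _ => ?_
  rw [map_one, one_mul, mon_gz]

theorem dom_L (b : B) (s : Tx R) (hs : cl (xt b fun _ => (1 : ZMod p)) (0 : L.Po) s ≠ 0) :
    V.valuation (mon L.τ (xl (gz A R N) 0 s)) ≤
      V.valuation (mon L.τ (xl (gz A R N) 0 (Sum.inl ⟨b, L.m b⟩))) := by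
  rcases s with s | _ | _
  · show V.valuation (mon L.τ (gz A R N s)) ≤ V.valuation (mon L.τ (gz A R N ⟨b, L.m b⟩))
    rw [mon_gz, mon_gz, L.ζm, map_one]
    exact L.vζ _ _
  · exact absurd rfl hs
  · exact absurd rfl hs

theorem mem_L (h : 2 ≤ M') (s : Tx R) : xl (gz A R N) 0 s ∈ BX (Ix A R N) M' := by
  rcases s with s | _ | _
  · exact gz_mem h s
  · exact zero_mem_BX
  · exact zero_mem_BX

/-- **The relations of a linear block.** -/
theorem pokL (h2 : 2 ≤ M') (b : B) (i1 : Fin (R b + 1)) (hσ : L.σ b = L.ζ b i1)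
    (Y : Θx R → K) : Pok L Y M' b (S := Unit ⊕ (Unit ⊕ Unit))
      (Sum.elim (fun _ => c2 _ 1 (-1)) (Sum.elim
        (fun _ => cl (xt b fun _ => 1) 0) fun _ => c2 _ 1 (-1)))
      (Sum.elim (fun _ => x2 _ (gz A R N ⟨b, L.m b⟩) 0) (Sum.elim
        (fun _ => xl (gz A R N) 0)
        fun _ => x2 _ (EV 0 (Pi.single ⟨b, i1⟩ (-1)) (Pi.single b 1) 0) 0))
      (Sum.elim (fun _ => Sum.inr true) (Sum.elim (fun _ => Sum.inl ⟨b, L.m b⟩)
        fun _ => Sum.inr true)) := by
  have hm1 : mon L.τ (EV 0 (Pi.single ⟨b, i1⟩ (-1)) (Pi.single b 1) 0) = 1 := by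
    rw [L.mon_sz, zpow_one, hσ, div_self (L.ζ0 b i1)]
  refine ⟨?_, ?_, ?_, ?_, ?_, ?_, ?_, ?_, ?_⟩
  · rintro (j | j | j) s
    · rcases s with s | _ | _
      · exact zero_mem_BX
      · exact zero_mem_BX
      · exact gz_mem h2 _
    · exact mem_L h2 s
    · rcases s with s | _ | _
      · exact zero_mem_BX
      · exact zero_mem_BX
      · exact EV_mem abs_fz_le (abs_single (by rw [abs_neg]; exact one_le_of h2) _)
          (abs_single (one_le_of h2) _) abs_fz_le
  · rintro (j | j | j)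
    · refine (rel_two (y := Sum.elim L.y Y) _ _ _ _).trans ?_
      rw [mon_gz, L.ζm, mon_zero', map_neg, map_one]; ring
    · exact rel_L b
    · refine (rel_two (y := Sum.elim L.y Y) _ _ _ _).trans ?_
      rw [hm1, mon_zero', map_neg, map_one]; ring
  · rintro (j | j | j)
    · exact Or.inl one_ne_zero
    · left
      show MvPolynomial.C (xt b (fun _ => (1 : ZMod p)) ⟨b, L.m b⟩) ≠ 0
      rw [xt_self, MvPolynomial.C_1]
      exact one_ne_zero
    · exact Or.inl one_ne_zero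
  · rintro (j | j | j) s hs
    · rcases s with s | _ | _
      · exact absurd rfl hs
      · show V.valuation (mon L.τ 0) ≤ V.valuation (mon L.τ (gz A R N ⟨b, L.m b⟩))
        rw [mon_zero', mon_gz, L.ζm]
      · exact le_rfl
    · exact dom_L b s hs
    · rcases s with s | _ | _
      · exact absurd rfl hs
      · show V.valuation (mon L.τ 0) ≤
          V.valuation (mon L.τ (EV 0 (Pi.single ⟨b, i1⟩ (-1)) (Pi.single b 1) 0))
        rw [mon_zero', hm1]
      · exact le_rfl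
  · rintro (j | j | j) c'
    · exact (Ls_TT b _).trans (zc0 V)
    · exact (Ls_L b _).trans (sum_gz0 _ fun _ => rfl)
    · exact (Ls_U L.τ_ne_zero _).trans (zc0 V)
  · rintro (j | j | j) b' i hb
    · refine (Ls_TT b _).trans ?_
      rw [gz_ne (fun h => hb (congrArg Sigma.fst h)), Int.cast_zero]
    · refine (Ls_L b _).trans ?_
      rw [sum_gz, xt_ne hb, map_zero, zero_mul]
    · refine (Ls_U L.τ_ne_zero _).trans ?_
      rw [EV_z, Pi.single_eq_of_ne (fun h => hb (congrArg Sigma.fst h)), Int.cast_zero]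
  · rintro (j | j | j) b' hb
    · exact (Ls_TT b _).trans (zc0 V)
    · exact (Ls_L b _).trans (sum_gz0 _ fun _ => rfl)
    · refine (Ls_U L.τ_ne_zero _).trans ?_
      rw [EV_s, Pi.single_eq_of_ne hb, Int.cast_zero]
  · rintro (j | j | j) θ
    · exact Ds_U L.τ_ne_zero _
    · exact Ds_lin _ _ _ _ _ _ (map_zero _)
    · exact Ds_U L.τ_ne_zero _
  · intro a h1 h3
    obtain ⟨aT, haT⟩ : ∃ f, f = a (Sum.inl ()) := ⟨_, rfl⟩
    obtain ⟨aL, haL⟩ : ∃ f, f = a (Sum.inr (Sum.inl ())) := ⟨_, rfl⟩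
    obtain ⟨aS, haS⟩ : ∃ f, f = a (Sum.inr (Sum.inr ())) := ⟨_, rfl⟩
    simp only [Fintype.sum_sum_type, sum_unit, Sum.elim_inl, Sum.elim_inr, Ls_TT, Ls_L,
      Ls_U L.τ_ne_zero, ← haT, ← haL, ← haS] at h1 h3
    have hS : aS = 0 := by
      rw [sum_gz0 _ (fun _ => rfl), EV_s, Pi.single_eq_same, Int.cast_one, mul_one,
        mul_zero, zero_add, show gz A R N ⟨b, L.m b⟩ (Sum.inr (Sum.inr (Sum.inl b))) = 0 from rfl,
        Int.cast_zero, mul_zero, zero_add] at h3
      exact h3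
    have h4 : ∀ i, aT * (if i = L.m b then 1 else 0) + aL * resv V (L.ζ b i) = 0 := by
      intro i
      have h5 := h1 i
      rw [hS, zero_mul, add_zero, sum_gz, xt_self, map_one, one_mul] at h5
      by_cases hi : i = L.m b
      · rw [if_pos hi]
        subst hi
        rw [gz_self, Int.cast_one] at h5
        exact h5
      · rw [gz_ne (fun h => hi (by simpa using h)), Int.cast_zero] at h5
        rw [if_neg hi]
        exact h5
    have hT0 : aT = 0 := by
      have h5 : ∑ i, (aT * (if i = L.m b then 1 else 0) + aL * resv V (L.ζ b i)) = 0 :=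
        Finset.sum_eq_zero fun i _ => h4 i
      rw [Finset.sum_add_distrib, ← Finset.mul_sum, ← Finset.mul_sum,
        resv_ζs, mul_zero, add_zero,
        Finset.sum_ite_eq' Finset.univ (L.m b), if_pos (Finset.mem_univ _), mul_one] at h5
      exact h5
    have hL0 : aL = 0 := by
      have h5 := h4 (L.m b)
      rw [hT0, zero_mul, zero_add, L.ζm, resv_one, mul_one] at h5
      exact h5
    rintro (j | j | j)
    exacts [haT ▸ hT0, haL ▸ hL0, haS ▸ hS]

theorem vconst {c : ZMod p} (hc : c ≠ 0) : V.valuation (algebraMap (ZMod p) K c) = 1 := by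
  have hle : ∀ c : ZMod p, V.valuation (algebraMap (ZMod p) K c) ≤ 1 := by
    intro c
    obtain ⟨n, rfl⟩ := ZMod.intCast_surjective c
    rw [map_intCast]
    exact (V.valuation_le_one_iff _).mpr (intCast_mem _ n)
  refine le_antisymm (hle c) ?_
  have h1 := hle c⁻¹
  rw [map_inv₀, map_inv₀] at h1
  by_contra hcon
  have h0 : V.valuation (algebraMap (ZMod p) K c) ≠ 0 := by
    rw [Ne, Valuation.zero_iff, map_eq_zero]
    exact hc
  exact absurd h1 (not_le.mpr ((one_lt_inv₀ (zero_lt_iff.mpr h0)).mpr (not_le.mp hcon)))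

/-- **The relations of a degenerate block.** -/
theorem pokD (h2 : 2 ≤ M') (b : B) (i1 : Fin (R b + 1)) (hσ : L.σ b = L.ζ b i1)
    (e : Fin (R b + 1) → ZMod p) (he0 : ∀ i, e i ≠ 0)
    (he : ∀ i, L.ζ b i = algebraMap (ZMod p) K (e i))
    (Y : Θx R → K) : Pok L Y M' b (S := Fin (R b + 1) ⊕ Unit)
      (Sum.elim (fun i => c2 _ 1 (-MvPolynomial.C (e i))) fun _ => c2 _ 1 (-1))
      (Sum.elim (fun i => x2 _ (gz A R N ⟨b, i⟩) 0)
        fun _ => x2 _ (EV 0 (Pi.single ⟨b, i1⟩ (-1)) (Pi.single b 1) 0) 0)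
      (Sum.elim (fun _ => Sum.inr true) fun _ => Sum.inr true) := by
  classical
  have hm1 : mon L.τ (EV 0 (Pi.single ⟨b, i1⟩ (-1)) (Pi.single b 1) 0) = 1 := by
    rw [L.mon_sz, zpow_one, hσ, div_self (L.ζ0 b i1)]
  have hE : ∀ i α, Ls V L.τ (Sum.elim L.y Y) (c2 (Zx R) (1 : L.Po) (-MvPolynomial.C (e i)))
      (x2 (Zx R) (gz A R N ⟨b, i⟩) 0) (Sum.inr true) α =
        ((gz A R N ⟨b, i⟩ α : ℤ) : ResidueField V) := by
    intro i α
    rw [Ls_tt L.τ_ne_zero, Pi.zero_apply, Int.cast_zero, mul_zero, add_zero, map_one, one_mul]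
  refine ⟨?_, ?_, ?_, ?_, ?_, ?_, ?_, ?_, ?_⟩
  · rintro (j | j) (s | _ | _)
    · exact zero_mem_BX
    · exact zero_mem_BX
    · exact gz_mem h2 _
    · exact zero_mem_BX
    · exact zero_mem_BX
    · exact EV_mem abs_fz_le (abs_single (by rw [abs_neg]; exact one_le_of h2) _)
        (abs_single (one_le_of h2) _) abs_fz_le
  · rintro (j | j)
    · refine (rel_two (y := Sum.elim L.y Y) _ _ _ _).trans ?_
      rw [mon_gz, he, mon_zero', map_neg, map_one, aeval_C]; ring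
    · refine (rel_two (y := Sum.elim L.y Y) _ _ _ _).trans ?_
      rw [hm1, mon_zero', map_neg, map_one]; ring
  · rintro (j | j)
    · exact Or.inl one_ne_zero
    · exact Or.inl one_ne_zero
  · rintro (j | j) (s | _ | _) hs
    · exact absurd rfl hs
    · show V.valuation (mon L.τ 0) ≤ V.valuation (mon L.τ (gz A R N ⟨b, j⟩))
      rw [mon_zero', mon_gz, he, vconst (he0 j), map_one]
    · exact le_rfl
    · exact absurd rfl hs
    · show V.valuation (mon L.τ 0) ≤
        V.valuation (mon L.τ (EV 0 (Pi.single ⟨b, i1⟩ (-1)) (Pi.single b 1) 0))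
      rw [mon_zero', hm1]
    · exact le_rfl
  · rintro (j | j) c'
    · exact (hE j _).trans (zc0 V)
    · exact (Ls_U L.τ_ne_zero _).trans (zc0 V)
  · rintro (j | j) b' i hb
    · refine (hE j _).trans ?_
      rw [gz_ne (fun h => hb (congrArg Sigma.fst h)), Int.cast_zero]
    · refine (Ls_U L.τ_ne_zero _).trans ?_
      rw [EV_z, Pi.single_eq_of_ne (fun h => hb (congrArg Sigma.fst h)), Int.cast_zero]
  · rintro (j | j) b' hb
    · exact (hE j _).trans (zc0 V)
    · refine (Ls_U L.τ_ne_zero _).trans ?_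
      rw [EV_s, Pi.single_eq_of_ne hb, Int.cast_zero]
  · rintro (j | j) θ
    · show Ds V L.τ (Sum.elim L.y Y) (c2 (Zx R) (1 : L.Po) (-MvPolynomial.C (e j)))
        (x2 (Zx R) (gz A R N ⟨b, j⟩) 0) (Sum.inr true) (Sum.inr θ) = 0
      rw [Ds_tt L.τ_ne_zero, map_neg, pderiv_C, ← MvPolynomial.C_1, pderiv_C, map_zero, neg_zero,
        map_zero, zero_mul, add_zero]
    · exact Ds_U L.τ_ne_zero _
  · intro a h1 h3
    simp only [Fintype.sum_sum_type, sum_unit, Sum.elim_inl, Sum.elim_inr, hE,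
      Ls_U L.τ_ne_zero] at h1 h3
    have hS : a (Sum.inr ()) = 0 := by
      rw [sum_zero_eq _ fun i => by
        rw [show gz A R N ⟨b, i⟩ (Sum.inr (Sum.inr (Sum.inl b))) = 0 from rfl,
          Int.cast_zero, mul_zero], EV_s, Pi.single_eq_same, Int.cast_one, mul_one,
        zero_add] at h3
      exact h3
    have h4 : ∀ i, a (Sum.inl i) = 0 := by
      intro i
      have h5 := h1 i
      rw [hS, zero_mul, add_zero, sum_single_eq _ i fun j hj => by
        rw [gz_ne (s := ⟨b, j⟩) (fun h => hj (by simpa using h.symm)), Int.cast_zero, mul_zero],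
        gz_self, Int.cast_one, mul_one] at h5
      exact h5
    rintro (j | j)
    exacts [h4 j, hS]

end Lin

end Pool.Agent.H96.ZN
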